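import Pool.Agent.TH208.GJ.Key

set_option autoImplicit false
set_option linter.unusedSectionVars false
set_option linter.unusedVariables false

/-!
# Linear inequalities for gamma-polynomials improve themselves
-/

namespace Pool.Agent.TH208.GJ

open Pool.Agent.W497.FS Polynomial

variable {ι : Type*} {K : ι → Type} [∀ i, Field (K i)] {n d : ℕ} {S : Finset (Finset (Fin n))}

/-- chains of `2 s + 1` copies, with the exact gamma-polynomial -/
theorem chain_exact (i₀ : ι) (h : ∀ i, IsFlagSphere (K i) (d + 1) S) {a b : Fin n}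
    (ha : a ∈ vert S) (hb : b ∈ vert S) (hab : a ≠ b) (hnadj : ¬ (skel S).Adj a b)
    {GS GA GB : ℤ[X]} (hGS : IsG (d + 1) S GS)
    (hGA : IsG d (cl (skel S) (lk (skel S) (vert S) a)) GA)
    (hGB : IsG d (cl (skel S) (lk (skel S) (vert S) b)) GB) {M : ℕ} :
    ∀ s, 2 * s + 1 ≤ M →
      Tow K S (d + 1) M (2 * s + 1) a (GS + C (s : ℤ) * (GS + GS - GA - GB)) := by
  intro s
  induction s with
  | zero =>
    intro hM
    have := Tow.base i₀ h (M := M) (by omega) ha hGS.1
    simpa using this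
  | succ s ih =>
    intro hM
    have h1 := Tow.step i₀ h (by omega) ha hb hab hnadj (ih (by omega)) hGS.1 hGA
    have h2 := Tow.step i₀ h (by omega) hb ha hab.symm (fun h' => hnadj h'.symm) h1 hGS.1 hGB
    have e : GS + C (((s + 1 : ℕ) : ℤ)) * (GS + GS - GA - GB) =
        GS + C (s : ℤ) * (GS + GS - GA - GB) + GS - GA + GS - GB := by
      rw [Nat.cast_succ, map_add, map_one]; ring
    rw [show 2 * (s + 1) + 1 = 2 * s + 1 + 1 + 1 by ring, e]
    exact h2

/-- a nonnegative coefficient of all gamma-polynomials in rank `d + 1` improves itself -/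
theorem pair_ineq (i₀ : ι) {i : ℕ}
    (hP : ∀ (N : ℕ) (T : Finset (Finset (Fin N))) (G : ℤ[X]),
      (∀ j, IsFlagSphere (K j) (d + 1) T) → IsG (d + 1) T G → 0 ≤ G.coeff i)
    (h : ∀ i, IsFlagSphere (K i) (d + 1) S) {a b : Fin n}
    (ha : a ∈ vert S) (hb : b ∈ vert S) (hab : a ≠ b) (hnadj : ¬ (skel S).Adj a b)
    {GS GA GB : ℤ[X]} (hGS : IsG (d + 1) S GS)
    (hGA : IsG d (cl (skel S) (lk (skel S) (vert S) a)) GA)
    (hGB : IsG d (cl (skel S) (lk (skel S) (vert S) b)) GB) :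
    GA.coeff i + GB.coeff i ≤ 2 * GS.coeff i := by
  by_contra hlt
  rw [not_le] at hlt
  set s : ℕ := (GS.coeff i).toNat + 1 with hs
  have hpos := Int.self_le_toNat (GS.coeff i)
  obtain ⟨H, W, τ, hMf, hNP, hG, -⟩ :=
    chain_exact i₀ h ha hb hab hnadj hGS hGA hGB (M := 2 * s + 1) s le_rfl
  have h3 := hP _ (cl H W) _ (fun j => isFlagSphere_of_mf (hMf j)) ⟨hG, fun j hj => by
    rw [coeff_add, coeff_C_mul, coeff_sub, coeff_sub, coeff_add, hGS.2 j hj, hGA.2 j (by omega),
      hGB.2 j (by omega)]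
    ring⟩
  rw [coeff_add, coeff_C_mul, coeff_sub, coeff_sub, coeff_add] at h3
  have hs' : (s : ℤ) = ((GS.coeff i).toNat : ℤ) + 1 := by rw [hs]; push_cast; ring
  rw [hs'] at h3
  nlinarith

end Pool.Agent.TH208.GJ
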