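import Pool.Agent.W497.FS.Acyc
import Pool.Agent.W216.FS.BB

set_option autoImplicit false
set_option linter.unusedSectionVars false

/-!
# Joins with cycles: the homology of the join of a flag homology sphere with a cycle
-/

namespace Pool.Agent.TH208.GJ

open Pool.Agent.W497.FS

variable {k : Type} [Field k] {α : Type} [LinearOrder α] [Fintype α] {H : SimpleGraph α}

theorem bd_bd (c : Finset α → k) : bd (bd c) = 0 := Pool.Agent.W216.FS.BB.main k α c

/-- the cone over a chain -/
def up (u : α) (e : Finset α → k) : Finset α → k :=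
  fun A => if u ∈ A then sg k u (A.erase u) * e (A.erase u) else 0

theorem up_insert {u : α} {e : Finset α → k} {A : Finset α} (hu : u ∉ A) :
    up u e (insert u A) = sg k u A * e A := by
  rw [up, if_pos (Finset.mem_insert_self _ _), Finset.erase_insert hu]

theorem up_of_notMem {u : α} {e : Finset α → k} {A : Finset α} (hu : u ∉ A) : up u e A = 0 := by
  rw [up, if_neg hu]

theorem up_on {X : Finset α} {u : α} (hu : u ∈ X) {j : ℕ} {e : Finset α → k}
    (he : On H (lk H X u) j e) : On H X (j + 1) (up u e) := by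
  intro A hA
  rw [up] at hA
  split_ifs at hA with hu2
  · have h1 := he (A.erase u) (fun h => hA (by rw [h, mul_zero]))
    obtain ⟨h2, h3⟩ := insert_mem_cl hu h1.1
    rw [Finset.insert_erase hu2] at h2
    refine ⟨h2, ?_⟩
    rw [← h1.2, Finset.card_erase_add_one hu2]
  · exact absurd rfl hA

theorem lpart_up {u : α} {e : Finset α → k} (he : ∀ A, u ∈ A → e A = 0) : lpart u (up u e) = e := by
  funext A
  rw [lpart]
  split_ifs with hu
  · exact (he A hu).symm
  · rw [up_insert hu, ← mul_assoc, sg_mul_self, one_mul]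

theorem dpart_up {u : α} {e : Finset α → k} : dpart u (up u e) = 0 := by
  funext A
  rw [dpart]
  split_ifs with hu
  · rfl
  · exact up_of_notMem hu

theorem bd_up_of_notMem {u : α} {e : Finset α → k} (he : ∀ A, u ∈ A → e A = 0) {A : Finset α}
    (hu : u ∉ A) : bd (up u e) A = e A := by
  rw [bd_split hu, dpart_up, bd_zero, lpart_up he]
  simp

theorem bd_up_insert {u : α} {e : Finset α → k} (he : ∀ A, u ∈ A → e A = 0) {A : Finset α}
    (hu : u ∉ A) : bd (up u e) (insert u A) = -(sg k u A * bd e A) := by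
  have h1 := bd_lpart (c := up u e) hu
  rw [lpart_up he] at h1
  have h2 : sg k u A * bd e A = -(bd (up u e) (insert u A)) := by
    rw [h1]
    have := sg_mul_self (k := k) u A
    linear_combination (-(bd (up u e) (insert u A))) * this
  rw [h2, neg_neg]

theorem bd_on {X : Finset α} {j : ℕ} {c : Finset α → k} (h : On H X (j + 1) c) :
    On H X j (bd c) := by
  intro A hA
  rw [bd] at hA
  obtain ⟨v, hv, hne⟩ := Finset.exists_ne_zero_of_sum_ne_zero hA
  have h1 := h (insert v A) (fun h' => hne (by rw [h', mul_zero]))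
  rw [Finset.mem_compl] at hv
  rw [Finset.card_insert_of_notMem hv] at h1
  exact ⟨cl_of_subset h1.1 (Finset.subset_insert _ _), by omega⟩

theorem bd_lpart_zero {c : Finset α → k} (h0 : bd c = 0) (u : α) : bd (lpart u c) = 0 := by
  funext A
  by_cases hu : u ∈ A
  · exact bd_lpart_of_mem hu
  · rw [bd_lpart hu, h0]; simp

theorem lk_subset_erase {X : Finset α} {u : α} : lk H X u ⊆ X.erase u := fun _ hx =>
  Finset.mem_erase.2 ⟨fun h => not_mem_lk_self (h ▸ hx), lk_subset hx⟩

/-- a chain on `X` vanishing on the sets with `u` is a chain on `X.erase u` -/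
theorem on_erase {X : Finset α} {u : α} {j : ℕ} {c : Finset α → k} (h : On H X j c)
    (h0 : ∀ A, u ∈ A → c A = 0) : On H (X.erase u) j c := by
  intro A hA
  obtain ⟨h1, h2⟩ := h A hA
  exact ⟨mem_cl.2 ⟨fun x hx => Finset.mem_erase.2 ⟨fun hxu => hA (h0 A (hxu ▸ hx)),
    (mem_cl.1 h1).1 hx⟩, (mem_cl.1 h1).2⟩, h2⟩

/-- Mayer-Vietoris: adding a vertex -/
theorem Ex_of_erase {X : Finset α} {u : α} (hu : u ∈ X) {j : ℕ} (h1 : Ex k H (X.erase u) j)
    (h2 : ∀ i, i + 1 = j → Ex k H (lk H X u) i) : Ex k H X j := by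
  intro c hc h0
  rcases j with _ | j
  · have hc' : On H (X.erase u) 0 c := on_erase hc (fun A hA => by
      by_contra hne
      have := (hc A hne).2
      rw [Finset.card_eq_zero] at this
      rw [this] at hA
      exact absurd hA (Finset.notMem_empty _))
    obtain ⟨b, hb, hbc⟩ := h1 c hc' h0
    exact ⟨b, hb.mono (Finset.erase_subset _ _), hbc⟩
  · obtain ⟨e, he, hbe⟩ := h2 j rfl _ (lpart_on hc) (bd_lpart_zero h0 u)
    have he0 : ∀ A, u ∈ A → e A = 0 := fun A hA => he.eq_zero not_mem_lk_self hA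
    have hup := up_on hu he
    have hc' : On H (X.erase u) (j + 1) (c + bd (up u e)) := by
      refine on_erase (hc.add (bd_on hup)) (fun A hA => ?_)
      have hA2 : u ∉ A.erase u := Finset.notMem_erase u A
      rw [Pi.add_apply, ← Finset.insert_erase hA, bd_up_insert he0 hA2, hbe, lpart, if_neg hA2,
        ← mul_assoc, sg_mul_self, one_mul, add_neg_cancel]
    obtain ⟨b, hb, hbc⟩ := h1 _ hc' (by rw [bd_add, h0, bd_bd, add_zero])
    refine ⟨b + (-1 : k) • up u e, (hb.mono (Finset.erase_subset _ _)).add (hup.smul _), ?_⟩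
    rw [bd_add, bd_smul, hbc]
    funext A
    simp

/-- a cone has no homology -/
theorem Ex_cone {X : Finset α} {v : α} (hv : ∀ x ∈ X, H.Adj v x) (j : ℕ) :
    Ex k H (insert v X) j := by
  intro c hc h0
  have hvX : v ∉ X := fun h => (hv v h).ne rfl
  have hlk : lk H (insert v X) v = X := by
    ext x
    rw [mem_lk, Finset.mem_insert]
    constructor
    · rintro ⟨rfl | h, h'⟩
      · exact absurd rfl h'.ne
      · exact h
    · exact fun h => ⟨Or.inr h, hv x h⟩
  have hd := dpart_on (u := v) hc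
  rw [Finset.erase_insert hvX] at hd
  have he0 : ∀ A, v ∈ A → dpart v c A = 0 := fun A hA => by rw [dpart, if_pos hA]
  refine ⟨up v (dpart v c), up_on (Finset.mem_insert_self _ _) (by rw [hlk]; exact hd), ?_⟩
  funext A
  by_cases hA : v ∈ A
  · have hA2 : v ∉ A.erase v := Finset.notMem_erase v A
    have h1 := bd_split (c := c) hA2
    rw [h0, Pi.zero_apply, lpart, if_neg hA2, Finset.insert_erase hA] at h1
    rw [← Finset.insert_erase hA, bd_up_insert he0 hA2, Finset.insert_erase hA]
    have h2 := sg_mul_self (k := k) v (A.erase v)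
    linear_combination (sg k v (A.erase v)) * h1 + (c A) * h2
  · rw [bd_up_of_notMem he0 hA, dpart, if_neg hA]

/-- the complex on `X` has no homology and dimension less than `e` -/
structure AC (k : Type) [Field k] {α : Type} [LinearOrder α] [Fintype α] (H : SimpleGraph α)
    (X : Finset α) (e : ℕ) : Prop where
  ex : ∀ j, Ex k H X j
  dim : ∀ F ∈ cl H X, F.card ≤ e

/-- the complex on `X` has the homology of the sphere of dimension `e - 1` and dimension at most
`e - 1` -/
structure Sph (k : Type) [Field k] {α : Type} [LinearOrder α] [Fintype α] (H : SimpleGraph α)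
    (X : Finset α) (e : ℕ) : Prop where
  ex : ∀ j < e, Ex k H X j
  top : ∃ z : Finset α → k, On H X e z ∧ bd z = 0 ∧ z ≠ 0 ∧
    ∀ z' : Finset α → k, On H X e z' → bd z' = 0 → ∃ a : k, z' = a • z
  dim : ∀ F ∈ cl H X, F.card ≤ e

theorem dim_of_erase {X : Finset α} {u : α} {e e' : ℕ} (h1 : ∀ F ∈ cl H (X.erase u), F.card ≤ e)
    (h2 : ∀ F ∈ cl H (lk H X u), F.card ≤ e') (he : e' + 1 ≤ e) : ∀ F ∈ cl H X, F.card ≤ e := by
  intro F hF
  obtain ⟨h3, h4⟩ := mem_cl.1 hF
  by_cases hu : u ∈ F
  · have h5 : F.erase u ∈ cl H (lk H X u) := mem_cl.2 ⟨fun x hx => by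
      obtain ⟨hxu, hxF⟩ := Finset.mem_erase.1 hx
      exact mem_lk.2 ⟨h3 hxF, h4 u hu x hxF hxu.symm⟩,
      fun x hx y hy hxy => h4 x (Finset.mem_of_mem_erase hx) y (Finset.mem_of_mem_erase hy) hxy⟩
    have h6 := h2 _ h5
    rw [← Finset.card_erase_add_one hu]
    omega
  · exact h1 F (mem_cl.2 ⟨fun x hx => Finset.mem_erase.2 ⟨fun h => hu (h ▸ hx), h3 hx⟩, h4⟩)

theorem AC.of_erase {X : Finset α} {u : α} (hu : u ∈ X) {e e' : ℕ} (h1 : AC k H (X.erase u) e)
    (h2 : AC k H (lk H X u) e') (he : e' + 1 ≤ e) : AC k H X e :=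
  ⟨fun j => Ex_of_erase hu (h1.ex j) (fun i _ => h2.ex i), dim_of_erase h1.dim h2.dim he⟩

theorem lk_cone {X : Finset α} {v : α} (hv : ∀ x ∈ X, H.Adj v x) : lk H (insert v X) v = X := by
  ext x
  rw [mem_lk, Finset.mem_insert]
  constructor
  · rintro ⟨rfl | h, h'⟩
    · exact absurd rfl h'.ne
    · exact h
  · exact fun h => ⟨Or.inr h, hv x h⟩

theorem AC.cone {X : Finset α} {v : α} (hv : ∀ x ∈ X, H.Adj v x) {e : ℕ}
    (hd : ∀ F ∈ cl H X, F.card ≤ e) : AC k H (insert v X) (e + 1) := by
  have hvX : v ∉ X := fun h => (hv v h).ne rfl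
  refine ⟨Ex_cone hv, dim_of_erase (u := v) (e' := e) ?_ ?_ le_rfl⟩
  · rw [Finset.erase_insert hvX]
    exact fun F hF => (hd F hF).trans (Nat.le_succ _)
  · rw [lk_cone hv]; exact hd

theorem AC.weaken {X : Finset α} {e e' : ℕ} (h : AC k H X e) (he : e ≤ e') : AC k H X e' :=
  ⟨h.ex, fun F hF => (h.dim F hF).trans he⟩

theorem Sph.of_erase {X : Finset α} {u : α} (hu : u ∈ X) {e : ℕ} (h1 : AC k H (X.erase u) (e + 1))
    (h2 : Sph k H (lk H X u) e) : Sph k H X (e + 1) := by
  have hdim : ∀ F ∈ cl H X, F.card ≤ e + 1 := dim_of_erase h1.dim h2.dim le_rfl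
  refine ⟨fun j hj => Ex_of_erase hu (h1.ex j) (fun i hi => h2.ex i (by omega)), ?_, hdim⟩
  obtain ⟨z, hz, hz0, hzne, huniq⟩ := h2.top
  have hzu : ∀ A, u ∈ A → z A = 0 := fun A hA => hz.eq_zero not_mem_lk_self hA
  obtain ⟨w, hw, hbw⟩ := h1.ex e z (hz.mono lk_subset_erase) hz0
  have hwu : ∀ A, u ∈ A → w A = 0 := fun A hA => hw.eq_zero (Finset.notMem_erase u X) hA
  set Z : Finset α → k := up u z + (-1 : k) • w with hZ
  have hZon : On H X (e + 1) Z := (up_on hu hz).add ((hw.mono (Finset.erase_subset _ _)).smul _)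
  have hbup : bd (up u z) = z := by
    funext A
    by_cases hA : u ∈ A
    · rw [← Finset.insert_erase hA, bd_up_insert hzu (Finset.notMem_erase u A), hz0,
        Finset.insert_erase hA, hzu A hA]
      simp
    · exact bd_up_of_notMem hzu hA
  have hbZ : bd Z = 0 := by
    rw [hZ, bd_add, bd_smul, hbup, hbw]
    funext A
    simp
  have hlin : ∀ (c : Finset α → k) (a : k), lpart u (c + a • Z) = lpart u c + a • z := by
    intro c a
    funext A
    by_cases hA : u ∈ A
    · simp [lpart, hA, hzu A hA]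
    · have h3 : w (insert u A) = 0 := hwu _ (Finset.mem_insert_self _ _)
      have h4 := sg_mul_self (k := k) u A
      simp only [lpart, if_neg hA, Pi.add_apply, Pi.smul_apply, smul_eq_mul, hZ, h3, up_insert hA]
      linear_combination (a * z A) * h4
  refine ⟨Z, hZon, hbZ, ?_, ?_⟩
  · intro h0
    apply hzne
    have h3 := hlin 0 1
    rw [h0] at h3
    have h4 : lpart u (0 : Finset α → k) = 0 := by funext A; simp [lpart]
    rw [smul_zero, add_zero, h4, zero_add, one_smul] at h3
    exact h3.symm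
  · intro z' hz' hz'0
    obtain ⟨a, ha⟩ := huniq _ (lpart_on hz') (bd_lpart_zero hz'0 u)
    refine ⟨a, ?_⟩
    set z'' : Finset α → k := z' + (-a) • Z with hz''
    have h3 : lpart u z'' = 0 := by
      rw [hz'', hlin, ha]
      funext A
      simp
    have h4 : ∀ A, u ∈ A → z'' A = 0 := fun A hA => lpart_zero_iff h3 hA
    have h5 : On H X (e + 1) z'' := hz'.add (hZon.smul _)
    have h6 : bd z'' = 0 := by rw [hz'', bd_add, bd_smul, hbZ, hz'0, smul_zero, add_zero]
    obtain ⟨b, hb, hbz⟩ := h1.ex _ _ (on_erase h5 h4) h6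
    have hb0 : b = 0 := by
      funext A
      by_contra hne
      obtain ⟨h7, h8⟩ := hb A hne
      have := h1.dim A h7
      omega
    rw [hb0, bd_zero] at hbz
    have h7 : z' + (-a) • Z = 0 := hbz.symm
    rw [neg_smul, ← sub_eq_add_neg, sub_eq_zero] at h7
    exact h7

/-- suspension -/
theorem Sph.susp {X : Finset α} {e : ℕ} (h : Sph k H X e) {b c : α} (hb : ∀ x ∈ X, H.Adj b x)
    (hc : ∀ x ∈ X, H.Adj c x) (hbc : b ≠ c) (hnadj : ¬ H.Adj b c) :
    Sph k H (insert b (insert c X)) (e + 1) := by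
  have hbX : b ∉ X := fun h' => (hb b h').ne rfl
  have hb2 : b ∉ insert c X := by
    rw [Finset.mem_insert]; rintro (h' | h')
    · exact hbc h'
    · exact hbX h'
  refine Sph.of_erase (Finset.mem_insert_self _ _) ?_ ?_
  · rw [Finset.erase_insert hb2]
    exact AC.cone hc h.dim
  · have : lk H (insert b (insert c X)) b = X := by
      ext x
      rw [mem_lk, Finset.mem_insert, Finset.mem_insert]
      constructor
      · rintro ⟨rfl | rfl | h', h''⟩
        · exact absurd rfl h''.ne
        · exact absurd h'' hnadj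
        · exact h'
      · exact fun h' => ⟨Or.inr (Or.inr h'), hb x h'⟩
    rw [this]
    exact h

/-- the adjacency relation of the cycle on `0, …, m - 1` -/
def cadj (m p q : ℕ) : Prop :=
  p + 1 = q ∨ q + 1 = p ∨ (p = 0 ∧ q + 1 = m) ∨ (q = 0 ∧ p + 1 = m)

/-- join with a path -/
theorem AC.path {X : Finset α} {e m : ℕ} (h : ∀ F ∈ cl H X, F.card ≤ e) (hm : 4 ≤ m) {c : ℕ → α}
    (hinj : ∀ p < m, ∀ q < m, c p = c q → p = q)
    (hadj : ∀ p < m, ∀ q < m, (H.Adj (c p) (c q) ↔ cadj m p q))
    (hX : ∀ p < m, ∀ x ∈ X, H.Adj (c p) x) :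
    ∀ p, p + 1 < m → AC k H (X ∪ (Finset.Icc 1 (p + 1)).image c) (e + 2) := by
  intro p
  induction p with
  | zero =>
    intro hp
    have : X ∪ (Finset.Icc 1 (0 + 1)).image c = insert (c 1) X := by
      ext x
      simp only [Finset.mem_union, Finset.mem_image, Finset.mem_Icc, Finset.mem_insert]
      constructor
      · rintro (h' | ⟨q, hq, rfl⟩)
        · exact Or.inr h'
        · left; congr 1; omega
      · rintro (rfl | h')
        · exact Or.inr ⟨1, ⟨le_rfl, le_rfl⟩, rfl⟩
        · exact Or.inl h'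
    rw [this]
    exact (AC.cone (hX 1 (by omega)) h).weaken (by omega)
  | succ p ih =>
    intro hp
    have hu : c (p + 1 + 1) ∈ X ∪ (Finset.Icc 1 (p + 1 + 1)).image c :=
      Finset.mem_union_right _ (Finset.mem_image.2 ⟨_, Finset.mem_Icc.2 ⟨by omega, le_rfl⟩, rfl⟩)
    have huX : c (p + 1 + 1) ∉ X := fun h' => (hX _ hp _ h').ne rfl
    have e1 : (X ∪ (Finset.Icc 1 (p + 1 + 1)).image c).erase (c (p + 1 + 1)) =
        X ∪ (Finset.Icc 1 (p + 1)).image c := by
      ext x
      simp only [Finset.mem_union, Finset.mem_image, Finset.mem_Icc, Finset.mem_erase]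
      constructor
      · rintro ⟨h1, h' | ⟨q, hq, rfl⟩⟩
        · exact Or.inl h'
        · right
          refine ⟨q, ⟨hq.1, ?_⟩, rfl⟩
          by_contra hcon
          exact h1 (by congr 1; omega)
      · rintro (h' | ⟨q, hq, rfl⟩)
        · exact ⟨fun h'' => huX (h'' ▸ h'), Or.inl h'⟩
        · refine ⟨fun h'' => ?_, Or.inr ⟨q, ⟨hq.1, by omega⟩, rfl⟩⟩
          have := hinj _ (by omega) _ hp h''
          omega
    have e2 : lk H (X ∪ (Finset.Icc 1 (p + 1 + 1)).image c) (c (p + 1 + 1)) =
        insert (c (p + 1)) X := by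
      ext x
      simp only [mem_lk, Finset.mem_union, Finset.mem_image, Finset.mem_Icc, Finset.mem_insert]
      constructor
      · rintro ⟨h' | ⟨q, hq, rfl⟩, hq2⟩
        · exact Or.inr h'
        · left
          rw [hadj _ hp q (by omega)] at hq2
          congr 1
          unfold cadj at hq2
          omega
      · rintro (rfl | h')
        · refine ⟨Or.inr ⟨p + 1, ⟨by omega, by omega⟩, rfl⟩, ?_⟩
          rw [hadj _ hp _ (by omega)]
          unfold cadj
          omega
        · exact ⟨Or.inl h', hX _ hp x h'⟩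
    refine AC.of_erase hu (e' := e + 1) ?_ ?_ (by omega)
    · rw [e1]; exact ih (by omega)
    · rw [e2]; exact AC.cone (hX _ (by omega)) h

/-- join with a cycle -/
theorem Sph.cycle {X : Finset α} {e m : ℕ} (h : Sph k H X e) (hm : 4 ≤ m) {c : ℕ → α}
    (hinj : ∀ p < m, ∀ q < m, c p = c q → p = q)
    (hadj : ∀ p < m, ∀ q < m, (H.Adj (c p) (c q) ↔ cadj m p q))
    (hX : ∀ p < m, ∀ x ∈ X, H.Adj (c p) x) :
    Sph k H (X ∪ (Finset.range m).image c) (e + 2) := by
  have hu : c 0 ∈ X ∪ (Finset.range m).image c :=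
    Finset.mem_union_right _ (Finset.mem_image.2 ⟨_, Finset.mem_range.2 (by omega), rfl⟩)
  have huX : c 0 ∉ X := fun h' => (hX 0 (by omega) _ h').ne rfl
  have e1 : (X ∪ (Finset.range m).image c).erase (c 0) =
      X ∪ (Finset.Icc 1 (m - 2 + 1)).image c := by
    ext x
    simp only [Finset.mem_union, Finset.mem_image, Finset.mem_range, Finset.mem_Icc,
      Finset.mem_erase]
    constructor
    · rintro ⟨h1, h' | ⟨q, hq, rfl⟩⟩
      · exact Or.inl h'
      · right
        refine ⟨q, ⟨?_, by omega⟩, rfl⟩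
        by_contra hcon
        exact h1 (by congr 1; omega)
    · rintro (h' | ⟨q, hq, rfl⟩)
      · exact ⟨fun h'' => huX (h'' ▸ h'), Or.inl h'⟩
      · refine ⟨fun h'' => ?_, Or.inr ⟨q, by omega, rfl⟩⟩
        have := hinj _ (by omega) _ (by omega) h''
        omega
  have e2 : lk H (X ∪ (Finset.range m).image c) (c 0) = insert (c 1) (insert (c (m - 1)) X) := by
    ext x
    simp only [mem_lk, Finset.mem_union, Finset.mem_image, Finset.mem_range, Finset.mem_insert]
    constructor
    · rintro ⟨h' | ⟨q, hq, rfl⟩, hq2⟩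
      · exact Or.inr (Or.inr h')
      · rw [hadj _ (by omega) q hq] at hq2
        unfold cadj at hq2
        by_cases hq1 : q = 1
        · left; rw [hq1]
        · right; left; congr 1; omega
    · rintro (rfl | rfl | h')
      · refine ⟨Or.inr ⟨1, by omega, rfl⟩, ?_⟩
        rw [hadj _ (by omega) _ (by omega)]
        unfold cadj
        omega
      · refine ⟨Or.inr ⟨m - 1, by omega, rfl⟩, ?_⟩
        rw [hadj _ (by omega) _ (by omega)]
        unfold cadj
        omega
      · exact ⟨Or.inl h', hX _ (by omega) x h'⟩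
  refine Sph.of_erase (e := e + 1) hu ?_ ?_
  · rw [e1]
    exact AC.path h.dim hm hinj hadj hX _ (by omega)
  · rw [e2]
    refine h.susp (hX _ (by omega)) (hX _ (by omega)) ?_ ?_
    · intro h'
      have := hinj _ (by omega) _ (by omega) h'
      omega
    · rw [hadj _ (by omega) _ (by omega)]
      unfold cadj
      omega

end Pool.Agent.TH208.GJ
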