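import Pool.Agent.TH208.GJ.Join

set_option autoImplicit false
set_option linter.unusedSectionVars false
set_option linter.unusedVariables false

/-!
# The gamma-vector of a join with cycles
-/

namespace Pool.Agent.TH208.GJ

open Pool.Agent.W497.FS Polynomial

/-- from face numbers to the h-polynomial -/
noncomputable def hp (d : ℕ) (P : ℤ[X]) : ℤ[X] :=
  ∑ j ∈ Finset.range (d + 1), C (P.coeff j) * X ^ j * (1 - X) ^ (d - j)

/-- from the gamma-polynomial to the h-polynomial -/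
noncomputable def gp (d : ℕ) (G : ℤ[X]) : ℤ[X] :=
  ∑ i ∈ Finset.range (d / 2 + 1), C (G.coeff i) * X ^ i * (1 + X) ^ (d - 2 * i)

theorem hp_add (d : ℕ) (P Q : ℤ[X]) : hp d (P + Q) = hp d P + hp d Q := by
  simp only [hp, coeff_add, map_add, add_mul, Finset.sum_add_distrib]

theorem hp_C (d : ℕ) (a : ℤ) (P : ℤ[X]) : hp d (C a * P) = C a * hp d P := by
  simp only [hp, coeff_C_mul, map_mul, Finset.mul_sum]
  exact Finset.sum_congr rfl (fun j _ => by ring)

theorem gp_add (d : ℕ) (P Q : ℤ[X]) : gp d (P + Q) = gp d P + gp d Q := by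
  simp only [gp, coeff_add, map_add, add_mul, Finset.sum_add_distrib]

theorem gp_C (d : ℕ) (a : ℤ) (P : ℤ[X]) : gp d (C a * P) = C a * gp d P := by
  simp only [gp, coeff_C_mul, map_mul, Finset.mul_sum]
  exact Finset.sum_congr rfl (fun j _ => by ring)

theorem hp_two {d : ℕ} {P : ℤ[X]} (hP : ∀ j, d < j → P.coeff j = 0) :
    hp (d + 2) P = hp d P * (1 - X) ^ 2 := by
  rw [hp, show d + 2 + 1 = d + 1 + 1 + 1 by ring, Finset.sum_range_succ, Finset.sum_range_succ,
    hP (d + 1) (by omega), hP (d + 1 + 1) (by omega)]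
  simp only [map_zero, zero_mul, add_zero]
  rw [hp, Finset.sum_mul]
  refine Finset.sum_congr rfl (fun j hj => ?_)
  rw [Finset.mem_range] at hj
  rw [show d + 2 - j = d - j + 2 by omega, pow_add]
  ring

theorem hp_X {d : ℕ} {P : ℤ[X]} (hP : ∀ j, d < j → P.coeff j = 0) :
    hp (d + 2) (X * P) = hp d P * (X * (1 - X)) := by
  rw [hp, Finset.sum_range_succ', show d + 2 = d + 1 + 1 by ring, Finset.sum_range_succ]
  simp only [coeff_X_mul, hP (d + 1) (by omega), map_zero, zero_mul, add_zero, mul_coeff_zero,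
    coeff_X_zero]
  rw [hp, Finset.sum_mul]
  refine Finset.sum_congr rfl (fun j hj => ?_)
  rw [Finset.mem_range] at hj
  rw [show d + 1 + 1 - (j + 1) = d - j + 1 by omega, pow_add, pow_succ]
  ring

theorem hp_X2 {d : ℕ} {P : ℤ[X]} : hp (d + 2) (X ^ 2 * P) = hp d P * X ^ 2 := by
  rw [hp, Finset.sum_range_succ', show d + 2 = d + 1 + 1 by ring, Finset.sum_range_succ']
  have h0 : (X ^ 2 * P).coeff 0 = 0 := by simp
  have h1 : (X ^ 2 * P).coeff (0 + 1) = 0 := by
    rw [pow_two, mul_assoc, coeff_X_mul]; simp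
  rw [h0, h1]
  simp only [map_zero, zero_mul, add_zero]
  rw [hp, Finset.sum_mul]
  refine Finset.sum_congr rfl (fun j hj => ?_)
  rw [Finset.mem_range] at hj
  have h2 : (X ^ 2 * P).coeff (j + 1 + 1) = P.coeff j := by
    rw [pow_two, mul_assoc, coeff_X_mul, coeff_X_mul]
  rw [h2, show d + 1 + 1 - (j + 1 + 1) = d - j by omega]
  ring

theorem gp_two {d : ℕ} {G : ℤ[X]} (hG : ∀ i, d / 2 < i → G.coeff i = 0) :
    gp (d + 2) G = gp d G * (1 + X) ^ 2 := by
  rw [gp, show (d + 2) / 2 = d / 2 + 1 by omega, Finset.sum_range_succ, hG (d / 2 + 1) (by omega)]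
  simp only [map_zero, zero_mul, add_zero]
  rw [gp, Finset.sum_mul]
  refine Finset.sum_congr rfl (fun j hj => ?_)
  rw [Finset.mem_range] at hj
  rw [show d + 2 - 2 * j = d - 2 * j + 2 by omega, pow_add]
  ring

theorem gp_X {d : ℕ} {G : ℤ[X]} : gp (d + 2) (X * G) = gp d G * X := by
  rw [gp, show (d + 2) / 2 = d / 2 + 1 by omega, Finset.sum_range_succ']
  simp only [coeff_X_mul, map_zero, zero_mul, add_zero, mul_coeff_zero, coeff_X_zero]
  rw [gp, Finset.sum_mul]
  refine Finset.sum_congr rfl (fun j hj => ?_)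
  rw [Finset.mem_range] at hj
  rw [show d + 2 - 2 * (j + 1) = d - 2 * j by omega, pow_succ]
  ring

/-- the face-counting polynomial -/
noncomputable def fp {n : ℕ} (S : Finset (Finset (Fin n))) : ℤ[X] := ∑ σ ∈ S, X ^ σ.card

theorem fp_coeff {n : ℕ} (S : Finset (Finset (Fin n))) (j : ℕ) :
    (fp S).coeff j = ((S.filter (fun G => G.card = j)).card : ℤ) := by
  rw [fp, finset_sum_coeff, Finset.card_filter]
  push_cast
  refine Finset.sum_congr rfl (fun σ _ => ?_)
  rw [coeff_X_pow]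
  by_cases h : σ.card = j
  · rw [if_pos h, if_pos h.symm]
  · rw [if_neg h, if_neg (Ne.symm h)]

theorem isGamma_iff {n d : ℕ} {S : Finset (Finset (Fin n))} {γ : ℕ → ℤ} {G : ℤ[X]}
    (hG : ∀ i ≤ d / 2, G.coeff i = γ i) : IsGamma d S γ ↔ hp d (fp S) = gp d G := by
  rw [IsGamma, hp, gp]
  have h1 : ∑ j ∈ Finset.range (d + 1), C (((S.filter (fun G => G.card = j)).card : ℕ) : ℤ)
      * X ^ j * (1 - X) ^ (d - j) =
      ∑ j ∈ Finset.range (d + 1), C ((fp S).coeff j) * X ^ j * (1 - X) ^ (d - j) :=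
    Finset.sum_congr rfl (fun j _ => by rw [fp_coeff])
  have h2 : ∑ i ∈ Finset.range (d / 2 + 1), C (γ i) * X ^ i * (1 + X) ^ (d - 2 * i) =
      ∑ i ∈ Finset.range (d / 2 + 1), C (G.coeff i) * X ^ i * (1 + X) ^ (d - 2 * i) :=
    Finset.sum_congr rfl (fun j hj => by
      rw [hG j (by rw [Finset.mem_range] at hj; omega)])
  rw [h1, h2]

/-- `G` is the gamma-polynomial of `S` -/
def IsG {n : ℕ} (d : ℕ) (S : Finset (Finset (Fin n))) (G : ℤ[X]) : Prop :=
  hp d (fp S) = gp d G ∧ ∀ i, d / 2 < i → G.coeff i = 0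

variable {k : Type} [Field k] {n d : ℕ} {S : Finset (Finset (Fin n))}

theorem isG_join (h : IsFlagSphere k d S) {m : ℕ} (hm : 4 ≤ m) {G : ℤ[X]} (hG : IsG d S G) :
    IsG (d + 2) (jT S hm) (G * (1 + C ((m : ℤ) - 4) * X)) := by
  have hP : ∀ j, d < j → (fp S).coeff j = 0 := by
    intro j hj
    rw [fp_coeff]
    have : S.filter (fun G => G.card = j) = ∅ := by
      rw [Finset.filter_eq_empty_iff]
      intro F hF hFc
      have := h.card_le F hF
      omega
    rw [this]; simp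
  constructor
  · have h1 : fp (jT S hm) = fp S * (1 + C (m : ℤ) * X + C (m : ℤ) * X ^ 2) := FP_jT h hm
    have h2 : fp S * (1 + C (m : ℤ) * X + C (m : ℤ) * X ^ 2) =
        fp S + C (m : ℤ) * (X * fp S) + C (m : ℤ) * (X ^ 2 * fp S) := by ring
    have h3 : G * (1 + C ((m : ℤ) - 4) * X) = G + C ((m : ℤ) - 4) * (X * G) := by ring
    rw [h1, h2, h3, hp_add, hp_add, hp_C, hp_C, hp_two hP, hp_X hP, hp_X2, gp_add, gp_C,
      gp_two hG.2, gp_X, hG.1]
    simp only [map_sub, map_natCast]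
    rw [show (C (4 : ℤ) : ℤ[X]) = 4 from rfl]
    ring
  · intro i hi
    obtain ⟨i, rfl⟩ : ∃ i', i = i' + 1 := ⟨i - 1, by omega⟩
    have h3 : G * (1 + C ((m : ℤ) - 4) * X) = G + C ((m : ℤ) - 4) * (X * G) := by ring
    rw [h3, coeff_add, coeff_C_mul, coeff_X_mul, hG.2 _ (by omega), hG.2 _ (by omega)]
    ring

theorem empty_mem' (h : IsFlagSphere k d S) : (∅ : Finset (Fin n)) ∈ S := by
  obtain ⟨r, hr⟩ := h
  exact Pool.Agent.W253.FS.empty_mem hr

theorem numVert_join (h : IsFlagSphere k d S) {m : ℕ} (hm : 4 ≤ m) :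
    numVert (jT S hm) = numVert S + m := by
  have h1 : fp (jT S hm) = fp S * (1 + C (m : ℤ) * X + C (m : ℤ) * X ^ 2) := FP_jT h hm
  have h2 : fp S * (1 + C (m : ℤ) * X + C (m : ℤ) * X ^ 2) =
        fp S + C (m : ℤ) * (X * fp S) + C (m : ℤ) * (X * (X * fp S)) := by ring
  have h3 := congrArg (fun P : ℤ[X] => P.coeff 1) h1
  simp only [h2, coeff_add, coeff_C_mul] at h3
  rw [show (1 : ℕ) = 0 + 1 from rfl, coeff_X_mul, coeff_X_mul] at h3
  have h4 : (fp S).coeff 0 = 1 := by
    rw [fp_coeff]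
    have : S.filter (fun G => G.card = 0) = {∅} := by
      ext F
      rw [Finset.mem_filter, Finset.mem_singleton, Finset.card_eq_zero]
      constructor
      · exact fun h => h.2
      · rintro rfl
        exact ⟨empty_mem' h, rfl⟩
    rw [this]; simp
  rw [h4, mul_coeff_zero, coeff_X_zero, fp_coeff, fp_coeff] at h3
  simp only [zero_add, zero_mul, mul_zero, add_zero, mul_one] at h3
  unfold numVert
  exact_mod_cast h3

/-- the join with `l` cycles of length `M` -/
theorem iterate (h : IsFlagSphere k d S) {G : ℤ[X]} (hG : IsG d S G) {M : ℕ} (hM : 4 ≤ M)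
    (l : ℕ) : ∃ (n' : ℕ) (T : Finset (Finset (Fin n'))), IsFlagSphere k (d + 2 * l) T ∧
      IsG (d + 2 * l) T (G * (1 + C ((M : ℤ) - 4) * X) ^ l) ∧ numVert T = numVert S + l * M := by
  induction l with
  | zero => exact ⟨n, S, by simpa using h, by simpa using hG, by simp⟩
  | succ l ih =>
    obtain ⟨n', T, h1, h2, h3⟩ := ih
    refine ⟨n' + M, jT T hM, ?_, ?_, ?_⟩
    · exact isFlagSphere_join h1 hM
    · have := isG_join h1 hM h2
      rw [mul_assoc, ← pow_succ] at this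
      exact this
    · rw [numVert_join h1 hM, h3]; ring

end Pool.Agent.TH208.GJ
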