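import Pool.Agent.TH208.GJ.Gamma
import Pool.Agent.W497.FS.Acyc

set_option autoImplicit false
set_option linter.unusedSectionVars false
set_option linter.unusedVariables false

/-!
# Gluing two spheres along vertex links
-/

namespace Pool.Agent.TH208.GJ

open Pool.Agent.W497.FS

variable {k : Type} [Field k] {α : Type} [LinearOrder α] [Fintype α] {H : SimpleGraph α}

theorem Mf.hs {X : Finset α} {e : ℕ} (h : Mf k H X e) : HS k H e X := by
  constructor
  · intro κ hκ j hj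
    exact (h κ hκ).2.ex j (by omega)
  · intro κ hκ
    obtain ⟨z, h1, h2, h3, -⟩ := (h κ hκ).2.top
    exact ⟨z, h1, h2, h3⟩

theorem cl_congr' {H H' : SimpleGraph α} {X : Finset α}
    (h : ∀ x ∈ X, ∀ z ∈ X, (H.Adj x z ↔ H'.Adj x z)) : cl H X = cl H' X := by
  ext σ
  rw [mem_cl, mem_cl]
  constructor
  · rintro ⟨h1, h2⟩
    exact ⟨h1, fun x hx z hz hxz => (h x (h1 hx) z (h1 hz)).1 (h2 x hx z hz hxz)⟩
  · rintro ⟨h1, h2⟩
    exact ⟨h1, fun x hx z hz hxz => (h x (h1 hx) z (h1 hz)).2 (h2 x hx z hz hxz)⟩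

theorem Ex_congr {H H' : SimpleGraph α} {X : Finset α} (h : cl H X = cl H' X) {j : ℕ}
    (h1 : Ex k H X j) : Ex k H' X j := by
  intro c hc h0
  obtain ⟨b, hb, hbc⟩ := h1 c (fun A hA => by rw [h]; exact hc A hA) h0
  exact ⟨b, fun A hA => by rw [← h]; exact hb A hA, hbc⟩

theorem Sph_congr {H H' : SimpleGraph α} {X : Finset α} (h : cl H X = cl H' X) {e : ℕ}
    (h1 : Sph k H X e) : Sph k H' X e := by
  refine ⟨fun j hj => Ex_congr h (h1.ex j hj), ?_, fun F hF => h1.dim F (by rw [h]; exact hF)⟩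
  obtain ⟨z, h2, h3, h4, h5⟩ := h1.top
  exact ⟨z, fun A hA => by rw [← h]; exact h2 A hA, h3, h4,
    fun z' hz' hz'0 => h5 z' (fun A hA => by rw [h]; exact hz' A hA) hz'0⟩

theorem Mf_congr {H H' : SimpleGraph α} {X : Finset α}
    (h : ∀ x ∈ X, ∀ z ∈ X, (H.Adj x z ↔ H'.Adj x z)) {e : ℕ} (h1 : Mf k H X e) :
    Mf k H' X e := by
  intro κ hκ
  rw [← cl_congr' h] at hκ
  obtain ⟨h2, h3⟩ := h1 κ hκ
  have h4 : lkF H X κ = lkF H' X κ := by
    ext x
    rw [mem_lkF, mem_lkF]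
    constructor
    · rintro ⟨h5, h6⟩
      exact ⟨h5, fun y hy => (h y ((mem_cl.1 hκ).1 hy) x h5).1 (h6 y hy)⟩
    · rintro ⟨h5, h6⟩
      exact ⟨h5, fun y hy => (h y ((mem_cl.1 hκ).1 hy) x h5).2 (h6 y hy)⟩
  refine ⟨h2, ?_⟩
  rw [← h4]
  refine Sph_congr (cl_congr' ?_) h3
  intro x hx z hz
  exact h x (mem_lkF.1 hx).1 z (mem_lkF.1 hz).1

/-- the part of a chain on the faces in `K` -/
noncomputable def part (H : SimpleGraph α) (K : Finset α) (c : Finset α → k) : Finset α → k :=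
  open scoped Classical in fun A => if A ∈ cl H K then c A else 0

theorem on_glue_left {K₁ K₂ : Finset α} {j : ℕ} {c : Finset α → k} (h : On H K₁ j c) :
    On (glueG H K₁ K₂) (K₁ ∪ K₂) j c := by
  intro A hA
  rw [cl_glue]
  exact ⟨Finset.mem_union_left _ (h A hA).1, (h A hA).2⟩

theorem on_glue_right {K₁ K₂ : Finset α} {j : ℕ} {c : Finset α → k} (h : On H K₂ j c) :
    On (glueG H K₁ K₂) (K₁ ∪ K₂) j c := by
  intro A hA
  rw [cl_glue]
  exact ⟨Finset.mem_union_right _ (h A hA).1, (h A hA).2⟩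

theorem on_inter {K₁ K₂ : Finset α} {j : ℕ} {c : Finset α → k} (h1 : On H K₁ j c)
    (h2 : On H K₂ j c) : On H (K₁ ∩ K₂) j c := by
  intro A hA
  obtain ⟨a, b⟩ := h1 A hA
  obtain ⟨a', b'⟩ := h2 A hA
  exact ⟨mem_cl.2 ⟨Finset.subset_inter (mem_cl.1 a).1 (mem_cl.1 a').1, (mem_cl.1 a).2⟩, b⟩

/-- decomposition of chains of a glued complex -/
theorem split_chain {K₁ K₂ : Finset α} {j : ℕ} {c : Finset α → k}
    (h : On (glueG H K₁ K₂) (K₁ ∪ K₂) j c) : ∃ c₁ c₂ : Finset α → k, On H K₁ j c₁ ∧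
      On H K₂ j c₂ ∧ c = c₁ + c₂ := by
  classical
  refine ⟨part H K₁ c, c + (-1 : k) • part H K₁ c, ?_, ?_, ?_⟩
  · intro A hA
    rw [part] at hA
    split_ifs at hA with h1
    · exact ⟨h1, (h A hA).2⟩
    · exact absurd rfl hA
  · intro A hA
    by_cases h1 : A ∈ cl H K₁
    · exfalso
      apply hA
      simp [part, h1]
    · have h2 : c A ≠ 0 := by
        intro h3
        apply hA
        simp [part, h1, h3]
      obtain ⟨h4, h5⟩ := h A h2
      rw [cl_glue, Finset.mem_union] at h4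
      exact ⟨h4.resolve_left h1, h5⟩
  · funext A
    simp

theorem on_neg {X : Finset α} {j : ℕ} {c : Finset α → k} (h : On H X j c) :
    On H X j (-c) := by
  have := h.smul (-1 : k)
  rwa [neg_one_smul] at this

theorem on_sub {X : Finset α} {j : ℕ} {b c : Finset α → k} (hb : On H X j b) (hc : On H X j c) :
    On H X j (b - c) := by
  rw [sub_eq_add_neg]
  exact hb.add (on_neg hc)

theorem bd_neg (c : Finset α → k) : bd (-c) = -bd c := by
  have := bd_smul (-1 : k) c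
  rwa [neg_one_smul, neg_one_smul] at this

theorem bd_sub (b c : Finset α → k) : bd (b - c) = bd b - bd c := by
  rw [sub_eq_add_neg, bd_add, bd_neg, ← sub_eq_add_neg]

theorem on_top_zero {X : Finset α} {e j : ℕ} (hdim : ∀ F ∈ cl H X, F.card ≤ e) (hj : e < j)
    {b : Finset α → k} (hb : On H X j b) : b = 0 := by
  funext A
  by_contra hne
  obtain ⟨h1, h2⟩ := hb A hne
  have := hdim A h1
  omega

/-- gluing two acyclic complexes along a sphere -/
theorem Sph.glue {K₁ K₂ : Finset α} {e : ℕ} (h1 : AC k H K₁ (e + 1)) (h2 : AC k H K₂ (e + 1))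
    (hL : Sph k H (K₁ ∩ K₂) e) : Sph k (glueG H K₁ K₂) (K₁ ∪ K₂) (e + 1) := by
  refine ⟨fun j hj c hc h0 => ?_, ?_, ?_⟩
  · obtain ⟨c₁, c₂, hc1, hc2, rfl⟩ := split_chain hc
    rw [bd_add] at h0
    have h0' : bd c₂ = -bd c₁ := by rw [eq_neg_iff_add_eq_zero, add_comm]; exact h0
    rcases j with _ | j
    · have hc1' : bd c₁ = 0 := by
        funext A
        rw [bd]
        refine Finset.sum_eq_zero (fun v hv => ?_)
        by_cases h3 : c₁ (insert v A) = 0
        · rw [h3, mul_zero]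
        · have := (hc1 _ h3).2
          rw [Finset.card_eq_zero] at this
          exact absurd this (Finset.insert_ne_empty _ _)
      obtain ⟨b1, hb1, hbc1⟩ := h1.ex 0 c₁ hc1 hc1'
      obtain ⟨b2, hb2, hbc2⟩ := h2.ex 0 c₂ hc2 (by rw [h0', hc1', neg_zero])
      exact ⟨b1 + b2, (on_glue_left hb1).add (on_glue_right hb2), by rw [bd_add, hbc1, hbc2]⟩
    · have he1 : On H K₁ j (bd c₁) := bd_on hc1
      have he2 : On H K₂ j (bd c₁) := by
        have := on_neg (bd_on hc2)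
        rwa [h0', neg_neg] at this
      obtain ⟨f, hf, hbf⟩ := hL.ex j (by omega) _ (on_inter he1 he2) (bd_bd _)
      obtain ⟨b1, hb1, hbc1⟩ := h1.ex (j + 1) (c₁ - f)
        (on_sub hc1 (hf.mono Finset.inter_subset_left)) (by rw [bd_sub, hbf, sub_self])
      obtain ⟨b2, hb2, hbc2⟩ := h2.ex (j + 1) (c₂ + f)
        (hc2.add (hf.mono Finset.inter_subset_right))
        (by rw [bd_add, hbf, h0', neg_add_cancel])
      refine ⟨b1 + b2, (on_glue_left hb1).add (on_glue_right hb2), ?_⟩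
      rw [bd_add, hbc1, hbc2]
      abel
  · obtain ⟨z, hz, hz0, hzne, huniq⟩ := hL.top
    obtain ⟨b1, hb1, hbz1⟩ := h1.ex e z (hz.mono Finset.inter_subset_left) hz0
    obtain ⟨b2, hb2, hbz2⟩ := h2.ex e z (hz.mono Finset.inter_subset_right) hz0
    refine ⟨b1 - b2, on_sub (on_glue_left hb1) (on_glue_right hb2), ?_, ?_, ?_⟩
    · rw [bd_sub, hbz1, hbz2, sub_self]
    · intro h3
      rw [sub_eq_zero] at h3
      have h4 : On H (K₁ ∩ K₂) (e + 1) b1 := on_inter hb1 (by rw [h3]; exact hb2)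
      have h5 := on_top_zero hL.dim (Nat.lt_succ_self e) h4
      rw [h5, bd_zero] at hbz1
      exact hzne hbz1.symm
    · intro z' hz' hz'0
      obtain ⟨c₁, c₂, hc1, hc2, rfl⟩ := split_chain hz'
      rw [bd_add] at hz'0
      have h0' : bd c₂ = -bd c₁ := by rw [eq_neg_iff_add_eq_zero, add_comm]; exact hz'0
      have he1 : On H K₁ e (bd c₁) := bd_on hc1
      have he2 : On H K₂ e (bd c₁) := by
        have := on_neg (bd_on hc2)
        rwa [h0', neg_neg] at this
      obtain ⟨a, ha⟩ := huniq _ (on_inter he1 he2) (bd_bd _)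
      have h6 : c₁ - a • b1 = 0 := by
        obtain ⟨b, hb, hbb⟩ := h1.ex (e + 1) (c₁ - a • b1) (on_sub hc1 (hb1.smul a))
          (by rw [bd_sub, bd_smul, hbz1, ha, sub_self])
        rw [← hbb, on_top_zero h1.dim (Nat.lt_succ_self _) hb, bd_zero]
      have h7 : c₂ + a • b2 = 0 := by
        obtain ⟨b, hb, hbb⟩ := h2.ex (e + 1) (c₂ + a • b2) (hc2.add (hb2.smul a))
          (by rw [bd_add, bd_smul, hbz2, h0', ha, neg_add_cancel])
        rw [← hbb, on_top_zero h2.dim (Nat.lt_succ_self _) hb, bd_zero]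
      refine ⟨a, ?_⟩
      rw [sub_eq_zero] at h6
      rw [add_eq_zero_iff_eq_neg] at h7
      rw [h6, h7, smul_sub, sub_eq_add_neg]
  · intro F hF
    rw [cl_glue, Finset.mem_union] at hF
    rcases hF with hF | hF
    · exact h1.dim F hF
    · exact h2.dim F hF

theorem Mf.erase {X : Finset α} {e : ℕ} (h : Mf k H X e) (hN : NP H e X) {v : α} (hv : v ∈ X) :
    AC k H (X.erase v) e :=
  ⟨fun j => h.hs.erase hN hv j, fun F hF => h.sph.dim F (cl_mono (Finset.erase_subset _ _) hF)⟩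

/-- gluing two spheres along vertex links gives a sphere -/
theorem Mf.glue : ∀ (e : ℕ) {X₁ X₂ : Finset α} {c₁ c₂ : α}, GlueData H X₁ X₂ c₁ c₂ →
    Mf k H X₁ e → Mf k H X₂ e → NP H e X₁ → NP H e X₂ →
    Mf k (glueG H (X₁.erase c₁) (X₂.erase c₂)) (X₁.erase c₁ ∪ X₂.erase c₂) e := by
  intro e
  induction e with
  | zero =>
    intro X₁ X₂ c₁ c₂ h h1 h2 n1 n2
    obtain ⟨e', he⟩ := h1.pos h.mem₁
    omega
  | succ e ih =>
    intro X₁ X₂ c₁ c₂ h h1 h2 n1 n2
    have hS : Sph k (glueG H (X₁.erase c₁) (X₂.erase c₂)) (X₁.erase c₁ ∪ X₂.erase c₂) (e + 1) := by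
      refine Sph.glue (h1.erase n1 h.mem₁) (h2.erase n2 h.mem₂) ?_
      rw [← h.lk₁]
      exact (h1.lk h.mem₁).sph
    refine Mf.of_lk hS (fun u hu => ⟨e, rfl, ?_⟩)
    by_cases hu1 : u ∈ X₁.erase c₁
    · by_cases hu2 : u ∈ X₂.erase c₂
      · obtain ⟨hg, e1, e2⟩ := h.link hu1 hu2
        have := ih hg (h1.lk (Finset.mem_of_mem_erase hu1)) (h2.lk (Finset.mem_of_mem_erase hu2))
          (n1.lk (Finset.mem_of_mem_erase hu1)) (n2.lk (Finset.mem_of_mem_erase hu2))
        rw [e1, e2] at this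
        rw [lk_glue_both hu1 hu2]
        refine Mf_congr (fun x hx z hz => ?_) this
        simp only [glueG_adj, Finset.mem_union, mem_lk] at hx hz ⊢
        tauto
      · rw [lk_glue_one hu1 hu2, h.lk_one hu1 hu2]
        refine Mf_congr (fun x hx z hz => ?_) (h1.lk (Finset.mem_of_mem_erase hu1))
        rw [← h.lk_one hu1 hu2, mem_lk] at hx hz
        rw [glueG_adj]
        tauto
    · have hu2 : u ∈ X₂.erase c₂ := (Finset.mem_union.1 hu).resolve_left hu1
      rw [glueG_comm, Finset.union_comm, lk_glue_one hu2 hu1, h.symm.lk_one hu2 hu1]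
      refine Mf_congr (fun x hx z hz => ?_) (h2.lk (Finset.mem_of_mem_erase hu2))
      rw [← h.symm.lk_one hu2 hu1, mem_lk] at hx hz
      rw [glueG_adj]
      tauto

end Pool.Agent.TH208.GJ
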