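import Pool.Agent.TH208.GJ.Mf
import Pool.Agent.W497.FS.Final
import Pool.Agent.W497.FS.Thms

set_option autoImplicit false
set_option linter.unusedSectionVars false
set_option linter.unusedVariables false

/-!
# The join of a flag homology sphere with a cycle is a flag homology sphere
-/

namespace Pool.Agent.TH208.GJ

open Pool.Agent.W497.FS Pool.Agent.W216.FS.HR

section rank

variable {k : Type} [Field k] {n N : ℕ}

/-- the image of a complex under an embedding of the vertices -/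
def mp (φ : Fin n ↪ Fin N) (L : Finset (Finset (Fin n))) : Finset (Finset (Fin N)) :=
  L.map ⟨Finset.map φ, Finset.map_injective φ⟩

theorem mem_mp {φ : Fin n ↪ Fin N} {L : Finset (Finset (Fin n))} {A : Finset (Fin N)} :
    A ∈ mp φ L ↔ ∃ B ∈ L, B.map φ = A := by
  rw [mp, Finset.mem_map]
  rfl

/-- faces of size `j` -/
noncomputable def eqv (φ : Fin n ↪ Fin N) (L : Finset (Finset (Fin n))) (j : ℕ) :
    {A : Finset (Fin n) // A ∈ L.filter (fun A => A.card = j)} ≃
      {A : Finset (Fin N) // A ∈ (mp φ L).filter (fun A => A.card = j)} :=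
  Equiv.ofBijective (fun A => ⟨A.1.map φ, by
    obtain ⟨h1, h2⟩ := Finset.mem_filter.1 A.2
    exact Finset.mem_filter.2 ⟨mem_mp.2 ⟨_, h1, rfl⟩, by rw [Finset.card_map]; exact h2⟩⟩)
    ⟨fun A B h => by
      have := congrArg Subtype.val h
      exact Subtype.ext (Finset.map_injective φ this),
    fun B => by
      obtain ⟨h1, h2⟩ := Finset.mem_filter.1 B.2
      obtain ⟨A, hA, hAB⟩ := mem_mp.1 h1
      exact ⟨⟨A, Finset.mem_filter.2 ⟨hA, by rw [← hAB, Finset.card_map] at h2; exact h2⟩⟩,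
        Subtype.ext hAB⟩⟩

theorem rank_mp (φ : Fin n ↪ Fin N) (hφ : StrictMono φ) (L : Finset (Finset (Fin n))) (i j : ℕ) :
    (MM k (mp φ L) i j).rank = (MM k L i j).rank := by
  classical
  have h : MM k L i j = (MM k (mp φ L) i j).submatrix (eqv φ L i) (eqv φ L j) := by
    ext A B
    simp only [MM, Matrix.of_apply, Matrix.submatrix_apply]
    have hA : ((eqv φ L i A).1 : Finset (Fin N)) = A.1.map φ := rfl
    have hB : ((eqv φ L j B).1 : Finset (Fin N)) = B.1.map φ := rfl
    rw [hA, hB, Finset.sum_map]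
    refine Finset.sum_congr rfl (fun v hv => ?_)
    have h1 : (B.1.map φ).erase (φ v) = (B.1.erase v).map φ := (Finset.map_erase φ B.1 v).symm
    have h2 : (B.1.map φ).filter (fun w => w < φ v) = (B.1.filter (fun w => w < v)).map φ := by
      rw [Finset.filter_map]
      congr 1
      ext w
      simp only [Finset.mem_filter, Function.comp]
      rw [hφ.lt_iff_lt]
    rw [h1, h2, Finset.card_map]
    by_cases h3 : B.1.erase v = A.1
    · rw [if_pos h3, if_pos (by rw [h3])]
    · rw [if_neg h3, if_neg (fun h4 => h3 (Finset.map_injective φ h4))]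
  rw [h, Matrix.rank_submatrix]

theorem card_mp (φ : Fin n ↪ Fin N) (L : Finset (Finset (Fin n))) (j : ℕ) :
    ((mp φ L).filter (fun A => A.card = j)).card = (L.filter (fun A => A.card = j)).card := by
  have := Fintype.card_congr (eqv φ L j)
  rw [Fintype.card_coe, Fintype.card_coe] at this
  exact this.symm

theorem rankSph_mp (φ : Fin n ↪ Fin N) (hφ : StrictMono φ) {L : Finset (Finset (Fin n))} {e : ℕ}
    (h : RankSph k L e) : RankSph k (mp φ L) e := by
  intro j
  rw [card_mp, rank_mp φ hφ, rank_mp φ hφ]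
  exact h j

end rank

section graph

variable {n m : ℕ} (H : SimpleGraph (Fin n))

/-- the join of `H` with the cycle on `m` vertices -/
def JG (H : SimpleGraph (Fin n)) (m : ℕ) : SimpleGraph (Fin (n + m)) where
  Adj a b := a ≠ b ∧ ((∃ x y : Fin n, H.Adj x y ∧ a = Fin.castAdd m x ∧ b = Fin.castAdd m y) ∨
    (a.val < n ∧ n ≤ b.val) ∨ (n ≤ a.val ∧ b.val < n) ∨
    (n ≤ a.val ∧ n ≤ b.val ∧ cadj m (a.val - n) (b.val - n)))
  symm := ⟨fun a b h => by
    obtain ⟨h0, h1⟩ := h
    refine ⟨h0.symm, ?_⟩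
    rcases h1 with ⟨x, y, h1, h2, h3⟩ | h1 | h1 | ⟨h1, h2, h3⟩
    · exact Or.inl ⟨y, x, h1.symm, h3, h2⟩
    · exact Or.inr (Or.inr (Or.inl ⟨h1.2, h1.1⟩))
    · exact Or.inr (Or.inl ⟨h1.2, h1.1⟩)
    · refine Or.inr (Or.inr (Or.inr ⟨h2, h1, ?_⟩))
      unfold cadj at h3 ⊢
      omega⟩
  loopless := ⟨fun a h => h.1 rfl⟩

/-- the vertices of the cycle -/
def cv (n : ℕ) {m : ℕ} (hm : 4 ≤ m) (p : ℕ) : Fin (n + m) :=
  if h : p < m then ⟨n + p, by omega⟩ else ⟨n, by omega⟩

theorem cv_val {hm : 4 ≤ m} {p : ℕ} (hp : p < m) : (cv n hm p).val = n + p := by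
  rw [cv, dif_pos hp]

theorem cv_inj (hm : 4 ≤ m) : ∀ p < m, ∀ q < m, cv n hm p = cv n hm q → p = q := by
  intro p hp q hq h
  have := congrArg Fin.val h
  rw [cv_val hp, cv_val hq] at this
  omega

theorem adj_cc (hm : 4 ≤ m) : ∀ p < m, ∀ q < m,
    ((JG H m).Adj (cv n hm p) (cv n hm q) ↔ cadj m p q) := by
  intro p hp q hq
  have h1 := cv_val (n := n) (hm := hm) hp
  have h2 := cv_val (n := n) (hm := hm) hq
  change (_ ∧ _) ↔ _
  rw [h1, h2, Nat.add_sub_cancel_left, Nat.add_sub_cancel_left]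
  constructor
  · rintro ⟨-, ⟨x, y, h3, h4, h5⟩ | h3 | h3 | h3⟩
    · exfalso
      have h6 := congrArg Fin.val h4
      rw [h1, Fin.val_castAdd] at h6
      have := x.2
      omega
    · omega
    · omega
    · exact h3.2.2
  · intro h3
    refine ⟨fun h => ?_, Or.inr (Or.inr (Or.inr ⟨by omega, by omega, h3⟩))⟩
    have := cv_inj hm p hp q hq h
    unfold cadj at h3
    omega

theorem adj_cL (hm : 4 ≤ m) {p : ℕ} (hp : p < m) (x : Fin n) :
    (JG H m).Adj (cv n hm p) (Fin.castAdd m x) := by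
  have h1 := cv_val (n := n) (hm := hm) hp
  have h2 := x.2
  refine ⟨fun h => ?_, Or.inr (Or.inr (Or.inl ⟨by omega, ?_⟩))⟩
  · have := congrArg Fin.val h
    rw [h1, Fin.val_castAdd] at this
    omega
  · rw [Fin.val_castAdd]; omega

theorem adj_LL {x y : Fin n} : (JG H m).Adj (Fin.castAdd m x) (Fin.castAdd m y) ↔ H.Adj x y := by
  constructor
  · rintro ⟨-, ⟨x', y', h3, h4, h5⟩ | h3 | h3 | h3⟩
    · rw [Fin.castAdd_injective n m h4, Fin.castAdd_injective n m h5]; exact h3
    · have h1 := h3.2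
      rw [Fin.val_castAdd] at h1
      have := y.2
      omega
    · have h1 := h3.1
      rw [Fin.val_castAdd] at h1
      have := x.2
      omega
    · have h1 := h3.1
      rw [Fin.val_castAdd] at h1
      have := x.2
      omega
  · intro h
    exact ⟨fun h' => h.ne (Fin.castAdd_injective n m h'), Or.inl ⟨x, y, h, rfl, rfl⟩⟩

/-- the embedding of the vertices -/
abbrev eL (n m : ℕ) : Fin n ↪ Fin (n + m) := Fin.castAddEmb m

theorem cl_map {Y : Finset (Fin n)} : cl (JG H m) (Y.map (eL n m)) = mp (eL n m) (cl H Y) := by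
  ext A
  rw [mem_mp, mem_cl]
  constructor
  · rintro ⟨h1, h2⟩
    obtain ⟨B, hB, rfl⟩ := Finset.subset_map_iff.1 h1
    refine ⟨B, mem_cl.2 ⟨hB, fun x hx y hy hxy => ?_⟩, rfl⟩
    exact (adj_LL H).1 (h2 _ (Finset.mem_map_of_mem _ hx) _ (Finset.mem_map_of_mem _ hy)
      (fun h => hxy ((eL n m).injective h)))
  · rintro ⟨B, hB, rfl⟩
    obtain ⟨h1, h2⟩ := mem_cl.1 hB
    refine ⟨Finset.map_subset_map.2 h1, fun x hx y hy hxy => ?_⟩
    obtain ⟨x, hx2, rfl⟩ := Finset.mem_map.1 hx
    obtain ⟨y, hy2, rfl⟩ := Finset.mem_map.1 hy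
    exact (adj_LL H).2 (h2 x hx2 y hy2 (fun h => hxy (by rw [h])))

theorem lkF_map {Y κ : Finset (Fin n)} :
    lkF (JG H m) (Y.map (eL n m)) (κ.map (eL n m)) = (lkF H Y κ).map (eL n m) := by
  ext x
  rw [mem_lkF, Finset.mem_map, Finset.mem_map]
  constructor
  · rintro ⟨⟨y, hy, rfl⟩, h⟩
    exact ⟨y, mem_lkF.2 ⟨hy, fun z hz => (adj_LL H).1 (h _ (Finset.mem_map_of_mem _ hz))⟩, rfl⟩
  · rintro ⟨y, hy, rfl⟩
    obtain ⟨h1, h2⟩ := mem_lkF.1 hy
    refine ⟨⟨y, h1, rfl⟩, fun z hz => ?_⟩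
    obtain ⟨z, hz2, rfl⟩ := Finset.mem_map.1 hz
    exact (adj_LL H).2 (h2 z hz2)

end graph

section sphere

variable {k : Type} [Field k] {n d : ℕ} {S : Finset (Finset (Fin n))}

theorem isFHS_rank (h : IsFlagSphere k d S) {F : Finset (Fin n)} (hF : F ∈ S) :
    F.card ≤ d ∧ RankSph k (cl (skel S) (lkF (skel S) (vert S) F)) (d - F.card) := by
  obtain ⟨r, hr⟩ := h
  have hFd : F.card ≤ d := Pool.Agent.W253.FS.card_le hr F hF
  have hcl : cl (skel S) (vert S) = S := Pool.Agent.W253.FS.cl_eq hr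
  have hL : cl (skel S) (lkF (skel S) (vert S) F) =
      S.filter (fun G => Disjoint G F ∧ G ∪ F ∈ S) := by
    ext A
    rw [cl_lkF (by rw [hcl]; exact hF), Finset.mem_filter, hcl]
  refine ⟨hFd, fun j => ?_⟩
  have e1 := hr.2.2.2 F hF j
  rw [← hL, hr.2.2.1 _ j, hr.2.2.1 _ (j + 1)] at e1
  have e2 : (if j + F.card = d then (1 : ℤ) else 0) = if j = d - F.card then 1 else 0 := by
    by_cases h1 : j + F.card = d
    · rw [if_pos h1, if_pos (by omega)]
    · rw [if_neg h1, if_neg (by omega)]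
  rw [e2] at e1
  exact e1

theorem dim_lkF (h : IsFlagSphere k d S) {F : Finset (Fin n)} (hF : F ∈ S) :
    ∀ G ∈ cl (skel S) (lkF (skel S) (vert S) F), G.card ≤ d - F.card := by
  obtain ⟨r, hr⟩ := h
  intro G hG
  have hcl : cl (skel S) (vert S) = S := Pool.Agent.W253.FS.cl_eq hr
  have h1 := (cl_lkF (H := skel S) (W := vert S) (by rw [hcl]; exact hF) G).1 hG
  have h2 := Pool.Agent.W253.FS.card_le hr (G ∪ F) (by rw [← hcl]; exact h1.2.2)
  rw [Finset.card_union_of_disjoint h1.2.1] at h2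
  omega

theorem mf_left (h : IsFlagSphere k d S) (m : ℕ) :
    Mf k (JG (skel S) m) ((vert S).map (eL n m)) d := by
  intro κ hκ
  rw [cl_map, mem_mp] at hκ
  obtain ⟨F, hF, rfl⟩ := hκ
  rw [h.cl_eq] at hF
  obtain ⟨h1, h2⟩ := isFHS_rank h hF
  rw [Finset.card_map, lkF_map]
  refine ⟨h1, sph_of_rank ?_ ?_⟩
  · intro G hG
    rw [cl_map, mem_mp] at hG
    obtain ⟨B, hB, rfl⟩ := hG
    rw [Finset.card_map]
    exact dim_lkF h hF B hB
  · rw [cl_map]
    exact rankSph_mp _ (Fin.strictMono_castAdd m) h2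

/-- the vertices of the join -/
def jW (S : Finset (Finset (Fin n))) {m : ℕ} (hm : 4 ≤ m) : Finset (Fin (n + m)) :=
  (vert S).map (eL n m) ∪ (Finset.range m).image (cv n hm)

/-- the join -/
noncomputable def jT (S : Finset (Finset (Fin n))) {m : ℕ} (hm : 4 ≤ m) :
    Finset (Finset (Fin (n + m))) := cl (JG (skel S) m) (jW S hm)

theorem mf_join (h : IsFlagSphere k d S) {m : ℕ} (hm : 4 ≤ m) :
    Mf k (JG (skel S) m) (jW S hm) (d + 2) := by
  refine (mf_left h m).cycle _ hm (cv_inj hm) (adj_cc _ hm) ?_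
  intro p hp x hx
  obtain ⟨y, hy, rfl⟩ := Finset.mem_map.1 hx
  exact adj_cL _ hm hp y

theorem isFlagSphere_join (h : IsFlagSphere k d S) {m : ℕ} (hm : 4 ≤ m) :
    IsFlagSphere k (d + 2) (jT S hm) := by
  have hM := mf_join h hm
  refine ⟨fun L j => Matrix.rank (Matrix.of
        (fun (A : {A : Finset (Fin (n + m)) // A ∈ L.filter (fun A => A.card = j - 1)})
             (B : {B : Finset (Fin (n + m)) // B ∈ L.filter (fun B => B.card = j)}) =>
          ∑ v ∈ B.1, if B.1.erase v = A.1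
            then (-1 : k) ^ (B.1.filter (fun w => w < v)).card else 0)), ?_, ?_, ?_, ?_⟩
  · exact fun F hF G hG => cl_down hF hG
  · intro F hF
    refine mem_cl.2 ⟨fun a ha => ?_, fun a ha b hb hab => ?_⟩
    · have h1 := (mem_cl.1 (hF a ha a ha)).1
      exact h1 (by simp)
    · exact (mem_cl.1 (hF a ha b hb)).2 a (by simp) b (by simp) hab
  · intro L j; rfl
  · intro F hF j
    obtain ⟨h1, h2⟩ := hM F hF
    have hL : cl (JG (skel S) m) (lkF (JG (skel S) m) (jW S hm) F) =
        (jT S hm).filter (fun G => Disjoint G F ∧ G ∪ F ∈ jT S hm) := by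
      ext A
      rw [cl_lkF hF, Finset.mem_filter]
      rfl
    have h3 := rank_of_sph h2 j
    rw [hL] at h3
    have e2 : (if j + F.card = d + 2 then (1 : ℤ) else 0) =
        if j = d + 2 - F.card then 1 else 0 := by
      by_cases h1' : j + F.card = d + 2
      · rw [if_pos h1', if_pos (by omega)]
      · rw [if_neg h1', if_neg (by omega)]
    rw [e2]
    exact h3

end sphere

section counts

variable {k : Type} [Field k] {n d : ℕ} {S : Finset (Finset (Fin n))}

open Polynomial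

theorem full_join (S : Finset (Finset (Fin n))) {m : ℕ} (hm : 4 ≤ m) :
    Full (JG (skel S) m) ((vert S).map (eL n m)) ((Finset.range m).image (cv n hm)) := by
  intro a ha b hb
  obtain ⟨x, hx, rfl⟩ := Finset.mem_map.1 ha
  obtain ⟨p, hp, rfl⟩ := Finset.mem_image.1 hb
  exact (adj_cL _ hm (Finset.mem_range.1 hp) x).symm

/-- recursion for the face-counting polynomial -/
theorem FP_erase {α : Type} [LinearOrder α] [Fintype α] {H : SimpleGraph α} {W : Finset α} {u : α}
    (hu : u ∈ W) : FP H W = FP H (W.erase u) + X * FP H (lk H W u) := by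
  rw [FP_eq, FP_eq, FP_eq]
  exact fe_erase hu X

theorem FP_cycle {α : Type} [LinearOrder α] [Fintype α] {H : SimpleGraph α} {m : ℕ} (hm : 4 ≤ m)
    {c : ℕ → α} (hinj : ∀ p < m, ∀ q < m, c p = c q → p = q)
    (hadj : ∀ p < m, ∀ q < m, (H.Adj (c p) (c q) ↔ cadj m p q)) :
    FP H ((Finset.range m).image c) = 1 + C (m : ℤ) * X + C (m : ℤ) * X ^ 2 := by
  have hsing : ∀ v : α, FP H {v} = 1 + X := fun v => by rw [FP_eq]; exact fe_singleton v X
  have hpath : ∀ p, p + 1 < m → FP H ((Finset.Icc 1 (p + 1)).image c) =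
      1 + C ((p : ℤ) + 1) * X + C (p : ℤ) * X ^ 2 := by
    intro p
    induction p with
    | zero =>
      intro hp
      have : (Finset.Icc 1 (0 + 1)).image c = {c 1} := by simp
      rw [this, hsing]
      simp
    | succ p ih =>
      intro hp
      have hu : c (p + 1 + 1) ∈ (Finset.Icc 1 (p + 1 + 1)).image c :=
        Finset.mem_image.2 ⟨_, Finset.mem_Icc.2 ⟨by omega, le_rfl⟩, rfl⟩
      have e1 : ((Finset.Icc 1 (p + 1 + 1)).image c).erase (c (p + 1 + 1)) =
          (Finset.Icc 1 (p + 1)).image c := by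
        ext x
        simp only [Finset.mem_image, Finset.mem_Icc, Finset.mem_erase]
        constructor
        · rintro ⟨h1, ⟨q, hq, rfl⟩⟩
          refine ⟨q, ⟨hq.1, ?_⟩, rfl⟩
          by_contra hcon
          exact h1 (by congr 1; omega)
        · rintro ⟨q, hq, rfl⟩
          refine ⟨fun h'' => ?_, ⟨q, ⟨hq.1, by omega⟩, rfl⟩⟩
          have := hinj _ (by omega) _ hp h''
          omega
      have e2 : lk H ((Finset.Icc 1 (p + 1 + 1)).image c) (c (p + 1 + 1)) = {c (p + 1)} := by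
        ext x
        simp only [mem_lk, Finset.mem_image, Finset.mem_Icc, Finset.mem_singleton]
        constructor
        · rintro ⟨⟨q, hq, rfl⟩, hq2⟩
          rw [hadj _ hp q (by omega)] at hq2
          congr 1
          unfold cadj at hq2
          omega
        · rintro rfl
          refine ⟨⟨p + 1, ⟨by omega, by omega⟩, rfl⟩, ?_⟩
          rw [hadj _ hp _ (by omega)]
          unfold cadj
          omega
      rw [FP_erase hu, e1, e2, ih (by omega), hsing]
      simp only [map_add, map_natCast, map_one, Nat.cast_add, Nat.cast_one]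
      ring
  have hu : c 0 ∈ (Finset.range m).image c :=
    Finset.mem_image.2 ⟨_, Finset.mem_range.2 (by omega), rfl⟩
  have e1 : ((Finset.range m).image c).erase (c 0) = (Finset.Icc 1 (m - 2 + 1)).image c := by
    ext x
    simp only [Finset.mem_image, Finset.mem_range, Finset.mem_Icc, Finset.mem_erase]
    constructor
    · rintro ⟨h1, ⟨q, hq, rfl⟩⟩
      refine ⟨q, ⟨?_, by omega⟩, rfl⟩
      by_contra hcon
      exact h1 (by congr 1; omega)
    · rintro ⟨q, hq, rfl⟩
      refine ⟨fun h'' => ?_, ⟨q, by omega, rfl⟩⟩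
      have := hinj _ (by omega) _ (by omega) h''
      omega
  have e2 : lk H ((Finset.range m).image c) (c 0) = insert (c 1) {c (m - 1)} := by
    have := lk_cycle (H := H) (X := ∅) hm (c := c) hadj (by simp)
    rw [Finset.empty_union] at this
    rw [this]
    rfl
  have hne : c 1 ∉ ({c (m - 1)} : Finset α) := by
    rw [Finset.mem_singleton]
    intro h'
    have := hinj _ (by omega) _ (by omega) h'
    omega
  have e3 : FP H (insert (c 1) {c (m - 1)}) = 1 + 2 * X := by
    rw [FP_erase (Finset.mem_insert_self _ _), Finset.erase_insert hne, hsing]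
    have : lk H (insert (c 1) {c (m - 1)}) (c 1) = ∅ := by
      ext x
      simp only [mem_lk, Finset.mem_insert, Finset.mem_singleton, Finset.notMem_empty, iff_false]
      rintro ⟨rfl | rfl, h'⟩
      · exact h'.ne rfl
      · rw [hadj _ (by omega) _ (by omega)] at h'
        unfold cadj at h'
        omega
    rw [this, FP_empty]
    ring
  rw [FP_erase hu, e1, e2, e3, hpath _ (by omega)]
  obtain ⟨q, rfl⟩ : ∃ q, m = q + 2 := ⟨m - 2, by omega⟩
  rw [show q + 2 - 2 = q by omega]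
  simp only [map_add, map_natCast, map_one, Nat.cast_add, Nat.cast_ofNat]
  rw [show (C (2 : ℤ) : ℤ[X]) = 2 from rfl]
  ring

theorem FP_jT (h : IsFlagSphere k d S) {m : ℕ} (hm : 4 ≤ m) :
    ∑ σ ∈ jT S hm, (X : ℤ[X]) ^ σ.card =
      (∑ σ ∈ S, (X : ℤ[X]) ^ σ.card) * (1 + C (m : ℤ) * X + C (m : ℤ) * X ^ 2) := by
  have h1 : ∑ σ ∈ jT S hm, (X : ℤ[X]) ^ σ.card = FP (JG (skel S) m) (jW S hm) := rfl
  have h2 : FP (JG (skel S) m) ((vert S).map (eL n m)) = ∑ σ ∈ S, (X : ℤ[X]) ^ σ.card := by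
    rw [FP, cl_map, h.cl_eq, mp, Finset.sum_map]
    refine Finset.sum_congr rfl (fun σ _ => ?_)
    simp
  rw [h1, jW, FP_join (full_join S hm), h2, FP_cycle hm (cv_inj hm) (adj_cc _ hm)]

end counts

end Pool.Agent.TH208.GJ
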