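import Pool.Agent.TH208.GJ.Tower

set_option autoImplicit false
set_option linter.unusedSectionVars false
set_option linter.unusedVariables false

/-!
# The amplification argument
-/

namespace Pool.Agent.TH208.GJ

open Pool.Agent.W497.FS Polynomial

variable {k : Type} [Field k] {n d : ℕ} {S : Finset (Finset (Fin n))}

/-! ### Existence of the gamma-polynomial -/

theorem hp_sum {ι : Type} (s : Finset ι) (f : ι → ℤ[X]) (d : ℕ) :
    hp d (∑ i ∈ s, f i) = ∑ i ∈ s, hp d (f i) := by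
  classical
  induction s using Finset.induction_on with
  | empty => simp [hp]
  | insert a s ha ih => rw [Finset.sum_insert ha, Finset.sum_insert ha, hp_add, ih]

theorem gen_deg (i j : ℕ) : ∀ l, 2 * i + j < l → (w ^ i * y ^ j).coeff l = 0 := by
  intro l hl
  apply coeff_eq_zero_of_natDegree_lt
  have hw : (w : ℤ[X]).natDegree ≤ 2 := by
    rw [w]; compute_degree
  have hy : (y : ℤ[X]).natDegree ≤ 1 := by
    rw [y]; compute_degree
  have h1 : (w ^ i : ℤ[X]).natDegree ≤ i * 2 := natDegree_pow_le_of_le i hw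
  have h2 : (y ^ j : ℤ[X]).natDegree ≤ j * 1 := natDegree_pow_le_of_le j hy
  have h3 := natDegree_mul_le (p := (w ^ i : ℤ[X])) (q := y ^ j)
  omega

theorem hp_gen (i j : ℕ) : hp (2 * i + j) (w ^ i * y ^ j) = X ^ i * (1 + X) ^ j := by
  induction i with
  | zero =>
    induction j with
    | zero => simp [hp]
    | succ j ih =>
      have h1 := gen_deg 0 j
      have e1 : w ^ 0 * y ^ (j + 1) = y * (w ^ 0 * y ^ j) := by rw [pow_succ]; ring
      rw [e1, show 2 * 0 + (j + 1) = 2 * 0 + j + 1 by ring, hp_y h1, ih, pow_succ]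
      ring
  | succ i ih =>
    have h1 := gen_deg i j
    have e1 : w ^ (i + 1) * y ^ j = X * (w ^ i * y ^ j) + X ^ 2 * (w ^ i * y ^ j) := by
      rw [pow_succ, w]; ring
    rw [e1, show 2 * (i + 1) + j = 2 * i + j + 2 by ring, hp_add, hp_X h1, hp_X2, ih]
    ring

theorem exists_isG (h : IsFlagSphere k d S) : ∃ G, IsG d S G := by
  obtain ⟨a, ha, -⟩ := GT_coeffs (FP_mem_two h.np h.eul)
  rw [FP, h.cl_eq] at ha
  refine ⟨∑ i ∈ Finset.range (d / 2 + 1), C (a i) * X ^ i, ?_, ?_⟩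
  · rw [fp, ha, hp_sum, gp]
    refine Finset.sum_congr rfl (fun i hi => ?_)
    rw [Finset.mem_range] at hi
    have e1 : (∑ i ∈ Finset.range (d / 2 + 1), C (a i) * X ^ i).coeff i = a i := by
      rw [finsetSum_coeff]
      simp only [coeff_C_mul, coeff_X_pow]
      rw [Finset.sum_eq_single_of_mem i (Finset.mem_range.2 hi)]
      · simp
      · intro b _ hb
        rw [if_neg (Ne.symm hb), mul_zero]
    rw [e1, mul_assoc, hp_C]
    have h2 := hp_gen i (d - 2 * i)
    rw [show 2 * i + (d - 2 * i) = d by omega] at h2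
    rw [h2]; ring
  · intro i hi
    rw [finsetSum_coeff]
    refine Finset.sum_eq_zero (fun j hj => ?_)
    rw [Finset.mem_range] at hj
    rw [coeff_C_mul, coeff_X_pow, if_neg (by omega), mul_zero]

/-- from a gamma-vector to a gamma-polynomial -/
theorem isG_of_isGamma {γ : ℕ → ℤ} (hγ : IsGamma d S γ) :
    ∃ G, IsG d S G ∧ ∀ i ≤ d / 2, G.coeff i = γ i := by
  have e1 : ∀ i ≤ d / 2, (∑ i ∈ Finset.range (d / 2 + 1), C (γ i) * X ^ i).coeff i = γ i := by
    intro i hi
    rw [finsetSum_coeff]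
    simp only [coeff_C_mul, coeff_X_pow]
    rw [Finset.sum_eq_single_of_mem i (Finset.mem_range.2 (by omega))]
    · simp
    · intro b _ hb
      rw [if_neg (Ne.symm hb), mul_zero]
  refine ⟨∑ i ∈ Finset.range (d / 2 + 1), C (γ i) * X ^ i, ⟨(isGamma_iff e1).1 hγ, ?_⟩, e1⟩
  intro i hi
  rw [finsetSum_coeff]
  refine Finset.sum_eq_zero (fun j hj => ?_)
  rw [Finset.mem_range] at hj
  rw [coeff_C_mul, coeff_X_pow, if_neg (by omega), mul_zero]

/-! ### Coefficients -/

theorem coeff_bound (P : ℤ[X]) : ∃ B : ℕ, ∀ j, |P.coeff j| ≤ (B : ℤ) := by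
  refine ⟨∑ j ∈ P.support, (P.coeff j).natAbs, fun j => ?_⟩
  by_cases hj : j ∈ P.support
  · have := Finset.single_le_sum (f := fun j => (P.coeff j).natAbs) (fun _ _ => Nat.zero_le _) hj
    rw [← Int.natCast_natAbs]
    exact_mod_cast this
  · rw [notMem_support_iff.1 hj, abs_zero]
    exact Int.natCast_nonneg _

theorem coeff_mul_one (P : ℤ[X]) (a : ℤ) (j : ℕ) :
    (P * (1 + C a * X)).coeff (j + 1) = P.coeff (j + 1) + a * P.coeff j := by
  have : P * (1 + C a * X) = P + C a * (X * P) := by ring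
  rw [this, coeff_add, coeff_C_mul, coeff_X_mul]

theorem coeff_mul_zero (P : ℤ[X]) (a : ℤ) : (P * (1 + C a * X)).coeff 0 = P.coeff 0 := by
  have : P * (1 + C a * X) = P + C a * (X * P) := by ring
  rw [this, coeff_add, coeff_C_mul, mul_coeff_zero, coeff_X_zero]
  ring

theorem coeff_abs (G : ℤ[X]) {B a : ℤ} (ha : 0 ≤ a) (hB : ∀ j, |G.coeff j| ≤ B) (l : ℕ) :
    ∀ j, |(G * (1 + C a * X) ^ l).coeff j| ≤ (1 + a) ^ l * B := by
  have hB0 : 0 ≤ B := (abs_nonneg _).trans (hB 0)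
  induction l with
  | zero => intro j; simpa using hB j
  | succ l ih =>
    intro j
    have e1 : G * (1 + C a * X) ^ (l + 1) = (G * (1 + C a * X) ^ l) * (1 + C a * X) := by
      rw [pow_succ]; ring
    rw [e1]
    have h0 : 0 ≤ (1 + a) ^ l * B := by positivity
    rcases j with _ | j
    · rw [coeff_mul_zero]
      refine (ih 0).trans ?_
      rw [pow_succ]
      nlinarith
    · rw [coeff_mul_one]
      refine (abs_add_le _ _).trans ?_
      rw [abs_mul, abs_of_nonneg ha]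
      have h1 := ih (j + 1)
      have h2 := mul_le_mul_of_nonneg_left (ih j) ha
      rw [pow_succ]
      nlinarith

theorem coeff_upper (G : ℤ[X]) {B a : ℤ} (ha : 0 ≤ a) (hB : ∀ j, |G.coeff j| ≤ B) (i l : ℕ) :
    (G * (1 + C a * X) ^ l).coeff (i + l) ≤ a ^ l * G.coeff i + ((1 + a) ^ l - a ^ l) * B := by
  induction l with
  | zero => simp
  | succ l ih =>
    have e1 : G * (1 + C a * X) ^ (l + 1) = (G * (1 + C a * X) ^ l) * (1 + C a * X) := by
      rw [pow_succ]; ring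
    rw [e1, ← add_assoc, coeff_mul_one]
    have h1 := (le_abs_self _).trans (coeff_abs G ha hB l (i + l + 1))
    have h2 := mul_le_mul_of_nonneg_left ih ha
    rw [pow_succ, pow_succ]
    nlinarith

theorem pow_diff {M : ℤ} (hM : 1 ≤ M) (l : ℕ) :
    ((1 + M) ^ l - M ^ l) * M ≤ 3 ^ l * M ^ l := by
  induction l with
  | zero => simp
  | succ l ih =>
    have h0 : 0 < M ^ l := by positivity
    have h3 : (1 : ℤ) ≤ 3 ^ l := one_le_pow₀ (by norm_num)
    have e1 : ((1 + M) ^ (l + 1) - M ^ (l + 1)) * M =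
        (1 + M) * (((1 + M) ^ l - M ^ l) * M) + M ^ l * M := by
      rw [pow_succ, pow_succ]; ring
    have h4 : (1 + M) * (((1 + M) ^ l - M ^ l) * M) ≤ (1 + M) * (3 ^ l * M ^ l) :=
      mul_le_mul_of_nonneg_left ih (by omega)
    have h5 : (1 + M) * (3 ^ l * M ^ l) ≤ (2 * M) * (3 ^ l * M ^ l) :=
      mul_le_mul_of_nonneg_right (by omega) (by positivity)
    have h6 : M ^ l * M ≤ 3 ^ l * (M ^ l * M) := by
      nlinarith [mul_pos h0 (by omega : (0 : ℤ) < M)]
    rw [e1, pow_succ, pow_succ]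
    nlinarith

/-! ### The family of spheres -/

section family

variable {ι : Type*} {K : ι → Type} [∀ i, Field (K i)]

/-- the join with `l` cycles of length `M` -/
theorem iterateF (i₀ : ι) (h : ∀ i, IsFlagSphere (K i) d S) {G : ℤ[X]} (hG : IsG d S G) {M : ℕ}
    (hM : 4 ≤ M) (l : ℕ) : ∃ (n' : ℕ) (T : Finset (Finset (Fin n'))),
      (∀ i, IsFlagSphere (K i) (d + 2 * l) T) ∧
      IsG (d + 2 * l) T (G * (1 + C ((M : ℤ) - 4) * X) ^ l) ∧ numVert T = numVert S + l * M := by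
  induction l with
  | zero => exact ⟨n, S, by simpa using h, by simpa using hG, by simp⟩
  | succ l ih =>
    obtain ⟨n', T, h1, h2, h3⟩ := ih
    refine ⟨n' + M, jT T hM, ?_, ?_, ?_⟩
    · intro i; exact isFlagSphere_join (h1 i) hM
    · have := isG_join (h1 i₀) hM h2
      rw [mul_assoc, ← pow_succ] at this
      exact this
    · rw [numVert_join (h1 i₀) hM, h3]; ring

/-- chains of `t` copies -/
theorem chain (i₀ : ι) (h : ∀ i, IsFlagSphere (K i) (d + 1) S) {a b : Fin n} (ha : a ∈ vert S)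
    (hb : b ∈ vert S) (hab : a ≠ b) (hnadj : ¬ (skel S).Adj a b) {GS GA GB : ℤ[X]}
    (hGS : IsG (d + 1) S GS) (hGA : IsG d (cl (skel S) (lk (skel S) (vert S) a)) GA)
    (hGB : IsG d (cl (skel S) (lk (skel S) (vert S) b)) GB) {i : ℕ} (hi : GS.coeff i ≤ -1)
    (hA : 0 ≤ GA.coeff i) (hB : 0 ≤ GB.coeff i) {BS BA BB : ℕ} (hBS : ∀ j, |GS.coeff j| ≤ BS)
    (hBA : ∀ j, |GA.coeff j| ≤ BA) (hBB : ∀ j, |GB.coeff j| ≤ BB) {M : ℕ} :
    ∀ t, t + 1 ≤ M → ∃ G : ℤ[X], (Tow K S (d + 1) M (t + 1) a G ∨ Tow K S (d + 1) M (t + 1) b G) ∧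
      G.coeff i ≤ -((t : ℤ) + 1) ∧ (∀ j, |G.coeff j| ≤ (BS + BA + BB : ℤ) * (t + 1)) ∧
      ∀ j, (d + 1) / 2 < j → G.coeff j = 0 := by
  intro t
  induction t with
  | zero =>
    intro ht
    refine ⟨GS, Or.inl (Tow.base i₀ h ht ha hGS.1), by simpa using hi, fun j => ?_, hGS.2⟩
    have := hBS j
    push_cast
    have h1 : (0 : ℤ) ≤ BA := Int.natCast_nonneg _
    have h2 : (0 : ℤ) ≤ BB := Int.natCast_nonneg _
    linarith
  | succ t ih =>
    intro ht
    obtain ⟨G, hT, h1, h2, h3⟩ := ih (by omega)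
    have hS0 : (0 : ℤ) ≤ BS := Int.natCast_nonneg _
    have hA0 : (0 : ℤ) ≤ BA := Int.natCast_nonneg _
    have hB0 : (0 : ℤ) ≤ BB := Int.natCast_nonneg _
    rcases hT with hT | hT
    · refine ⟨G + GS - GA, Or.inr (Tow.step i₀ h (by omega) ha hb hab hnadj hT hGS.1 hGA),
        ?_, fun j => ?_, fun j hj => ?_⟩
      · rw [coeff_sub, coeff_add]; push_cast; linarith
      · rw [coeff_sub, coeff_add]
        have e1 := abs_sub (G.coeff j + GS.coeff j) (GA.coeff j)
        have e2 := abs_add_le (G.coeff j) (GS.coeff j)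
        have e3 := h2 j
        have e4 := hBS j
        have e5 := hBA j
        push_cast
        push_cast at e3
        linarith
      · rw [coeff_sub, coeff_add, h3 j hj, hGS.2 j hj, hGA.2 j (by omega)]; ring
    · refine ⟨G + GS - GB, Or.inl (Tow.step i₀ h (by omega) hb ha hab.symm
        (fun h' => hnadj h'.symm) hT hGS.1 hGB), ?_, fun j => ?_, fun j hj => ?_⟩
      · rw [coeff_sub, coeff_add]; push_cast; linarith
      · rw [coeff_sub, coeff_add]
        have e1 := abs_sub (G.coeff j + GS.coeff j) (GB.coeff j)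
        have e2 := abs_add_le (G.coeff j) (GS.coeff j)
        have e3 := h2 j
        have e4 := hBS j
        have e5 := hBB j
        push_cast
        push_cast at e3
        linarith
      · rw [coeff_sub, coeff_add, h3 j hj, hGS.2 j hj, hGB.2 j (by omega)]; ring

theorem numVert_le {N : ℕ} (T : Finset (Finset (Fin N))) : numVert T ≤ N := by
  rw [numVert_eq]
  exact (Finset.card_le_univ _).trans (by simp)

/-- **The main argument**: `γ_{i + l} ≥ - o(f₀ ^ (l + 1))` in rank `d + 2 l` implies `γ_i ≥ 0` in rank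
`d`, given this for vertex links. -/
theorem key (i₀ : ι) {i l : ℕ}
    (hB : ∀ ε : ℝ, 0 < ε → ∃ C₀ : ℝ, ∀ (n : ℕ) (T : Finset (Finset (Fin n))) (G : ℤ[X]),
      (∀ j, IsFlagSphere (K j) (d + 2 * l) T) → IsG (d + 2 * l) T G →
        -(ε * (numVert T : ℝ) ^ (l + 1) + C₀) ≤ (G.coeff (i + l) : ℝ))
    (hA : ∀ d', d' + 1 = d → ∀ (n : ℕ) (T : Finset (Finset (Fin n))) (G : ℤ[X]),
      (∀ j, IsFlagSphere (K j) d' T) → IsG d' T G → 0 ≤ G.coeff i)
    (h : ∀ j, IsFlagSphere (K j) d S) {GS : ℤ[X]} (hGS : IsG d S GS) : 0 ≤ GS.coeff i := by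
  by_contra hneg
  have hi : GS.coeff i ≤ -1 := by omega
  rcases d with _ | d
  · -- rank zero: the gamma-polynomial is `1`
    have h1 := hGS.1
    have hS : S = {∅} := by
      ext F
      rw [Finset.mem_singleton]
      constructor
      · intro hF
        have := (h i₀).card_le F hF
        rw [← Finset.card_eq_zero]; omega
      · rintro rfl
        exact empty_mem' (h i₀)
    have h2 : fp S = 1 := by rw [fp, hS]; simp
    rw [h2, hp, gp] at h1
    simp at h1
    have h3 : GS.coeff 0 = 1 := by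
      have := congrArg (fun P : ℤ[X] => P.coeff 0) h1
      simpa using this.symm
    rcases Nat.eq_zero_or_pos i with rfl | hpos
    · omega
    · have := hGS.2 i (by omega)
      omega
  · have h₀ := h i₀
    obtain ⟨a, ha⟩ := h₀.np.nonempty
    obtain ⟨b, hb, hba, hnadj⟩ := h₀.np.exists_nonadj ha
    have hAS : ∀ c ∈ vert S, ∀ j, IsFlagSphere (K j) d (cl (skel S) (lk (skel S) (vert S) c)) :=
      fun c hc j => isFlagSphere_of_mf ((mf_self (h j)).lk hc)
    obtain ⟨GA, hGA⟩ := exists_isG (hAS a ha i₀)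
    obtain ⟨GB, hGB⟩ := exists_isG (hAS b hb i₀)
    have hA0 := hA d rfl _ _ GA (hAS a ha) hGA
    have hB0 := hA d rfl _ _ GB (hAS b hb) hGB
    obtain ⟨BS, hBS⟩ := coeff_bound GS
    obtain ⟨BA, hBA⟩ := coeff_bound GA
    obtain ⟨BB, hBB⟩ := coeff_bound GB
    set Q : ℕ := n + 5 * l + 1 with hQ
    have hQpos : (0 : ℝ) < (Q : ℝ) ^ (l + 1) := by positivity
    obtain ⟨C₀, hC₀⟩ := hB (1 / (2 * (Q : ℝ) ^ (l + 1))) (by positivity)
    set KK : ℝ := (3 : ℝ) ^ l * (BS + BA + BB) with hKK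
    have hKK0 : 0 ≤ KK := by positivity
    obtain ⟨M, hM⟩ := exists_nat_gt (2 * (|C₀| + KK))
    have hM1 : 1 ≤ M := by
      rcases Nat.eq_zero_or_pos M with h0 | h0
      · exfalso
        rw [h0] at hM
        have : 0 ≤ |C₀| := abs_nonneg _
        push_cast at hM
        linarith
      · exact h0
    obtain ⟨G, hT, h1, h2, h3⟩ := chain i₀ h ha hb hba.symm hnadj hGS hGA hGB hi hA0 hB0 hBS hBA
      hBB (M := M) (M - 1) (by omega)
    have hMM : ((M - 1 : ℕ) : ℤ) + 1 = M := by omega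
    rw [hMM] at h1
    simp only [hMM] at h2
    have hT' : ∃ a', Tow K S (d + 1) M (M - 1 + 1) a' G := by
      rcases hT with hT | hT
      · exact ⟨_, hT⟩
      · exact ⟨_, hT⟩
    obtain ⟨a', H, W, τ, hMf, hNP, hG, -⟩ := hT'
    have hfs : ∀ j, IsFlagSphere (K j) (d + 1) (cl H W) := fun j => isFlagSphere_of_mf (hMf j)
    obtain ⟨n', T, hT1, hT2, hT3⟩ := iterateF i₀ hfs (G := G) ⟨hG, h3⟩ (M := M + 4) (by omega) l
    have h4 := hC₀ n' T _ hT1 hT2
    have e1 : ((M + 4 : ℕ) : ℤ) - 4 = M := by push_cast; ring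
    rw [e1] at h4
    -- the upper bound
    have hMz : (1 : ℤ) ≤ M := by exact_mod_cast hM1
    have h5 := coeff_upper G (a := (M : ℤ)) (by omega) h2 i l
    have h6 : (M : ℤ) ^ l * G.coeff i ≤ -((M : ℤ) ^ (l + 1)) := by
      have := mul_le_mul_of_nonneg_left h1 (show (0 : ℤ) ≤ (M : ℤ) ^ l by positivity)
      rw [pow_succ]
      linarith
    have h7 := pow_diff hMz l
    have h8 : ((1 + (M : ℤ)) ^ l - (M : ℤ) ^ l) * ((BS + BA + BB : ℤ) * M) ≤
        (3 : ℤ) ^ l * (BS + BA + BB) * (M : ℤ) ^ l := by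
      have := mul_le_mul_of_nonneg_left h7 (show (0 : ℤ) ≤ (BS + BA + BB : ℤ) by positivity)
      linarith
    have h9 : (G * (1 + C (M : ℤ) * X) ^ l).coeff (i + l) ≤
        -((M : ℤ) ^ (l + 1)) + (3 : ℤ) ^ l * (BS + BA + BB) * (M : ℤ) ^ l := by linarith
    have h10 : (((G * (1 + C (M : ℤ) * X) ^ l).coeff (i + l) : ℤ) : ℝ) ≤
        -((M : ℝ) ^ (l + 1)) + KK * (M : ℝ) ^ l := by
      rw [hKK]
      exact_mod_cast h9
    -- the number of vertices
    have h11 : numVert T ≤ Q * M := by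
      have h12 := numVert_le (cl H W)
      rw [hT3, hQ]
      nlinarith
    have h12 : ((numVert T : ℕ) : ℝ) ^ (l + 1) ≤ (Q : ℝ) ^ (l + 1) * (M : ℝ) ^ (l + 1) := by
      rw [← mul_pow]
      exact pow_le_pow_left₀ (Nat.cast_nonneg _) (by exact_mod_cast h11) _
    have h13 : 1 / (2 * (Q : ℝ) ^ (l + 1)) * ((numVert T : ℕ) : ℝ) ^ (l + 1) ≤
        (M : ℝ) ^ (l + 1) / 2 := by
      rw [div_mul_eq_mul_div, one_mul, div_le_div_iff₀ (by positivity) (by norm_num)]
      linarith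
    have h14 : (M : ℝ) ^ (l + 1) / 2 ≤ C₀ + KK * (M : ℝ) ^ l := by linarith
    have hMr : (1 : ℝ) ≤ M := by exact_mod_cast hM1
    have h15 : (1 : ℝ) ≤ (M : ℝ) ^ l := one_le_pow₀ hMr
    have h16 : C₀ ≤ |C₀| * (M : ℝ) ^ l := by
      have := le_abs_self C₀
      nlinarith [abs_nonneg C₀]
    have h17 : (M : ℝ) ^ l * (M / 2) ≤ (M : ℝ) ^ l * (|C₀| + KK) := by
      have : (M : ℝ) ^ (l + 1) = (M : ℝ) ^ l * M := pow_succ _ _
      rw [this] at h14
      linarith
    have h18 := le_of_mul_le_mul_left h17 (by positivity)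
    linarith

end family

end Pool.Agent.TH208.GJ
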