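import Pool.Agent.TH208.GJ.Avg

set_option autoImplicit false
set_option linter.unusedSectionVars false
set_option linter.unusedVariables false

/-!
# Links in glued complexes
-/

namespace Pool.Agent.TH208.GJ

open Pool.Agent.W497.FS Polynomial

section

variable {α : Type} [LinearOrder α] [Fintype α] {H : SimpleGraph α}

/-- the link of a face, as a complex -/
def lnk {N : ℕ} (T : Finset (Finset (Fin N))) (κ : Finset (Fin N)) : Finset (Finset (Fin N)) :=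
  T.filter (fun G => Disjoint G κ ∧ G ∪ κ ∈ T)

theorem FP_sup {W κ : Finset α} (hκ : κ ∈ cl H W) :
    ∑ σ ∈ (cl H W).filter (fun σ => κ ⊆ σ), (X : ℤ[X]) ^ σ.card =
      X ^ κ.card * FP H (lkF H W κ) := by
  rw [sum_sup hκ (fun n => (X : ℤ[X]) ^ n), FP, Finset.mul_sum]
  refine Finset.sum_congr rfl (fun σ _ => ?_)
  rw [pow_add]; ring

theorem cl_inter_cl {K₁ K₂ : Finset α} : cl H K₁ ∩ cl H K₂ = cl H (K₁ ∩ K₂) := by
  ext σ
  rw [Finset.mem_inter, mem_cl, mem_cl, mem_cl]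
  constructor
  · rintro ⟨⟨h1, h2⟩, h3, -⟩
    exact ⟨Finset.subset_inter h1 h3, h2⟩
  · rintro ⟨h1, h2⟩
    exact ⟨⟨h1.trans Finset.inter_subset_left, h2⟩, h1.trans Finset.inter_subset_right, h2⟩

theorem FP_lkF_erase {X₁ κ : Finset α} {c : α} (hc : c ∈ X₁) (hκ : κ ⊆ lk H X₁ c) :
    FP H (lkF H X₁ κ) = FP H (lkF H (X₁.erase c) κ) + X * FP H (lkF H (lk H X₁ c) κ) := by
  have hcκ : c ∈ lkF H X₁ κ := mem_lkF.2 ⟨hc, fun z hz => (mem_lk.1 (hκ hz)).2.symm⟩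
  have h1 := fe_erase (H := H) hcκ (X : ℤ[X])
  have e1 : (lkF H X₁ κ).erase c = lkF H (X₁.erase c) κ := by
    ext z
    simp only [Finset.mem_erase, mem_lkF]
    tauto
  have e2 : lk H (lkF H X₁ κ) c = lkF H (lk H X₁ c) κ := by
    ext z
    simp only [mem_lk, mem_lkF]
    tauto
  rw [e1, e2] at h1
  exact h1

/-- the face polynomial of a link in a glued complex -/
theorem FP_glue_lkF {X₁ X₂ κ : Finset α} {c₁ c₂ : α} (h : GlueData H X₁ X₂ c₁ c₂)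
    (hκ : κ ∈ cl H (lk H X₁ c₁)) :
    FP (glueG H (X₁.erase c₁) (X₂.erase c₂))
        (lkF (glueG H (X₁.erase c₁) (X₂.erase c₂)) (X₁.erase c₁ ∪ X₂.erase c₂) κ) =
      FP H (lkF H X₁ κ) + FP H (lkF H X₂ κ) - y * FP H (lkF H (lk H X₁ c₁) κ) := by
  have hκ' := mem_cl.1 hκ
  have hL2 : lk H X₂ c₂ = lk H X₁ c₁ := by rw [h.lk₁, h.lk₂]
  have h1 := FP_lkF_erase (H := H) h.mem₁ hκ'.1
  have h2 := FP_lkF_erase (H := H) h.mem₂ (κ := κ) (by rw [hL2]; exact hκ'.1)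
  rw [hL2] at h2
  set K₁ := X₁.erase c₁ with hK₁
  set K₂ := X₂.erase c₂ with hK₂
  have hκL : κ ⊆ K₁ ∩ K₂ := by rw [← h.lk₁]; exact hκ'.1
  have m1 : κ ∈ cl H K₁ := mem_cl.2 ⟨hκL.trans Finset.inter_subset_left, hκ'.2⟩
  have m2 : κ ∈ cl H K₂ := mem_cl.2 ⟨hκL.trans Finset.inter_subset_right, hκ'.2⟩
  have m3 : κ ∈ cl (glueG H K₁ K₂) (K₁ ∪ K₂) := by
    rw [cl_glue]; exact Finset.mem_union_left _ m1
  have m4 : κ ∈ cl H (K₁ ∩ K₂) := mem_cl.2 ⟨hκL, hκ'.2⟩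
  have s3 := FP_sup m3
  have s1 := FP_sup m1
  have s2 := FP_sup m2
  have s4 := FP_sup m4
  have hu := Finset.sum_union_inter (s₁ := (cl H K₁).filter (fun σ => κ ⊆ σ))
    (s₂ := (cl H K₂).filter (fun σ => κ ⊆ σ)) (f := fun σ => (X : ℤ[X]) ^ σ.card)
  rw [← Finset.filter_union, ← Finset.filter_inter_distrib, ← cl_glue, cl_inter_cl, s3, s1, s2,
    s4, ← mul_add, ← mul_add] at hu
  have hX : (X : ℤ[X]) ^ κ.card ≠ 0 := pow_ne_zero _ X_ne_zero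
  have hu' := mul_left_cancel₀ hX hu
  rw [← h.lk₁] at hu'
  rw [h1, h2, y]
  linear_combination hu'

end

theorem lnk_cl {N : ℕ} {H : SimpleGraph (Fin N)} {W κ : Finset (Fin N)} (hκ : κ ∈ cl H W) :
    lnk (cl H W) κ = cl H (lkF H W κ) := by
  ext A
  rw [Pool.Agent.W216.FS.HR.cl_lkF hκ, lnk, Finset.mem_filter]

theorem fp_cl {N : ℕ} {H : SimpleGraph (Fin N)} {W : Finset (Fin N)} :
    fp (cl H W) = FP H W := rfl

end Pool.Agent.TH208.GJ
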