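import Pool.Agent.TH208.GJ.TowL

set_option autoImplicit false
set_option linter.unusedSectionVars false
set_option linter.unusedVariables false

/-!
# Nonnegativity of the alternating sums over marked vertices
-/

namespace Pool.Agent.TH208.GJ

open Pool.Agent.W497.FS Polynomial

variable {ι : Type*} {K : ι → Type} [∀ i, Field (K i)] {n d : ℕ} {S : Finset (Finset (Fin n))}

/-- the alternating sum -/
def Fun (S : Finset (Finset (Fin n))) (σ : Finset (Fin n)) (g : Finset (Fin n) → ℤ[X]) (i : ℕ) :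
    ℤ :=
  ∑ τ ∈ σ.powerset, if τ ∈ S then (-1) ^ τ.card * 2 ^ (σ.card - τ.card) * (g τ).coeff i else 0

/-- every vertex of `σ` is joined to all other vertices of `σ` except at most one -/
def Cond (S : Finset (Finset (Fin n))) (σ : Finset (Fin n)) : Prop :=
  ∀ x ∈ σ, ∀ z ∈ σ, ∀ w ∈ σ, x ≠ z → x ≠ w → ({x, z} : Finset (Fin n)) ∉ S →
    ({x, w} : Finset (Fin n)) ∉ S → z = w

/-- the statement for `m` marked vertices -/
def Stm (K : ι → Type) [∀ i, Field (K i)] (d i m : ℕ) : Prop :=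
  ∀ (n : ℕ) (S : Finset (Finset (Fin n))) (σ : Finset (Fin n)) (g : Finset (Fin n) → ℤ[X]),
    σ.card = m → (∀ j, IsFlagSphere (K j) (d + 1) S) → σ ⊆ vert S → Cond S σ →
    (∀ κ ∈ S, κ ⊆ σ → IsG (d + 1 - κ.card) (lnk S κ) (g κ)) → 0 ≤ Fun S σ g i

theorem pair_mem_cl {N : ℕ} {H : SimpleGraph (Fin N)} {W : Finset (Fin N)} {p q : Fin N}
    (hpq : p ≠ q) : ({p, q} : Finset (Fin N)) ∈ cl H W ↔ p ∈ W ∧ q ∈ W ∧ H.Adj p q := by
  rw [mem_cl]
  constructor
  · rintro ⟨h1, h2⟩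
    exact ⟨h1 (by simp), h1 (by simp), h2 p (by simp) q (by simp) hpq⟩
  · rintro ⟨h1, h2, h3⟩
    refine ⟨Finset.insert_subset h1 (Finset.singleton_subset_iff.2 h2), fun x hx z hz hxz => ?_⟩
    simp only [Finset.mem_insert, Finset.mem_singleton] at hx hz
    rcases hx with rfl | rfl <;> rcases hz with rfl | rfl
    · exact absurd rfl hxz
    · exact h3
    · exact h3.symm
    · exact absurd rfl hxz

theorem lnk_self {k : Type} [Field k] (h : IsFlagSphere k d S) {κ : Finset (Fin n)} (hκ : κ ∈ S) :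
    lnk S κ = cl (skel S) (lkF (skel S) (vert S) κ) := by
  have h1 := lnk_cl ((mem_cl_self h).1 hκ)
  rw [h.cl_eq] at h1
  exact h1

theorem TowL.apply (i₀ : ι) (hK : ∀ j, IsFlagSphere (K j) (d + 1) S) {i : ℕ}
    {σ : Finset (Fin n)} (hS : Stm K d i σ.card) (hσ : σ ⊆ vert S) (hc : Cond S σ) {M t : ℕ}
    {b : Fin n} {G : Finset (Fin n) → ℤ[X]} (hT : TowL K S (d + 1) M t b σ G)
    (hv : ∀ κ ∈ S, κ ⊆ σ → ∀ j, (d + 1 - κ.card) / 2 < j → (G κ).coeff j = 0) :
    0 ≤ Fun S σ G i := by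
  classical
  have h := hK i₀
  obtain ⟨H, W, τ, ⟨hMf, hNP, hG, hσW, hadj⟩, -⟩ := hT
  have hclS : ∀ κ ⊆ σ, (κ.map (em τ) ∈ cl H W ↔ κ ∈ S) := by
    intro κ hκ
    rw [mem_cl_self h, mem_cl, mem_cl]
    constructor
    · rintro ⟨h1, h2⟩
      refine ⟨hκ.trans hσ, fun x hx z hz hxz => ?_⟩
      exact (hadj x (hκ hx) z (hκ hz)).1 (h2 _ (Finset.mem_map_of_mem _ hx) _
        (Finset.mem_map_of_mem _ hz) (fun h => hxz ((em τ).injective h)))
    · rintro ⟨h1, h2⟩
      refine ⟨fun p hp => ?_, fun p hp q hq hpq => ?_⟩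
      · obtain ⟨x, hx, rfl⟩ := Finset.mem_map.1 hp
        exact hσW x (hκ hx)
      · obtain ⟨x, hx, rfl⟩ := Finset.mem_map.1 hp
        obtain ⟨z, hz, rfl⟩ := Finset.mem_map.1 hq
        exact (hadj x (hκ hx) z (hκ hz)).2 (h2 x hx z hz (fun h => hpq (by rw [h])))
  have hpre : ∀ κ : Finset (Fin n),
      Finset.univ.filter (fun x => em τ x ∈ κ.map (em τ)) = κ := by
    intro κ
    ext x
    simp
  have hpairs : ∀ x ∈ σ, ∀ z ∈ σ, x ≠ z →
      (({em τ x, em τ z} : Finset (Fin (n * M))) ∈ cl H W ↔ ({x, z} : Finset (Fin n)) ∈ S) := by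
    intro x hx z hz hxz
    have h1 := hclS {x, z} (Finset.insert_subset hx (Finset.singleton_subset_iff.2 hz))
    rw [Finset.map_insert, Finset.map_singleton] at h1
    exact h1
  have key := hS (n * M) (cl H W) (σ.map (em τ))
    (fun κ => G (Finset.univ.filter (fun x => em τ x ∈ κ))) (Finset.card_map _)
    (fun j => isFlagSphere_of_mf (hMf j)) ?_ ?_ ?_
  · rw [Fun] at key ⊢
    refine key.trans_eq (Eq.symm ?_)
    refine Finset.sum_bij (fun κ _ => κ.map (em τ)) ?_ ?_ ?_ ?_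
    · intro κ hκ
      exact Finset.mem_powerset.2 (Finset.map_subset_map.2 (Finset.mem_powerset.1 hκ))
    · intro κ _ κ' _ h1
      exact Finset.map_injective _ h1
    · intro κ' hκ'
      obtain ⟨κ, hκ, rfl⟩ := Finset.subset_map_iff.1 (Finset.mem_powerset.1 hκ')
      exact ⟨κ, Finset.mem_powerset.2 hκ, rfl⟩
    · intro κ hκ
      have h1 := hclS κ (Finset.mem_powerset.1 hκ)
      simp only [h1, hpre, Finset.card_map]
  · intro p hp
    obtain ⟨x, hx, rfl⟩ := Finset.mem_map.1 hp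
    rw [mem_vert]
    exact singleton_mem_cl (hσW x hx)
  · intro p hp q hq r hr hpq hpr h1 h2
    obtain ⟨x, hx, rfl⟩ := Finset.mem_map.1 hp
    obtain ⟨z, hz, rfl⟩ := Finset.mem_map.1 hq
    obtain ⟨w, hw, rfl⟩ := Finset.mem_map.1 hr
    have hxz : x ≠ z := fun h => hpq (by rw [h])
    have hxw : x ≠ w := fun h => hpr (by rw [h])
    rw [hpairs x hx z hz hxz] at h1
    rw [hpairs x hx w hw hxw] at h2
    rw [hc x hx z hz w hw hxz hxw h1 h2]
  · intro κ' hκ' hκσ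
    obtain ⟨κ, hκ, rfl⟩ := Finset.subset_map_iff.1 hκσ
    have h1 := (hclS κ hκ).1 hκ'
    simp only [hpre, Finset.card_map]
    rw [lnk_cl hκ']
    exact ⟨hG κ h1 hκ, hv κ h1 hκ⟩

end Pool.Agent.TH208.GJ
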