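import Pool.Agent.TH208.GJ.Marks

set_option autoImplicit false
set_option linter.unusedSectionVars false
set_option linter.unusedVariables false

/-!
# Nonnegativity of the alternating sums over marked vertices: the induction
-/

namespace Pool.Agent.TH208.GJ

open Pool.Agent.W497.FS Polynomial

variable {ι : Type*} {K : ι → Type} [∀ i, Field (K i)] {n d : ℕ} {S : Finset (Finset (Fin n))}

theorem mem_down {k : Type} [Field k] (h : IsFlagSphere k d S) {F G : Finset (Fin n)} (hF : F ∈ S)
    (hG : G ⊆ F) : G ∈ S := by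
  rw [mem_cl_self h] at hF ⊢
  exact cl_of_subset hF hG

theorem insert_mem {k : Type} [Field k] (h : IsFlagSphere k d S) {a : Fin n} (ha : a ∈ vert S)
    {κ : Finset (Fin n)} (hκ : κ ∈ S) (hκA : κ ⊆ lk (skel S) (vert S) a) : insert a κ ∈ S := by
  rw [mem_cl_self h, mem_cl] at hκ ⊢
  refine ⟨Finset.insert_subset ha hκ.1, fun x hx z hz hxz => ?_⟩
  rcases Finset.mem_insert.1 hx with hxa | hx1
  · rcases Finset.mem_insert.1 hz with hza | hz1
    · exact absurd (hxa.trans hza.symm) hxz
    · rw [hxa]; exact (mem_lk.1 (hκA hz1)).2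
  · rcases Finset.mem_insert.1 hz with hza | hz1
    · rw [hza]; exact (mem_lk.1 (hκA hx1)).2.symm
    · exact hκ.2 x hx1 z hz1 hxz

theorem chainL (i₀ : ι) (h : ∀ i, IsFlagSphere (K i) (d + 1) S) {a b : Fin n}
    (ha : a ∈ vert S) (hb : b ∈ vert S) (hab : a ≠ b) (hnadj : ¬ (skel S).Adj a b)
    {σ : Finset (Fin n)} (hσa : σ ⊆ lk (skel S) (vert S) a) (hσb : σ ⊆ lk (skel S) (vert S) b)
    {g : Finset (Fin n) → ℤ[X]}
    (hg : ∀ κ ∈ S, κ ⊆ insert a (insert b σ) →
      IsG (d + 1 - κ.card) (cl (skel S) (lkF (skel S) (vert S) κ)) (g κ)) {M : ℕ} :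
    ∀ s, 2 * s + 1 ≤ M → TowL K S (d + 1) M (2 * s + 1) a σ
      (fun κ => g κ + C (s : ℤ) * (g κ + g κ - g (insert a κ) - g (insert b κ))) := by
  intro s
  induction s with
  | zero =>
    intro hM
    have := TowL.base i₀ h (M := M) (by omega) ha (hσa.trans lk_subset) (g := g)
      (fun κ hκ hκσ => hg κ hκ (hκσ.trans ((Finset.subset_insert _ _).trans
        (Finset.subset_insert _ _))))
    simpa using this
  | succ s ih =>
    intro hM
    have h1 := TowL.step i₀ h (t := 2 * s + 1) (by omega) ha hb hab hnadj hσa (ih (by omega))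
      (g := g) (fun κ hκ hκσ => hg κ hκ (hκσ.trans
        (Finset.insert_subset_insert _ (Finset.subset_insert _ _))))
    have h2 := TowL.step i₀ h (t := 2 * s + 1 + 1) (by omega) hb ha hab.symm
      (fun h' => hnadj h'.symm) hσb h1
      (g := g) (fun κ hκ hκσ => hg κ hκ (hκσ.trans (Finset.subset_insert _ _)))
    have e : (fun κ => g κ + C (((s + 1 : ℕ) : ℤ)) *
        (g κ + g κ - g (insert a κ) - g (insert b κ))) =
        fun κ => ((g κ + C (s : ℤ) * (g κ + g κ - g (insert a κ) - g (insert b κ))) + g κ -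
          g (insert a κ)) + g κ - g (insert b κ) := by
      funext κ
      rw [Nat.cast_succ, map_add, map_one]; ring
    rw [show 2 * (s + 1) + 1 = 2 * s + 1 + 1 + 1 by ring, e]
    exact h2

theorem main_ineq (i₀ : ι) {i : ℕ}
    (hP : ∀ (N : ℕ) (T : Finset (Finset (Fin N))) (G : ℤ[X]),
      (∀ j, IsFlagSphere (K j) (d + 1) T) → IsG (d + 1) T G → 0 ≤ G.coeff i) :
    ∀ m, Stm K d i m := by
  classical
  intro m
  induction m using Nat.strong_induction_on with
  | _ m ih =>
    intro n S σ g hm hK hσ hc hg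
    have h := hK i₀
    have hg' : ∀ κ ∈ S, κ ⊆ σ →
        IsG (d + 1 - κ.card) (cl (skel S) (lkF (skel S) (vert S) κ)) (g κ) :=
      fun κ hκ hκσ => by rw [← lnk_self h hκ]; exact hg κ hκ hκσ
    rcases σ.eq_empty_or_nonempty with rfl | hne
    · have h0 := hg' ∅ (empty_mem' h) (Finset.Subset.refl _)
      rw [Finset.card_empty, lkF_empty', h.cl_eq, Nat.sub_zero] at h0
      have := hP n S (g ∅) hK h0
      simpa [Fun, empty_mem' h] using this
    by_cases hex : ∃ a ∈ σ, ∃ b ∈ σ, a ≠ b ∧ ({a, b} : Finset (Fin n)) ∉ S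
    · obtain ⟨a, ha, b, hb, hab, hnS⟩ := hex
      have hnadj : ¬ (skel S).Adj a b := fun h1 => hnS h1.2
      set σ' := (σ.erase a).erase b with hσ'
      have hmem : ∀ x ∈ σ', x ≠ b ∧ x ≠ a ∧ x ∈ σ := by
        intro x hx
        rw [hσ', Finset.mem_erase, Finset.mem_erase] at hx
        exact hx
      have hσa : σ' ⊆ lk (skel S) (vert S) a := by
        intro x hx
        obtain ⟨h1, h2, h3⟩ := hmem x hx
        rw [mem_lk]
        refine ⟨hσ h3, ?_⟩
        by_contra h4
        exact h1 (hc a ha x h3 b hb h2.symm hab (fun h5 => h4 ⟨h2.symm, h5⟩) hnS)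
      have hσb : σ' ⊆ lk (skel S) (vert S) b := by
        intro x hx
        obtain ⟨h1, h2, h3⟩ := hmem x hx
        rw [mem_lk]
        refine ⟨hσ h3, ?_⟩
        by_contra h4
        exact h2 (hc b hb x h3 a ha h1.symm hab.symm (fun h5 => h4 ⟨h1.symm, h5⟩)
          (by rw [Finset.pair_comm]; exact hnS))
      have hbσ' : b ∉ σ' := fun h1 => (hmem b h1).1 rfl
      have haσ' : a ∉ insert b σ' := by
        rw [Finset.mem_insert, not_or]
        exact ⟨hab, fun h1 => (hmem a h1).2.1 rfl⟩
      have hσeq : insert a (insert b σ') = σ := by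
        rw [hσ', Finset.insert_erase (Finset.mem_erase.2 ⟨hab.symm, hb⟩),
          Finset.insert_erase ha]
      have hcard : σ.card = σ'.card + 2 := by
        rw [← hσeq, Finset.card_insert_of_notMem haσ', Finset.card_insert_of_notMem hbσ']
      have hσ'σ : σ' ⊆ σ := fun x hx => (hmem x hx).2.2
      have hc' : Cond S σ' := fun x hx z hz w hw => hc x (hσ'σ hx) z (hσ'σ hz) w (hσ'σ hw)
      have hS' : Stm K d i σ'.card := ih _ (by omega)
      -- the two sums
      set F2 : ℤ := ∑ τ ∈ σ'.powerset, if τ ∈ S then (-1) ^ τ.card * 2 ^ (σ'.card - τ.card) *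
        ((g τ).coeff i + (g τ).coeff i - (g (insert a τ)).coeff i - (g (insert b τ)).coeff i)
        else 0 with hF2
      have hineq : ∀ s : ℕ, 0 ≤ Fun S σ' g i + (s : ℤ) * F2 := by
        intro s
        have hT := chainL i₀ hK (hσ ha) (hσ hb) hab hnadj hσa hσb (g := g)
          (by rw [hσeq]; exact hg') (M := 2 * s + 1) s le_rfl
        have h1 := TowL.apply i₀ hK hS' (hσ'σ.trans hσ) hc' hT (by
          intro κ hκ hκσ j hj
          have g1 := (hg' κ hκ (hκσ.trans hσ'σ)).2 j hj
          have i1 := insert_mem h (hσ ha) hκ (hκσ.trans hσa)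
          have i2 := insert_mem h (hσ hb) hκ (hκσ.trans hσb)
          have g2 := (hg' _ i1 (Finset.insert_subset ha (hκσ.trans hσ'σ))).2 j (by
            rw [Finset.card_insert_of_notMem (fun h2 => (hmem a (hκσ h2)).2.1 rfl)]
            omega)
          have g3 := (hg' _ i2 (Finset.insert_subset hb (hκσ.trans hσ'σ))).2 j (by
            rw [Finset.card_insert_of_notMem (fun h2 => (hmem b (hκσ h2)).1 rfl)]
            omega)
          rw [coeff_add, coeff_C_mul, coeff_sub, coeff_sub, coeff_add, g1, g2, g3]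
          ring)
        refine h1.trans_eq ?_
        rw [Fun, Fun, hF2, Finset.mul_sum, ← Finset.sum_add_distrib]
        refine Finset.sum_congr rfl (fun τ _ => ?_)
        by_cases hτ : τ ∈ S
        · rw [if_pos hτ, if_pos hτ, if_pos hτ, coeff_add, coeff_C_mul, coeff_sub, coeff_sub,
            coeff_add]
          ring
        · rw [if_neg hτ, if_neg hτ, if_neg hτ, mul_zero, add_zero]
      have hF2nn : 0 ≤ F2 := by
        by_contra hlt
        rw [not_le] at hlt
        have h1 := hineq ((Fun S σ' g i).toNat + 1)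
        have h2 := Int.self_le_toNat (Fun S σ' g i)
        push_cast at h1
        nlinarith
      have hfin : Fun S σ g i = 2 * F2 := by
        rw [Fun]
        conv_lhs => rw [← hσeq]
        rw [Finset.sum_powerset_insert haσ', Finset.sum_powerset_insert hbσ',
          Finset.sum_powerset_insert hbσ', hσeq, hF2, Finset.mul_sum, ← Finset.sum_add_distrib,
          ← Finset.sum_add_distrib, ← Finset.sum_add_distrib]
        refine Finset.sum_congr rfl (fun τ hτ => ?_)
        have hτσ := Finset.mem_powerset.1 hτ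
        have ha1 : a ∉ insert b τ := fun h1 => haσ' (Finset.insert_subset_insert _ hτσ h1)
        have ha2 : a ∉ τ := fun h1 => ha1 (Finset.mem_insert_of_mem h1)
        have hb2 : b ∉ τ := fun h1 => hbσ' (hτσ h1)
        have hno : insert a (insert b τ) ∉ S := fun h1 => hnS (mem_down h h1 (by
          intro x hx
          simp only [Finset.mem_insert, Finset.mem_singleton] at hx ⊢
          tauto))
        have hle := Finset.card_le_card hτσ
        rw [if_neg hno]
        by_cases hτS : τ ∈ S
        · have i1 := insert_mem h (hσ ha) hτS (hτσ.trans hσa)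
          have i2 := insert_mem h (hσ hb) hτS (hτσ.trans hσb)
          rw [if_pos hτS, if_pos i1, if_pos i2, if_pos hτS,
            Finset.card_insert_of_notMem ha2, Finset.card_insert_of_notMem hb2, hcard,
            show σ'.card + 2 - τ.card = σ'.card - τ.card + 2 by omega,
            show σ'.card + 2 - (τ.card + 1) = σ'.card - τ.card + 1 by omega]
          ring
        · have i1 : insert a τ ∉ S := fun h1 => hτS (mem_down h h1 (Finset.subset_insert _ _))
          have i2 : insert b τ ∉ S := fun h1 => hτS (mem_down h h1 (Finset.subset_insert _ _))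
          rw [if_neg hτS, if_neg i1, if_neg i2, if_neg hτS]
          ring
      rw [hfin]
      omega
    · -- the marked vertices form a face
      obtain ⟨a, ha⟩ := hne
      obtain ⟨b, hb, hba, hnadj⟩ := h.np.exists_nonadj (hσ ha)
      set σ' := σ.erase a with hσ'
      have hmem : ∀ x ∈ σ', x ≠ a ∧ x ∈ σ := fun x hx => Finset.mem_erase.1 hx
      have haσ' : a ∉ σ' := fun h1 => (hmem a h1).1 rfl
      have hσeq : insert a σ' = σ := Finset.insert_erase ha
      have hcard : σ.card = σ'.card + 1 := by
        rw [← hσeq, Finset.card_insert_of_notMem haσ']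
      have hσ'σ : σ' ⊆ σ := Finset.erase_subset _ _
      have hσa : σ' ⊆ lk (skel S) (vert S) a := by
        intro x hx
        obtain ⟨h2, h3⟩ := hmem x hx
        rw [mem_lk]
        refine ⟨hσ h3, ?_⟩
        by_contra h4
        exact hex ⟨a, ha, x, h3, h2.symm, fun h5 => h4 ⟨h2.symm, h5⟩⟩
      have hc' : Cond S σ' := fun x hx z hz w hw => hc x (hσ'σ hx) z (hσ'σ hz) w (hσ'σ hw)
      have hS' : Stm K d i σ'.card := ih _ (by omega)
      have hT := TowL.step i₀ hK (M := 2) (t := 1) (by omega) (hσ ha) hb hba.symm hnadj hσa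
        (TowL.base i₀ hK (M := 2) (by omega) (hσ ha) (hσa.trans lk_subset) (g := g)
          (fun κ hκ hκσ => hg' κ hκ (hκσ.trans hσ'σ))) (g := g) (by rw [hσeq]; exact hg')
      have h1 := TowL.apply i₀ hK hS' (hσ'σ.trans hσ) hc' hT (by
        intro κ hκ hκσ j hj
        have g1 := (hg' κ hκ (hκσ.trans hσ'σ)).2 j hj
        have i1 := insert_mem h (hσ ha) hκ (hκσ.trans hσa)
        have g2 := (hg' _ i1 (Finset.insert_subset ha (hκσ.trans hσ'σ))).2 j (by
          rw [Finset.card_insert_of_notMem (fun h2 => (hmem a (hκσ h2)).1 rfl)]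
          omega)
        rw [coeff_sub, coeff_add, g1, g2]
        ring)
      refine h1.trans_eq ?_
      rw [Fun, Fun]
      conv_rhs => rw [← hσeq]
      rw [Finset.sum_powerset_insert haσ', hσeq, ← Finset.sum_add_distrib]
      refine Finset.sum_congr rfl (fun τ hτ => ?_)
      have hτσ := Finset.mem_powerset.1 hτ
      have ha2 : a ∉ τ := fun h1 => haσ' (hτσ h1)
      have hle := Finset.card_le_card hτσ
      by_cases hτS : τ ∈ S
      · have i1 := insert_mem h (hσ ha) hτS (hτσ.trans hσa)
        rw [if_pos hτS, if_pos i1, if_pos hτS, Finset.card_insert_of_notMem ha2, hcard,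
          show σ'.card + 1 - τ.card = σ'.card - τ.card + 1 by omega,
          show σ'.card + 1 - (τ.card + 1) = σ'.card - τ.card by omega, coeff_sub, coeff_add]
        ring
      · have i1 : insert a τ ∉ S := fun h1 => hτS (mem_down h h1 (Finset.subset_insert _ _))
        rw [if_neg hτS, if_neg i1, if_neg hτS]
        ring

end Pool.Agent.TH208.GJ
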