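import Pool.Agent.TH208.GJ.Rank

set_option autoImplicit false
set_option linter.unusedSectionVars false
set_option linter.unusedVariables false

/-!
# All links are homology spheres: closure under joins with cycles
-/

namespace Pool.Agent.TH208.GJ

open Pool.Agent.W497.FS

variable {k : Type} [Field k] {α : Type} [LinearOrder α] [Fintype α] {H : SimpleGraph α}

/-- all links of faces are homology spheres of the right dimension -/
def Mf (k : Type) [Field k] {α : Type} [LinearOrder α] [Fintype α] (H : SimpleGraph α)
    (X : Finset α) (e : ℕ) : Prop :=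
  ∀ κ ∈ cl H X, κ.card ≤ e ∧ Sph k H (lkF H X κ) (e - κ.card)

theorem Mf.sph {X : Finset α} {e : ℕ} (h : Mf k H X e) : Sph k H X e := by
  have := (h ∅ empty_mem_cl).2
  rwa [lkF_empty'', Finset.card_empty, Nat.sub_zero] at this

theorem Mf.lk {X : Finset α} {e : ℕ} (h : Mf k H X (e + 1)) {v : α} (hv : v ∈ X) :
    Mf k H (lk H X v) e := by
  intro κ hκ
  obtain ⟨h1, h2⟩ := insert_mem_cl hv hκ
  obtain ⟨h3, h4⟩ := h _ h1
  rw [Finset.card_insert_of_notMem h2] at h3 h4
  rw [lkF_insert', show e - κ.card = e + 1 - (κ.card + 1) by omega]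
  exact ⟨by omega, h4⟩

theorem Mf.of_lk {X : Finset α} {e : ℕ} (h : Sph k H X e)
    (hl : ∀ v ∈ X, ∃ e', e = e' + 1 ∧ Mf k H (Pool.Agent.W497.FS.lk H X v) e') : Mf k H X e := by
  intro κ hκ
  rcases κ.eq_empty_or_nonempty with rfl | ⟨v, hv⟩
  · rw [lkF_empty'', Finset.card_empty, Nat.sub_zero]
    exact ⟨Nat.zero_le _, h⟩
  · obtain ⟨h1, h2⟩ := mem_cl.1 hκ
    obtain ⟨e', rfl, hm⟩ := hl v (h1 hv)
    have h3 : κ.erase v ∈ cl H (Pool.Agent.W497.FS.lk H X v) := mem_cl.2 ⟨fun x hx => by
      obtain ⟨hxv, hxκ⟩ := Finset.mem_erase.1 hx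
      exact mem_lk.2 ⟨h1 hxκ, h2 v hv x hxκ hxv.symm⟩,
      fun x hx y hy hxy => h2 x (Finset.mem_of_mem_erase hx) y (Finset.mem_of_mem_erase hy) hxy⟩
    obtain ⟨h4, h5⟩ := hm _ h3
    rw [lkF_insert', Finset.insert_erase hv] at h5
    have h6 := Finset.card_erase_add_one hv
    rw [show e' + 1 - κ.card = e' - (κ.erase v).card by omega]
    exact ⟨by omega, h5⟩

theorem Mf.pos {X : Finset α} {e : ℕ} (h : Mf k H X e) {v : α} (hv : v ∈ X) :
    ∃ e', e = e' + 1 := by
  have := (h _ (singleton_mem_cl hv)).1
  rw [Finset.card_singleton] at this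
  exact ⟨e - 1, by omega⟩

theorem Mf.susp : ∀ (e : ℕ) {X : Finset α}, Mf k H X e → ∀ {b c : α}, (∀ x ∈ X, H.Adj b x) →
    (∀ x ∈ X, H.Adj c x) → b ≠ c → ¬ H.Adj b c → Mf k H (insert b (insert c X)) (e + 1) := by
  intro e
  induction e with
  | zero =>
    intro X h b c hb hc hbc hn
    have hX : ∀ x, x ∉ X := fun x hx => by
      obtain ⟨e', he⟩ := h.pos hx
      omega
    refine Mf.of_lk (h.sph.susp hb hc hbc hn) (fun v hv => ⟨0, rfl, ?_⟩)
    have hlk : Pool.Agent.W497.FS.lk H (insert b (insert c X)) v = X := by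
      ext x
      rw [mem_lk, Finset.mem_insert, Finset.mem_insert]
      constructor
      · rintro ⟨h1, h2⟩
        exfalso
        rcases Finset.mem_insert.1 hv with rfl | hv
        · rcases h1 with rfl | rfl | h1
          · exact h2.ne rfl
          · exact hn h2
          · exact hX _ h1
        · rcases Finset.mem_insert.1 hv with rfl | hv
          · rcases h1 with rfl | rfl | h1
            · exact hn h2.symm
            · exact h2.ne rfl
            · exact hX _ h1
          · exact hX _ hv
      · intro h1; exact absurd h1 (hX x)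
    rw [hlk]
    exact h
  | succ e ih =>
    intro X h b c hb hc hbc hn
    refine Mf.of_lk (h.sph.susp hb hc hbc hn) (fun v hv => ?_)
    rcases Finset.mem_insert.1 hv with rfl | hv
    · refine ⟨e + 1, rfl, ?_⟩
      have hlk : Pool.Agent.W497.FS.lk H (insert v (insert c X)) v = X := by
        ext x
        rw [mem_lk, Finset.mem_insert, Finset.mem_insert]
        constructor
        · rintro ⟨rfl | rfl | h1, h2⟩
          · exact absurd rfl h2.ne
          · exact absurd h2 hn
          · exact h1
        · exact fun h1 => ⟨Or.inr (Or.inr h1), hb x h1⟩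
      rw [hlk]; exact h
    · rcases Finset.mem_insert.1 hv with rfl | hv3
      · refine ⟨e + 1, rfl, ?_⟩
        have hlk : Pool.Agent.W497.FS.lk H (insert b (insert v X)) v = X := by
          ext x
          rw [mem_lk, Finset.mem_insert, Finset.mem_insert]
          constructor
          · rintro ⟨rfl | rfl | h1, h2⟩
            · exact absurd h2.symm hn
            · exact absurd rfl h2.ne
            · exact h1
          · exact fun h1 => ⟨Or.inr (Or.inr h1), hc x h1⟩
        rw [hlk]; exact h
      · refine ⟨e + 1, rfl, ?_⟩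
        have hlk : Pool.Agent.W497.FS.lk H (insert b (insert c X)) v =
            insert b (insert c (Pool.Agent.W497.FS.lk H X v)) := by
          ext x
          simp only [mem_lk, Finset.mem_insert]
          constructor
          · rintro ⟨rfl | rfl | h1, h2⟩
            · exact Or.inl rfl
            · exact Or.inr (Or.inl rfl)
            · exact Or.inr (Or.inr ⟨h1, h2⟩)
          · rintro (rfl | rfl | ⟨h1, h2⟩)
            · exact ⟨Or.inl rfl, (hb v hv3).symm⟩
            · exact ⟨Or.inr (Or.inl rfl), (hc v hv3).symm⟩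
            · exact ⟨Or.inr (Or.inr h1), h2⟩
        rw [hlk]
        exact ih (h.lk hv3) (fun x hx => hb x (lk_subset hx)) (fun x hx => hc x (lk_subset hx))
          hbc hn

/-- the link of the vertex `0` of the cycle -/
theorem lk_cycle {X : Finset α} {m : ℕ} (hm : 4 ≤ m) {c : ℕ → α}
    (hadj : ∀ p < m, ∀ q < m, (H.Adj (c p) (c q) ↔ cadj m p q))
    (hX : ∀ p < m, ∀ x ∈ X, H.Adj (c p) x) :
    lk H (X ∪ (Finset.range m).image c) (c 0) = insert (c 1) (insert (c (m - 1)) X) := by
  ext x
  simp only [mem_lk, Finset.mem_union, Finset.mem_image, Finset.mem_range, Finset.mem_insert]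
  constructor
  · rintro ⟨h' | ⟨q, hq, rfl⟩, hq2⟩
    · exact Or.inr (Or.inr h')
    · rw [hadj _ (by omega) q hq] at hq2
      unfold cadj at hq2
      by_cases hq1 : q = 1
      · left; rw [hq1]
      · right; left; congr 1; omega
  · rintro (rfl | rfl | h')
    · refine ⟨Or.inr ⟨1, by omega, rfl⟩, ?_⟩
      rw [hadj _ (by omega) _ (by omega)]
      unfold cadj
      omega
    · refine ⟨Or.inr ⟨m - 1, by omega, rfl⟩, ?_⟩
      rw [hadj _ (by omega) _ (by omega)]
      unfold cadj
      omega
    · exact ⟨Or.inl h', hX _ (by omega) x h'⟩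

/-- rotation of the labels of a cycle -/
def rot (m p q : ℕ) : ℕ := if p + q < m then p + q else p + q - m

theorem rot_lt {m p q : ℕ} (hp : p < m) (hq : q < m) : rot m p q < m := by
  unfold rot; split_ifs <;> omega

theorem Mf.cycle : ∀ (e : ℕ) {X : Finset α}, Mf k H X e → ∀ {m : ℕ}, 4 ≤ m → ∀ {c : ℕ → α},
    (∀ p < m, ∀ q < m, c p = c q → p = q) →
    (∀ p < m, ∀ q < m, (H.Adj (c p) (c q) ↔ cadj m p q)) →
    (∀ p < m, ∀ x ∈ X, H.Adj (c p) x) →
    Mf k H (X ∪ (Finset.range m).image c) (e + 2) := by
  intro e
  induction e with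
  | zero =>
    intro X h m hm c hinj hadj hX
    refine Mf.of_lk (h.sph.cycle hm hinj hadj hX) (fun v hv => ⟨0 + 1, rfl, ?_⟩)
    have hX0 : ∀ x, x ∉ X := fun x hx => by
      obtain ⟨e', he⟩ := h.pos hx
      omega
    rcases Finset.mem_union.1 hv with hv | hv
    · exact absurd hv (hX0 v)
    · obtain ⟨p, hp, rfl⟩ := Finset.mem_image.1 hv
      rw [Finset.mem_range] at hp
      have himg : (Finset.range m).image (fun q => c (rot m p q)) = (Finset.range m).image c := by
        ext x
        simp only [Finset.mem_image, Finset.mem_range]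
        constructor
        · rintro ⟨q, hq, rfl⟩
          exact ⟨_, rot_lt hp hq, rfl⟩
        · rintro ⟨q, hq, rfl⟩
          refine ⟨if p ≤ q then q - p else q + m - p, by split_ifs <;> omega, ?_⟩
          congr 1
          unfold rot
          split_ifs <;> omega
      have hinj' : ∀ q < m, ∀ q' < m, c (rot m p q) = c (rot m p q') → q = q' := by
        intro q hq q' hq' h'
        have := hinj _ (rot_lt hp hq) _ (rot_lt hp hq') h'
        unfold rot at this
        split_ifs at this <;> omega
      have hadj' : ∀ q < m, ∀ q' < m, (H.Adj (c (rot m p q)) (c (rot m p q')) ↔ cadj m q q') := by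
        intro q hq q' hq'
        rw [hadj _ (rot_lt hp hq) _ (rot_lt hp hq')]
        unfold cadj rot
        split_ifs <;> omega
      have hX' : ∀ q < m, ∀ x ∈ X, H.Adj (c (rot m p q)) x := fun q hq => hX _ (rot_lt hp hq)
      have h0 : c (rot m p 0) = c p := by
        congr 1
        unfold rot
        split_ifs <;> omega
      rw [← himg, ← h0, lk_cycle (c := fun q => c (rot m p q)) hm hadj' hX']
      refine Mf.susp 0 h (hX' _ (by omega)) (hX' _ (by omega)) ?_ ?_
      · intro h'
        have := hinj' _ (by omega) _ (by omega) h'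
        omega
      · rw [hadj' _ (by omega) _ (by omega)]
        unfold cadj
        omega
  | succ e ih =>
    intro X h m hm c hinj hadj hX
    refine Mf.of_lk (h.sph.cycle hm hinj hadj hX) (fun v hv => ⟨e + 1 + 1, rfl, ?_⟩)
    rcases Finset.mem_union.1 hv with hv | hv
    · have hlk : Pool.Agent.W497.FS.lk H (X ∪ (Finset.range m).image c) v =
          Pool.Agent.W497.FS.lk H X v ∪ (Finset.range m).image c := by
        ext x
        simp only [mem_lk, Finset.mem_union, Finset.mem_image, Finset.mem_range]
        constructor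
        · rintro ⟨h1 | h1, h2⟩
          · exact Or.inl ⟨h1, h2⟩
          · exact Or.inr h1
        · rintro (⟨h1, h2⟩ | ⟨p, hp, rfl⟩)
          · exact ⟨Or.inl h1, h2⟩
          · exact ⟨Or.inr ⟨p, hp, rfl⟩, (hX p hp v hv).symm⟩
      rw [hlk]
      exact ih (h.lk hv) hm hinj hadj (fun p hp x hx => hX p hp x (lk_subset hx))
    · obtain ⟨p, hp, rfl⟩ := Finset.mem_image.1 hv
      rw [Finset.mem_range] at hp
      have himg : (Finset.range m).image (fun q => c (rot m p q)) = (Finset.range m).image c := by
        ext x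
        simp only [Finset.mem_image, Finset.mem_range]
        constructor
        · rintro ⟨q, hq, rfl⟩
          exact ⟨_, rot_lt hp hq, rfl⟩
        · rintro ⟨q, hq, rfl⟩
          refine ⟨if p ≤ q then q - p else q + m - p, by split_ifs <;> omega, ?_⟩
          congr 1
          unfold rot
          split_ifs <;> omega
      have hinj' : ∀ q < m, ∀ q' < m, c (rot m p q) = c (rot m p q') → q = q' := by
        intro q hq q' hq' h'
        have := hinj _ (rot_lt hp hq) _ (rot_lt hp hq') h'
        unfold rot at this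
        split_ifs at this <;> omega
      have hadj' : ∀ q < m, ∀ q' < m, (H.Adj (c (rot m p q)) (c (rot m p q')) ↔ cadj m q q') := by
        intro q hq q' hq'
        rw [hadj _ (rot_lt hp hq) _ (rot_lt hp hq')]
        unfold cadj rot
        split_ifs <;> omega
      have hX' : ∀ q < m, ∀ x ∈ X, H.Adj (c (rot m p q)) x := fun q hq => hX _ (rot_lt hp hq)
      have h0 : c (rot m p 0) = c p := by
        congr 1
        unfold rot
        split_ifs <;> omega
      rw [← himg, ← h0, lk_cycle (c := fun q => c (rot m p q)) hm hadj' hX']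
      refine Mf.susp (e + 1) h (hX' _ (by omega)) (hX' _ (by omega)) ?_ ?_
      · intro h'
        have := hinj' _ (by omega) _ (by omega) h'
        omega
      · rw [hadj' _ (by omega) _ (by omega)]
        unfold cadj
        omega

end Pool.Agent.TH208.GJ
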