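import Pool.Agent.TH208.GJ.Key

set_option autoImplicit false
set_option linter.unusedSectionVars false

/-!
# The Charney-Davis quantity and the top coefficient of the gamma-polynomial
-/

namespace Pool.Agent.TH208.GJ

open Pool.Agent.W497.FS Polynomial

variable {k : Type} [Field k] {n p : ℕ} {S : Finset (Finset (Fin n))}

theorem gp_eval (p : ℕ) (G : ℤ[X]) : (gp (2 * p) G).eval (-1) = (-1) ^ p * G.coeff p := by
  rw [gp, eval_finset_sum, show 2 * p / 2 = p by omega, Finset.sum_range_succ,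
    Finset.sum_eq_zero]
  · rw [zero_add]
    simp
    ring
  · intro i hi
    rw [Finset.mem_range] at hi
    have : 2 * p - 2 * i = (2 * p - 2 * i - 1) + 1 := by omega
    rw [this, pow_succ]
    simp

theorem hp_eval (d : ℕ) (P : ℤ[X]) : (((hp d P).eval (-1) : ℤ) : ℚ) =
    2 ^ d * ∑ j ∈ Finset.range (d + 1), (P.coeff j : ℚ) * (-1 / 2) ^ j := by
  rw [hp, eval_finset_sum, Finset.mul_sum]
  push_cast
  refine Finset.sum_congr rfl (fun j hj => ?_)
  rw [Finset.mem_range] at hj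
  obtain ⟨e, rfl⟩ : ∃ e, d = j + e := ⟨d - j, by omega⟩
  simp only [eval_mul, eval_pow, eval_sub, eval_one, eval_X, eval_C, Nat.add_sub_cancel_left]
  push_cast
  rw [pow_add, div_pow]
  field_simp

theorem omega_eq_sum (h : IsFlagSphere k (2 * p) S) :
    omega S = ∑ j ∈ Finset.range (2 * p + 1), ((fp S).coeff j : ℚ) * (-1 / 2) ^ j := by
  have h1 : ∀ σ ∈ S, σ.card ∈ Finset.range (2 * p + 1) := fun σ hσ => by
    rw [Finset.mem_range]
    have := h.card_le σ hσ
    omega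
  rw [omega, ← Finset.sum_fiberwise_of_maps_to h1]
  refine Finset.sum_congr rfl (fun j _ => ?_)
  rw [fp_coeff]
  have h2 : ∀ σ ∈ S.filter (fun G => G.card = j), (-1 : ℚ) ^ σ.card / 2 ^ σ.card =
      (-1 / 2) ^ j := fun σ hσ => by
    rw [(Finset.mem_filter.1 hσ).2, div_pow]
  rw [Finset.sum_congr rfl h2, Finset.sum_const, nsmul_eq_mul]
  push_cast
  rfl

/-- `ω(S) = (-1/4)^p γ_p(S)` -/
theorem omega_isG (h : IsFlagSphere k (2 * p) S) {G : ℤ[X]} (hG : IsG (2 * p) S G) :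
    (-1) ^ p * omega S * 4 ^ p = (G.coeff p : ℚ) := by
  have h1 := hp_eval (2 * p) (fp S)
  rw [hG.1, gp_eval, ← omega_eq_sum h] at h1
  push_cast at h1
  have h2 : ((-1 : ℚ) ^ p) * ((-1) ^ p) = 1 := by rw [← mul_pow]; norm_num
  have h3 : (2 : ℚ) ^ (2 * p) = 4 ^ p := by rw [pow_mul]; norm_num
  rw [h3] at h1
  linear_combination (-(-1 : ℚ) ^ p) * h1 + (G.coeff p : ℚ) * h2

end Pool.Agent.TH208.GJ
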