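import Pool.Agent.TH208.GJ.Chain
import Pool.Agent.W216.FS.HR

set_option autoImplicit false
set_option linter.unusedSectionVars false

/-!
# From ranks of boundary matrices to exactness and back
-/

namespace Pool.Agent.TH208.GJ

open Pool.Agent.W497.FS Pool.Agent.W216.FS.HR Finset

variable {k : Type} [Field k] {N : ℕ} {H : SimpleGraph (Fin N)}

/-- the complex on `X` has the Betti numbers of a sphere of dimension `e - 1` -/
def RankSph (k : Type) [Field k] {N : ℕ} (L : Finset (Finset (Fin N))) (e : ℕ) : Prop :=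
  ∀ j : ℕ, ((L.filter (fun G => G.card = j)).card : ℤ) - ((MM k L (j - 1) j).rank : ℤ)
    - ((MM k L j (j + 1)).rank : ℤ) = if j = e then 1 else 0

theorem ex0_on {X : Finset (Fin N)} {j : ℕ}
    (x : {B : Finset (Fin N) // B ∈ (cl H X).filter (fun B => B.card = j)} → k) :
    On H X j (ex0 (cl H X) j x) := by
  intro A hA
  by_contra hcon
  apply hA
  apply ex0_of_notMem
  rw [Finset.mem_filter]
  exact hcon

theorem ex0_restrict {X : Finset (Fin N)} {j : ℕ} {c : Finset (Fin N) → k} (hc : On H X j c) :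
    ex0 (cl H X) j (fun B => c B.1) = c := by
  funext A
  by_cases hA : A ∈ (cl H X).filter (fun B => B.card = j)
  · rw [ex0_of_mem _ hA]
  · rw [ex0_of_notMem _ hA]
    by_contra hne
    apply hA
    rw [Finset.mem_filter]
    exact hc A (Ne.symm hne)

theorem ex0_zero (L : Finset (Finset (Fin N))) (j : ℕ) : ex0 (k := k) L j 0 = 0 := by
  funext A
  by_cases hA : A ∈ L.filter (fun B => B.card = j)
  · rw [ex0_of_mem _ hA]; rfl
  · rw [ex0_of_notMem _ hA]; rfl

theorem cl_down' {X : Finset (Fin N)} : ∀ B ∈ cl H X, ∀ A, A ⊆ B → A ∈ cl H X :=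
  fun _ hB _ hAB => cl_down hB hAB

theorem hker (L : Finset (Finset (Fin N))) (j : ℕ) :
    ((MM k L (j - 1) j).rank : ℤ) + Module.finrank k (LinearMap.ker (MM k L (j - 1) j).mulVecLin) =
      ((L.filter (fun G => G.card = j)).card : ℤ) := by
  have h1 := LinearMap.finrank_range_add_finrank_ker (MM k L (j - 1) j).mulVecLin
  rw [Module.finrank_fintype_fun_eq_card, Fintype.card_coe] at h1
  exact_mod_cast h1

theorem range_le_ker (X : Finset (Fin N)) (j : ℕ) :
    LinearMap.range (MM k (cl H X) j (j + 1)).mulVecLin ≤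
      LinearMap.ker (MM k (cl H X) (j - 1) j).mulVecLin := by
  rintro _ ⟨y, rfl⟩
  rw [LinearMap.mem_ker]
  apply ex0_inj
  rw [Matrix.mulVecLin_apply, Matrix.mulVecLin_apply, ex0_mulVec _ cl_down' _ _ rfl,
    ex0_mulVec _ cl_down' _ _ (by omega), bd_bd, ex0_zero]

theorem mem_ker_iff {X : Finset (Fin N)} {j : ℕ}
    {x : {B : Finset (Fin N) // B ∈ (cl H X).filter (fun B => B.card = j)} → k} :
    x ∈ LinearMap.ker (MM k (cl H X) (j - 1) j).mulVecLin ↔ bd (ex0 (cl H X) j x) = 0 := by
  rw [LinearMap.mem_ker]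
  constructor
  · intro h
    rw [← ex0_mulVec _ cl_down' (j - 1) j rfl, ← Matrix.mulVecLin_apply, h, ex0_zero]
  · intro h
    apply ex0_inj
    rw [Matrix.mulVecLin_apply, ex0_mulVec _ cl_down' _ _ rfl, h, ex0_zero]

theorem ex_iff {X : Finset (Fin N)} {j : ℕ} : Ex k H X j ↔
    LinearMap.range (MM k (cl H X) j (j + 1)).mulVecLin =
      LinearMap.ker (MM k (cl H X) (j - 1) j).mulVecLin := by
  constructor
  · intro h
    refine le_antisymm (range_le_ker X j) (fun x hx => ?_)
    obtain ⟨b, hb, hbc⟩ := h _ (ex0_on x) (mem_ker_iff.1 hx)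
    refine ⟨fun B => b B.1, ?_⟩
    apply ex0_inj
    rw [Matrix.mulVecLin_apply, ex0_mulVec _ cl_down' _ _ (by omega), ex0_restrict hb, hbc]
  · intro heq c hc hbc
    have hx : (fun B => c B.1 : {B : Finset (Fin N) //
        B ∈ (cl H X).filter (fun B => B.card = j)} → k) ∈
        LinearMap.ker (MM k (cl H X) (j - 1) j).mulVecLin := by
      rw [mem_ker_iff, ex0_restrict hc, hbc]
    rw [← heq] at hx
    obtain ⟨y, hy⟩ := hx
    refine ⟨ex0 (cl H X) (j + 1) y, ex0_on y, ?_⟩
    rw [← ex0_mulVec _ cl_down' j (j + 1) (by omega), ← Matrix.mulVecLin_apply, hy,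
      ex0_restrict hc]

theorem rank_zero_of_empty {L : Finset (Finset (Fin N))} {i j : ℕ}
    (h : ∀ F ∈ L, F.card ≠ j) : (MM k L i j).rank = 0 := by
  have hemp : IsEmpty {B : Finset (Fin N) // B ∈ L.filter (fun B => B.card = j)} :=
    ⟨fun B => h B.1 (Finset.mem_filter.1 B.2).1 (Finset.mem_filter.1 B.2).2⟩
  have h2 := Matrix.rank_le_card_width (MM k L i j)
  rw [Fintype.card_eq_zero] at h2
  omega

theorem sph_of_rank {X : Finset (Fin N)} {e : ℕ} (hdim : ∀ F ∈ cl H X, F.card ≤ e)
    (h : RankSph k (cl H X) e) : Sph k H X e := by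
  refine ⟨fun j hj => ?_, ?_, hdim⟩
  · rw [ex_iff]
    refine Submodule.eq_of_le_of_finrank_eq (range_le_ker X j) ?_
    have h1 := h j
    rw [if_neg (by omega)] at h1
    have h2 := hker (k := k) (cl H X) j
    have h3 : (Module.finrank k (LinearMap.range (MM k (cl H X) j (j + 1)).mulVecLin) : ℤ) =
        Module.finrank k (LinearMap.ker (MM k (cl H X) (j - 1) j).mulVecLin) := by
      have h4 : ((MM k (cl H X) j (j + 1)).rank : ℤ) =
        Module.finrank k (LinearMap.range (MM k (cl H X) j (j + 1)).mulVecLin) := rfl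
      linarith
    exact_mod_cast h3
  · have h1 := h e
    rw [if_pos rfl] at h1
    have h2 := hker (k := k) (cl H X) e
    have h3 : (MM k (cl H X) e (e + 1)).rank = 0 :=
      rank_zero_of_empty (fun F hF hFc => by have := hdim F hF; omega)
    rw [h3] at h1
    have h4 : Module.finrank k (LinearMap.ker (MM k (cl H X) (e - 1) e).mulVecLin) = 1 := by
      have : (Module.finrank k (LinearMap.ker (MM k (cl H X) (e - 1) e).mulVecLin) : ℤ) = 1 := by
        push_cast at h1
        linarith
      exact_mod_cast this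
    obtain ⟨v, hv, huniq⟩ := finrank_eq_one_iff'.1 h4
    refine ⟨ex0 (cl H X) e v.1, ex0_on _, mem_ker_iff.1 v.2, ?_, ?_⟩
    · intro h5
      apply hv
      apply Subtype.ext
      apply ex0_inj
      rw [h5]
      exact (ex0_zero _ _).symm
    · intro z' hz' hz'0
      have hx : (fun B => z' B.1 : {B : Finset (Fin N) //
          B ∈ (cl H X).filter (fun B => B.card = e)} → k) ∈
          LinearMap.ker (MM k (cl H X) (e - 1) e).mulVecLin := by
        rw [mem_ker_iff, ex0_restrict hz', hz'0]
      obtain ⟨a, ha⟩ := huniq ⟨_, hx⟩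
      refine ⟨a, ?_⟩
      have h6 := congrArg Subtype.val ha
      rw [← ex0_restrict hz']
      funext A
      by_cases hA : A ∈ (cl H X).filter (fun B => B.card = e)
      · rw [ex0_of_mem _ hA, Pi.smul_apply, ex0_of_mem _ hA]
        exact (congrFun h6 ⟨A, hA⟩).symm
      · rw [ex0_of_notMem _ hA, Pi.smul_apply, ex0_of_notMem _ hA, smul_zero]

theorem rank_of_sph {X : Finset (Fin N)} {e : ℕ} (h : Sph k H X e) : RankSph k (cl H X) e := by
  intro j
  have h2 := hker (k := k) (cl H X) j
  rcases lt_trichotomy j e with hj | hj | hj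
  · rw [if_neg (by omega)]
    have h3 := ex_iff.1 (h.ex j hj)
    have h4 : ((MM k (cl H X) j (j + 1)).rank : ℤ) =
        Module.finrank k (LinearMap.ker (MM k (cl H X) (j - 1) j).mulVecLin) := by
      rw [← h3]; rfl
    linarith
  · subst hj
    rw [if_pos rfl]
    have h3 : (MM k (cl H X) j (j + 1)).rank = 0 :=
      rank_zero_of_empty (fun F hF hFc => by have := h.dim F hF; omega)
    have h4 : Module.finrank k (LinearMap.ker (MM k (cl H X) (j - 1) j).mulVecLin) = 1 := by
      obtain ⟨z, hz, hz0, hzne, huniq⟩ := h.top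
      rw [finrank_eq_one_iff']
      have hx : (fun B => z B.1 : {B : Finset (Fin N) //
          B ∈ (cl H X).filter (fun B => B.card = j)} → k) ∈
          LinearMap.ker (MM k (cl H X) (j - 1) j).mulVecLin := by
        rw [mem_ker_iff, ex0_restrict hz, hz0]
      refine ⟨⟨_, hx⟩, ?_, ?_⟩
      · intro h5
        apply hzne
        have h6 := congrArg Subtype.val h5
        rw [← ex0_restrict hz]
        change (fun B => z B.1 : {B : Finset (Fin N) //
          B ∈ (cl H X).filter (fun B => B.card = j)} → k) = 0 at h6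
        rw [h6, ex0_zero]
      · rintro ⟨w, hw⟩
        obtain ⟨a, ha⟩ := huniq _ (ex0_on w) (mem_ker_iff.1 hw)
        refine ⟨a, Subtype.ext ?_⟩
        funext B
        have h6 := congrFun ha B.1
        rw [ex0_of_mem _ B.2] at h6
        exact h6.symm
    rw [h3]
    rw [h4] at h2
    push_cast at h2 ⊢
    linarith
  · rw [if_neg (by omega)]
    have h3 : (MM k (cl H X) j (j + 1)).rank = 0 :=
      rank_zero_of_empty (fun F hF hFc => by have := h.dim F hF; omega)
    have h4 : (MM k (cl H X) (j - 1) j).rank = 0 :=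
      rank_zero_of_empty (fun F hF hFc => by have := h.dim F hF; omega)
    have h5 : ((cl H X).filter (fun G => G.card = j)).card = 0 := by
      rw [Finset.card_eq_zero, Finset.filter_eq_empty_iff]
      intro F hF hFc
      have := h.dim F hF
      omega
    rw [h3, h4, h5]
    norm_num

end Pool.Agent.TH208.GJ
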