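import Pool.Agent.TH208.GJ.LinkGlue

set_option autoImplicit false
set_option linter.unusedSectionVars false
set_option linter.unusedVariables false

/-!
# Chains of copies of a sphere glued along vertex links, with the links of marked faces
-/

namespace Pool.Agent.TH208.GJ

open Pool.Agent.W497.FS Polynomial

variable {ι : Type*} {K : ι → Type} [∀ i, Field (K i)] {n d : ℕ} {S : Finset (Finset (Fin n))}

/-- a sphere containing the closed star of the vertex `a` of `S` and the marked vertices `σ`, with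
labels of level less than `t`; `G κ` is the gamma-polynomial of the link of the marked face `κ` -/
def TowL (K : ι → Type) [∀ i, Field (K i)] {n : ℕ} (S : Finset (Finset (Fin n)))
    (d M t : ℕ) (a : Fin n) (σ : Finset (Fin n)) (G : Finset (Fin n) → ℤ[X]) : Prop :=
  ∃ (H : SimpleGraph (Fin (n * M))) (W : Finset (Fin (n * M))) (τ : Fin n → Fin M),
    ((∀ i, Mf (K i) H W d) ∧ NP H d W ∧
    (∀ κ ∈ S, κ ⊆ σ → hp (d - κ.card) (FP H (lkF H W (κ.map (em τ)))) =
      gp (d - κ.card) (G κ)) ∧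
    (∀ x ∈ σ, em τ x ∈ W) ∧
    (∀ x ∈ σ, ∀ z ∈ σ, (H.Adj (em τ x) (em τ z) ↔ (skel S).Adj x z))) ∧
    (∀ p ∈ W, p.val % M < t) ∧
    (∀ x ∈ lk (skel S) (vert S) a, em τ x ∈ W) ∧ em τ a ∈ W ∧
    lk H W (em τ a) = (lk (skel S) (vert S) a).map (em τ) ∧
    ∀ x ∈ lk (skel S) (vert S) a, ∀ z ∈ lk (skel S) (vert S) a,
      (H.Adj (em τ x) (em τ z) ↔ (skel S).Adj x z)

/-- the gamma-polynomials of the links of the faces of `S` -/
def GLink (d : ℕ) (S : Finset (Finset (Fin n))) (g : Finset (Fin n) → ℤ[X]) : Prop :=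
  ∀ κ ∈ S, IsG (d - κ.card) (cl (skel S) (lkF (skel S) (vert S) κ)) (g κ)

theorem mem_cl_self {k : Type} [Field k] (h : IsFlagSphere k d S) {κ : Finset (Fin n)} :
    κ ∈ S ↔ κ ∈ cl (skel S) (vert S) := by rw [h.cl_eq]

theorem mf_lkF {k : Type} [Field k] {N e : ℕ} {H : SimpleGraph (Fin N)} {W κ : Finset (Fin N)}
    (h : Mf k H W e) (hκ : κ ∈ cl H W) : Mf k H (lkF H W κ) (e - κ.card) := by
  intro ρ hρ
  have h1 := mem_cl.1 hκ
  have h2 := mem_cl.1 hρ
  have hdisj : Disjoint κ ρ := by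
    rw [Finset.disjoint_left]
    intro x hx hxρ
    exact ((mem_lkF.1 (h2.1 hxρ)).2 x hx).ne rfl
  have h3 : κ ∪ ρ ∈ cl H W := by
    rw [mem_cl]
    refine ⟨Finset.union_subset h1.1 (fun x hx => (mem_lkF.1 (h2.1 hx)).1),
      fun x hx z hz hxz => ?_⟩
    rcases Finset.mem_union.1 hx with hx1 | hx1
    · rcases Finset.mem_union.1 hz with hz1 | hz1
      · exact h1.2 x hx1 z hz1 hxz
      · exact (mem_lkF.1 (h2.1 hz1)).2 x hx1
    · rcases Finset.mem_union.1 hz with hz1 | hz1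
      · exact ((mem_lkF.1 (h2.1 hx1)).2 z hz1).symm
      · exact h2.2 x hx1 z hz1 hxz
  obtain ⟨h4, h5⟩ := h _ h3
  rw [Finset.card_union_of_disjoint hdisj] at h4 h5
  rw [lkF_lkF]
  refine ⟨by omega, ?_⟩
  rw [show e - κ.card - ρ.card = e - (κ.card + ρ.card) by omega]
  exact h5

theorem TowL.base (i₀ : ι) (hK : ∀ i, IsFlagSphere (K i) d S) {M : ℕ} (hM : 0 < M) {a : Fin n}
    (ha : a ∈ vert S) {σ : Finset (Fin n)} (hσ : σ ⊆ vert S) {g : Finset (Fin n) → ℤ[X]}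
    (hg : ∀ κ ∈ S, κ ⊆ σ → IsG (d - κ.card) (cl (skel S) (lkF (skel S) (vert S) κ)) (g κ)) :
    TowL K S d M 1 a σ g := by
  have h := hK i₀
  set τ : Fin n → Fin M := fun _ => ⟨0, hM⟩ with hτ
  set H := amb (⊥ : SimpleGraph (Fin (n * M))) ∅ (skel S) (em τ) with hH
  have hadj : ∀ x y, H.Adj (em τ x) (em τ y) ↔ (skel S).Adj x y := by
    intro x y
    constructor
    · rintro (⟨h1, -, -⟩ | ⟨x', y', h1, h2, h3⟩)
      · exact absurd h1 (Finset.notMem_empty _)
      · rw [(em τ).injective h2, (em τ).injective h3]; exact h1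
    · exact fun h1 => Or.inr ⟨x, y, h1, rfl, rfl⟩
  refine ⟨H, (vert S).map (em τ), τ, ⟨fun i => Mf.map (em_strictMono τ) (fun x _ y _ => hadj x y)
    (mf_self (hK i)), NP_map d (fun x _ y _ => hadj x y) h.np, ?_, ?_, ?_⟩, ?_, ?_, ?_, ?_, ?_⟩
  · intro κ hκ hκσ
    rw [lkF_map' (hκσ.trans hσ) (fun x _ y _ => hadj x y), FP_map (fun x _ y _ => hadj x y)]
    exact (hg κ hκ hκσ).1
  · intro x hx
    exact Finset.mem_map_of_mem _ (hσ hx)
  · exact fun x _ z _ => hadj x z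
  · intro p hp
    obtain ⟨x, hx, rfl⟩ := Finset.mem_map.1 hp
    rw [em_mod]
    exact Nat.lt_succ_self 0
  · intro x hx
    exact Finset.mem_map_of_mem _ (lk_subset hx)
  · exact Finset.mem_map_of_mem _ ha
  · exact lk_map' (fun x _ y _ => hadj x y) ha
  · exact fun x _ y _ => hadj x y

/-- gluing one more copy -/
theorem TowL.step (i₀ : ι)
    (hK : ∀ i, IsFlagSphere (K i) (d + 1) S) {M t : ℕ} (ht : t < M) {a b : Fin n}
    (ha : a ∈ vert S) (hb : b ∈ vert S) (hab : a ≠ b) (hnadj : ¬ (skel S).Adj a b)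
    {σ : Finset (Fin n)} (hσ : σ ⊆ lk (skel S) (vert S) a)
    {G g : Finset (Fin n) → ℤ[X]} (hT : TowL K S (d + 1) M t a σ G)
    (hg : ∀ κ ∈ S, κ ⊆ insert a σ →
      IsG (d + 1 - κ.card) (cl (skel S) (lkF (skel S) (vert S) κ)) (g κ)) :
    TowL K S (d + 1) M (t + 1) b σ (fun κ => G κ + g κ - g (insert a κ)) := by
  classical
  have h := hK i₀
  obtain ⟨H, W, τ, ⟨hMf, hNP, hG, hσW, hσadj⟩, hlab, hAW, haW, hlk, hadjA⟩ := hT
  set A := lk (skel S) (vert S) a with hA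
  set τ' : Fin n → Fin M := fun x => if x ∈ A then τ x else ⟨t, ht⟩ with hτ'
  set φ := em τ' with hφ
  set H' := amb H W (skel S) φ with hH'
  set X₂ := (vert S).map φ with hX₂
  have haA : a ∉ A := not_mem_lk_self
  have hbA : b ∉ A := fun h' => hnadj (mem_lk.1 h').2
  have hφA : ∀ x ∈ A, φ x = em τ x := fun x hx => em_congr (by simp [hτ', hx])
  have hφW : ∀ x, φ x ∈ W ↔ x ∈ A := by
    intro x
    constructor
    · intro hx
      by_contra hxA
      have h1 := hlab _ hx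
      rw [hφ, em_mod] at h1
      simp [hτ', hxA] at h1
    · intro hx
      rw [hφA x hx]
      exact hAW x hx
  have hc1 : ∀ x, φ x ≠ em τ a := by
    intro x hx
    have h1 := em_eq hx
    subst h1
    exact haA ((hφW x).1 (by rw [hx]; exact haW))
  have f4 : ∀ p ∈ W, ∀ q ∈ W, (H.Adj p q ↔ H'.Adj p q) := by
    intro p hp q hq
    constructor
    · exact fun h1 => Or.inl ⟨hp, hq, h1⟩
    · rintro (⟨-, -, h1⟩ | ⟨x, y, h1, rfl, rfl⟩)
      · exact h1
      · have hx := (hφW x).1 hp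
        have hy := (hφW y).1 hq
        rw [hφA x hx, hφA y hy]
        exact (hadjA x hx y hy).2 h1
  have f5 : ∀ x y, (H'.Adj (φ x) (φ y) ↔ (skel S).Adj x y) := by
    intro x y
    constructor
    · rintro (⟨h1, h2, h3⟩ | ⟨x', y', h1, h2, h3⟩)
      · have hx := (hφW x).1 h1
        have hy := (hφW y).1 h2
        rw [hφA x hx, hφA y hy] at h3
        exact (hadjA x hx y hy).1 h3
      · rw [φ.injective h2, φ.injective h3]; exact h1
    · exact fun h1 => Or.inr ⟨x, y, h1, rfl, rfl⟩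
  have hAmap : A.map φ = A.map (em τ) := by
    ext z
    rw [Finset.mem_map, Finset.mem_map]
    constructor
    · rintro ⟨x, hx, rfl⟩; exact ⟨x, hx, (hφA x hx).symm⟩
    · rintro ⟨x, hx, rfl⟩; exact ⟨x, hx, hφA x hx⟩
  have hint : W.erase (em τ a) ∩ X₂.erase (φ a) = A.map φ := by
    ext z
    simp only [Finset.mem_inter, Finset.mem_erase, hX₂, Finset.mem_map]
    constructor
    · rintro ⟨⟨h1, h2⟩, h3, ⟨x, hx, rfl⟩⟩
      exact ⟨x, (hφW x).1 h2, rfl⟩
    · rintro ⟨x, hx, rfl⟩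
      exact ⟨⟨hc1 x, (hφW x).2 hx⟩, fun h1 => haA (by rw [← φ.injective h1]; exact hx),
        ⟨x, lk_subset hx, rfl⟩⟩
  have hlk1 : lk H' W (em τ a) = A.map φ := by
    rw [hAmap, ← hlk]
    ext z
    rw [mem_lk, mem_lk]
    constructor
    · rintro ⟨h1, h2⟩; exact ⟨h1, (f4 _ haW _ h1).2 h2⟩
    · rintro ⟨h1, h2⟩; exact ⟨h1, (f4 _ haW _ h1).1 h2⟩
  have hlk2 : ∀ v ∈ vert S, lk H' X₂ (φ v) = (lk (skel S) (vert S) v).map φ :=
    fun v hv => lk_map' (fun x _ y _ => f5 x y) hv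
  have hglue : GlueData H' W X₂ (em τ a) (φ a) :=
    ⟨haW, Finset.mem_map_of_mem _ ha, by rw [hlk1, hint], by rw [hlk2 a ha, hint]⟩
  have hMf1 : ∀ i, Mf (K i) H' W (d + 1) := fun i => Mf_congr f4 (hMf i)
  have hMf2 : ∀ i, Mf (K i) H' X₂ (d + 1) := fun i =>
    Mf.map (em_strictMono τ') (fun x _ y _ => f5 x y) (mf_self (hK i))
  have hNP1 : NP H' (d + 1) W := NP_congr f4 hNP
  have hNP2 : NP H' (d + 1) X₂ := NP_map _ (fun x _ y _ => f5 x y) h.np
  have hK2 : ∀ x ∈ vert S, x ≠ a → φ x ∈ X₂.erase (φ a) := fun x hx hxa =>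
    Finset.mem_erase.2 ⟨fun h1 => hxa (φ.injective h1), Finset.mem_map_of_mem _ hx⟩
  have hlkb : ∀ x ∈ lk (skel S) (vert S) b, x ∈ vert S ∧ x ≠ a := fun x hx =>
    ⟨lk_subset hx, fun h1 => hnadj (by rw [← h1]; exact (mem_lk.1 hx).2.symm)⟩
  have hσa : ∀ x ∈ σ, x ∈ vert S ∧ x ≠ a := fun x hx =>
    ⟨lk_subset (hσ hx), fun h1 => haA (h1 ▸ hσ hx)⟩
  refine ⟨glueG H' (W.erase (em τ a)) (X₂.erase (φ a)), W.erase (em τ a) ∪ X₂.erase (φ a), τ',
    ⟨fun i => Mf.glue _ hglue (hMf1 i) (hMf2 i) hNP1 hNP2, glue_np stmDel hglue hNP1 hNP2,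
    ?_, ?_, ?_⟩, ?_, ?_, ?_, ?_, ?_⟩
  · intro κ hκ hκσ
    have hκA : κ ⊆ A := hκσ.trans hσ
    have hκc := (mem_cl_self h).1 hκ
    have haκ : insert a κ ∈ S := by
      rw [mem_cl_self h, mem_cl]
      rw [mem_cl] at hκc
      refine ⟨Finset.insert_subset ha hκc.1, fun x hx z hz hxz => ?_⟩
      rcases Finset.mem_insert.1 hx with hxa | hx1
      · rcases Finset.mem_insert.1 hz with hza | hz1
        · exact absurd (hxa.trans hza.symm) hxz
        · rw [hxa]; exact (mem_lk.1 (hκA hz1)).2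
      · rcases Finset.mem_insert.1 hz with hza | hz1
        · rw [hza]; exact (mem_lk.1 (hκA hx1)).2.symm
        · exact hκc.2 x hx1 z hz1 hxz
    have haκ' : a ∉ κ := fun h1 => haA (hκA h1)
    have hcard : (insert a κ).card = κ.card + 1 := Finset.card_insert_of_notMem haκ'
    have hle := h.card_le _ haκ
    rw [hcard] at hle
    have hκφ : κ.map φ ∈ cl H' (lk H' W (em τ a)) := by
      rw [hlk1, cl_map' (fun x _ y _ => f5 x y), mem_mp]
      exact ⟨κ, mem_cl.2 ⟨hκA, (mem_cl.1 hκc).2⟩, rfl⟩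
    rw [FP_glue_lkF hglue hκφ, hlk1]
    have hκm : κ.map φ = κ.map (em τ) := by
      ext z
      rw [Finset.mem_map, Finset.mem_map]
      constructor
      · rintro ⟨x, hx, rfl⟩; exact ⟨x, hx, (hφA x (hκA hx)).symm⟩
      · rintro ⟨x, hx, rfl⟩; exact ⟨x, hx, hφA x (hκA hx)⟩
    have e1 : FP H' (lkF H' W (κ.map φ)) = FP H (lkF H W (κ.map (em τ))) := by
      have e0 : lkF H' W (κ.map φ) = lkF H W (κ.map (em τ)) := by
        rw [hκm]
        have hsub : ∀ z ∈ κ.map (em τ), z ∈ W := by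
          intro z hz
          obtain ⟨x, hx, rfl⟩ := Finset.mem_map.1 hz
          exact hAW x (hκA hx)
        ext z
        rw [mem_lkF, mem_lkF]
        constructor
        · rintro ⟨h1, h2⟩
          exact ⟨h1, fun p hp => (f4 p (hsub p hp) z h1).2 (h2 p hp)⟩
        · rintro ⟨h1, h2⟩
          exact ⟨h1, fun p hp => (f4 p (hsub p hp) z h1).1 (h2 p hp)⟩
      rw [e0]
      exact FP_congr' (fun x hx z hz => (f4 x (mem_lkF.1 hx).1 z (mem_lkF.1 hz).1).symm)
    have e2 : FP H' (lkF H' X₂ (κ.map φ)) = FP (skel S) (lkF (skel S) (vert S) κ) := by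
      rw [hX₂, lkF_map' (mem_cl.1 hκc).1 (fun x _ y _ => f5 x y),
        FP_map (fun x _ y _ => f5 x y)]
    have e3 : FP H' (lkF H' (A.map φ) (κ.map φ)) =
        FP (skel S) (lkF (skel S) (vert S) (insert a κ)) := by
      rw [lkF_map' hκA (fun x _ y _ => f5 x y), FP_map (fun x _ y _ => f5 x y), hA,
        ← lkF_singleton, lkF_lkF, ← Finset.insert_eq]
    have hG1 := hG κ hκ hκσ
    have hG2 := hg κ hκ (hκσ.trans (Finset.subset_insert _ _))
    have hG3 := hg _ haκ (Finset.insert_subset_insert _ hκσ)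
    rw [hcard] at hG3
    obtain ⟨e, he⟩ : ∃ e, d + 1 - κ.card = e + 1 := ⟨d - κ.card, by omega⟩
    have he' : d + 1 - (κ.card + 1) = e := by omega
    rw [he] at hG1 hG2 ⊢
    rw [he'] at hG3
    have hAS : IsFlagSphere (K i₀) e (cl (skel S) (lkF (skel S) (vert S) (insert a κ))) := by
      have h5 := mf_lkF (mf_self h) ((mem_cl_self h).1 haκ)
      rw [hcard, he'] at h5
      exact isFlagSphere_of_mf h5
    have hz := fp_coeff_zero hAS
    rw [fp_cl] at hz
    have g2 := hG2.1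
    have g3 := hG3.1
    rw [fp_cl] at g2 g3
    change _ = gp (e + 1) (G κ + g κ - g (insert a κ))
    have e4 : FP H (lkF H W (κ.map (em τ))) + FP (skel S) (lkF (skel S) (vert S) κ) -
        y * FP (skel S) (lkF (skel S) (vert S) (insert a κ)) =
        FP H (lkF H W (κ.map (em τ))) + FP (skel S) (lkF (skel S) (vert S) κ) +
        C (-1 : ℤ) * (y * FP (skel S) (lkF (skel S) (vert S) (insert a κ))) := by
      rw [show (C (-1 : ℤ) : ℤ[X]) = -1 by simp]; ring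
    have e5 : G κ + g κ - g (insert a κ) = G κ + g κ + C (-1 : ℤ) * g (insert a κ) := by
      rw [show (C (-1 : ℤ) : ℤ[X]) = -1 by simp]; ring
    rw [e1, e2, e3, e4, e5, hp_add, hp_add, hp_C, hp_y hz, gp_add, gp_add, gp_C,
      gp_one hG3.2, hG1, g2, g3]
  · intro x hx
    exact Finset.mem_union_right _ (hK2 x (hσa x hx).1 (hσa x hx).2)
  · intro x hx z hz
    rw [glueG_adj, f5]
    exact ⟨fun h5 => h5.1, fun h5 => ⟨h5, Or.inr ⟨hK2 x (hσa x hx).1 (hσa x hx).2,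
      hK2 z (hσa z hz).1 (hσa z hz).2⟩⟩⟩
  · intro p hp
    rcases Finset.mem_union.1 hp with hp | hp
    · exact (hlab p (Finset.mem_of_mem_erase hp)).trans (Nat.lt_succ_self t)
    · obtain ⟨x, hx, rfl⟩ := Finset.mem_map.1 (Finset.mem_of_mem_erase hp)
      by_cases hxA : x ∈ A
      · exact (hlab _ ((hφW x).2 hxA)).trans (Nat.lt_succ_self t)
      · rw [hφ, em_mod]
        simp [hτ', hxA]
  · intro x hx
    obtain ⟨h1, h2⟩ := hlkb x hx
    exact Finset.mem_union_right _ (hK2 x h1 h2)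
  · exact Finset.mem_union_right _ (hK2 b hb hab.symm)
  · have hb1 : φ b ∉ W.erase (em τ a) := fun h1 =>
      hbA ((hφW b).1 (Finset.mem_of_mem_erase h1))
    have hb2 := hK2 b hb hab.symm
    rw [glueG_comm, Finset.union_comm, lk_glue_one hb2 hb1, hglue.symm.lk_one hb2 hb1, hlk2 b hb]
  · intro x hx z hz
    obtain ⟨h1, h2⟩ := hlkb x hx
    obtain ⟨h3, h4⟩ := hlkb z hz
    rw [glueG_adj, f5]
    constructor
    · exact fun h5 => h5.1
    · exact fun h5 => ⟨h5, Or.inr ⟨hK2 x h1 h2, hK2 z h3 h4⟩⟩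

end Pool.Agent.TH208.GJ
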