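import Pool.Agent.TH208.GJ.GlueMf

set_option autoImplicit false
set_option linter.unusedSectionVars false
set_option linter.unusedVariables false

/-!
# Chains of copies of a sphere glued along vertex links
-/

namespace Pool.Agent.TH208.GJ

open Pool.Agent.W497.FS Polynomial

variable {k : Type} [Field k] {n N d : ℕ}

section maps

variable {H₀ : SimpleGraph (Fin n)} {H : SimpleGraph (Fin N)} {φ : Fin n ↪ Fin N}

theorem cl_map' {W : Finset (Fin n)}
    (h : ∀ x ∈ W, ∀ y ∈ W, (H.Adj (φ x) (φ y) ↔ H₀.Adj x y)) :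
    cl H (W.map φ) = mp φ (cl H₀ W) := by
  ext A
  rw [mem_mp, mem_cl]
  constructor
  · rintro ⟨h1, h2⟩
    obtain ⟨B, hB, rfl⟩ := Finset.subset_map_iff.1 h1
    refine ⟨B, mem_cl.2 ⟨hB, fun x hx y hy hxy => ?_⟩, rfl⟩
    exact (h x (hB hx) y (hB hy)).1 (h2 _ (Finset.mem_map_of_mem _ hx) _
      (Finset.mem_map_of_mem _ hy) (fun h => hxy (φ.injective h)))
  · rintro ⟨B, hB, rfl⟩
    obtain ⟨h1, h2⟩ := mem_cl.1 hB
    refine ⟨Finset.map_subset_map.2 h1, fun x hx y hy hxy => ?_⟩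
    obtain ⟨x, hx2, rfl⟩ := Finset.mem_map.1 hx
    obtain ⟨y, hy2, rfl⟩ := Finset.mem_map.1 hy
    exact (h x (h1 hx2) y (h1 hy2)).2 (h2 x hx2 y hy2 (fun h => hxy (by rw [h])))

theorem lk_map' {W : Finset (Fin n)}
    (h : ∀ x ∈ W, ∀ y ∈ W, (H.Adj (φ x) (φ y) ↔ H₀.Adj x y)) {v : Fin n} (hv : v ∈ W) :
    lk H (W.map φ) (φ v) = (lk H₀ W v).map φ := by
  ext z
  rw [mem_lk, Finset.mem_map, Finset.mem_map]
  constructor
  · rintro ⟨⟨x, hx, rfl⟩, h1⟩
    exact ⟨x, mem_lk.2 ⟨hx, (h v hv x hx).1 h1⟩, rfl⟩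
  · rintro ⟨x, hx, rfl⟩
    obtain ⟨h1, h2⟩ := mem_lk.1 hx
    exact ⟨⟨x, h1, rfl⟩, (h v hv x h1).2 h2⟩

theorem lkF_map' {W κ : Finset (Fin n)} (hκ : κ ⊆ W)
    (h : ∀ x ∈ W, ∀ y ∈ W, (H.Adj (φ x) (φ y) ↔ H₀.Adj x y)) :
    lkF H (W.map φ) (κ.map φ) = (lkF H₀ W κ).map φ := by
  ext z
  rw [mem_lkF, Finset.mem_map, Finset.mem_map]
  constructor
  · rintro ⟨⟨x, hx, rfl⟩, h1⟩
    exact ⟨x, mem_lkF.2 ⟨hx, fun y hy => (h y (hκ hy) x hx).1
      (h1 _ (Finset.mem_map_of_mem _ hy))⟩, rfl⟩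
  · rintro ⟨x, hx, rfl⟩
    obtain ⟨h1, h2⟩ := mem_lkF.1 hx
    refine ⟨⟨x, h1, rfl⟩, fun y hy => ?_⟩
    obtain ⟨y, hy2, rfl⟩ := Finset.mem_map.1 hy
    exact (h y (hκ hy2) x h1).2 (h2 y hy2)

theorem Sph.map (hφ : StrictMono φ) {W : Finset (Fin n)} {e : ℕ}
    (h : ∀ x ∈ W, ∀ y ∈ W, (H.Adj (φ x) (φ y) ↔ H₀.Adj x y)) (hs : Sph k H₀ W e) :
    Sph k H (W.map φ) e := by
  refine sph_of_rank ?_ ?_
  · intro F hF
    rw [cl_map' h, mem_mp] at hF
    obtain ⟨B, hB, rfl⟩ := hF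
    rw [Finset.card_map]
    exact hs.dim B hB
  · rw [cl_map' h]
    exact rankSph_mp _ hφ (rank_of_sph hs)

theorem Mf.map (hφ : StrictMono φ) {W : Finset (Fin n)} {e : ℕ}
    (h : ∀ x ∈ W, ∀ y ∈ W, (H.Adj (φ x) (φ y) ↔ H₀.Adj x y)) (hs : Mf k H₀ W e) :
    Mf k H (W.map φ) e := by
  intro κ hκ
  rw [cl_map' h, mem_mp] at hκ
  obtain ⟨B, hB, rfl⟩ := hκ
  obtain ⟨h1, h2⟩ := hs B hB
  rw [Finset.card_map, lkF_map' (mem_cl.1 hB).1 h]
  refine ⟨h1, Sph.map hφ (fun x hx y hy => ?_) h2⟩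
  exact h x (mem_lkF.1 hx).1 y (mem_lkF.1 hy).1

theorem NP_map : ∀ (d : ℕ) {W : Finset (Fin n)},
    (∀ x ∈ W, ∀ y ∈ W, (H.Adj (φ x) (φ y) ↔ H₀.Adj x y)) → NP H₀ d W → NP H d (W.map φ) := by
  intro d
  induction d with
  | zero =>
    intro W h hW
    have hW' : W = ∅ := hW
    rw [hW', Finset.map_empty]
    rfl
  | succ d ih =>
    intro W h hW
    rcases d with _ | d
    · have h1 : W.card = 2 ∧ ∀ x ∈ W, ∀ y ∈ W, ¬ H₀.Adj x y := hW
      refine ⟨by rw [Finset.card_map]; exact h1.1, fun x hx y hy hxy => ?_⟩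
      obtain ⟨x, hx2, rfl⟩ := Finset.mem_map.1 hx
      obtain ⟨y, hy2, rfl⟩ := Finset.mem_map.1 hy
      exact h1.2 x hx2 y hy2 ((h x hx2 y hy2).1 hxy)
    · obtain ⟨h1, h2, h3⟩ := hW
      refine ⟨h1.map, fun A hA hne hneq => ?_, fun v hv => ?_⟩
      · obtain ⟨B, hB, rfl⟩ := Finset.subset_map_iff.1 hA
        obtain ⟨a, ha, b, hb, hbB, hab⟩ := h2 B hB (Finset.map_nonempty.1 hne)
          (fun h4 => hneq (by rw [h4]))
        refine ⟨φ a, Finset.mem_map_of_mem _ ha, φ b, Finset.mem_map_of_mem _ hb, ?_,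
          (h a (hB ha) b hb).2 hab⟩
        rwa [Finset.mem_map']
      · obtain ⟨v, hv2, rfl⟩ := Finset.mem_map.1 hv
        rw [lk_map' h hv2]
        exact ih (fun x hx y hy => h x (lk_subset hx) y (lk_subset hy)) (h3 v hv2)

theorem FP_map {W : Finset (Fin n)}
    (h : ∀ x ∈ W, ∀ y ∈ W, (H.Adj (φ x) (φ y) ↔ H₀.Adj x y)) : FP H (W.map φ) = FP H₀ W := by
  rw [FP, cl_map' h, mp, Finset.sum_map]
  refine Finset.sum_congr rfl (fun σ _ => ?_)
  simp

theorem FP_congr' {H H' : SimpleGraph (Fin N)} {X : Finset (Fin N)}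
    (h : ∀ x ∈ X, ∀ z ∈ X, (H.Adj x z ↔ H'.Adj x z)) : FP H X = FP H' X := by
  rw [FP, FP, cl_congr' h]

end maps

theorem isFlagSphere_of_mf {H : SimpleGraph (Fin N)} {W : Finset (Fin N)} (hM : Mf k H W d) :
    IsFlagSphere k d (cl H W) := by
  refine ⟨fun L j => Matrix.rank (Matrix.of
        (fun (A : {A : Finset (Fin N) // A ∈ L.filter (fun A => A.card = j - 1)})
             (B : {B : Finset (Fin N) // B ∈ L.filter (fun B => B.card = j)}) =>
          ∑ v ∈ B.1, if B.1.erase v = A.1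
            then (-1 : k) ^ (B.1.filter (fun w => w < v)).card else 0)), ?_, ?_, ?_, ?_⟩
  · exact fun F hF G hG => Pool.Agent.W216.FS.HR.cl_down hF hG
  · intro F hF
    refine mem_cl.2 ⟨fun a ha => ?_, fun a ha b hb hab => ?_⟩
    · have h1 := (mem_cl.1 (hF a ha a ha)).1
      exact h1 (by simp)
    · exact (mem_cl.1 (hF a ha b hb)).2 a (by simp) b (by simp) hab
  · intro L j; rfl
  · intro F hF j
    obtain ⟨h1, h2⟩ := hM F hF
    have hL : cl H (lkF H W F) = (cl H W).filter (fun G => Disjoint G F ∧ G ∪ F ∈ cl H W) := by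
      ext A
      rw [Pool.Agent.W216.FS.HR.cl_lkF hF, Finset.mem_filter]
    have h3 := rank_of_sph h2 j
    rw [hL] at h3
    have e2 : (if j + F.card = d then (1 : ℤ) else 0) =
        if j = d - F.card then 1 else 0 := by
      by_cases h1' : j + F.card = d
      · rw [if_pos h1', if_pos (by omega)]
      · rw [if_neg h1', if_neg (by omega)]
    rw [e2]
    exact h3

theorem mf_self {S : Finset (Finset (Fin n))} (h : IsFlagSphere k d S) :
    Mf k (skel S) (vert S) d := by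
  intro κ hκ
  rw [h.cl_eq] at hκ
  obtain ⟨h1, h2⟩ := isFHS_rank h hκ
  exact ⟨h1, sph_of_rank (dim_lkF h hκ) h2⟩

/-! ### The labels -/

section labels

variable {M : ℕ}

/-- the embedding `x ↦ (x, τ x)` -/
def em (τ : Fin n → Fin M) : Fin n ↪ Fin (n * M) :=
  ⟨fun x => ⟨x.val * M + (τ x).val, by
    have h1 := (τ x).2
    have h2 : (x.val + 1) * M ≤ n * M := Nat.mul_le_mul_right M x.2
    rw [add_mul, one_mul] at h2
    omega⟩, fun x y h => by
    have h0 := congrArg Fin.val h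
    change x.val * M + (τ x).val = y.val * M + (τ y).val at h0
    have h1 := (τ x).2
    have h2 := (τ y).2
    have hM : 0 < M := by omega
    have h3 : (x.val * M + (τ x).val) / M = x.val := by
      rw [mul_comm, Nat.mul_add_div hM, Nat.div_eq_of_lt h1, add_zero]
    have h4 : (y.val * M + (τ y).val) / M = y.val := by
      rw [mul_comm, Nat.mul_add_div hM, Nat.div_eq_of_lt h2, add_zero]
    apply Fin.ext
    rw [← h3, ← h4, h0]⟩

theorem em_val (τ : Fin n → Fin M) (x : Fin n) : (em τ x).val = x.val * M + (τ x).val := rfl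

theorem em_mod (τ : Fin n → Fin M) (x : Fin n) : (em τ x).val % M = (τ x).val := by
  rw [em_val, mul_comm, Nat.mul_add_mod, Nat.mod_eq_of_lt (τ x).2]

theorem em_div (τ : Fin n → Fin M) (x : Fin n) : (em τ x).val / M = x.val := by
  have h1 := (τ x).2
  rw [em_val, mul_comm, Nat.mul_add_div (by omega), Nat.div_eq_of_lt h1, add_zero]

theorem em_strictMono (τ : Fin n → Fin M) : StrictMono (em τ) := by
  intro x y hxy
  rw [Fin.lt_def, em_val, em_val]
  have h1 := (τ x).2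
  have h2 : (x.val + 1) * M ≤ y.val * M := Nat.mul_le_mul_right M hxy
  rw [add_mul, one_mul] at h2
  omega

theorem em_eq {τ σ : Fin n → Fin M} {x y : Fin n} (h : em τ x = em σ y) : x = y := by
  have h1 := em_div τ x
  rw [h, em_div] at h1
  exact Fin.ext h1.symm

theorem em_congr {τ σ : Fin n → Fin M} {x : Fin n} (h : τ x = σ x) : em τ x = em σ x := by
  apply Fin.ext
  rw [em_val, em_val, h]

end labels

/-- the union of two graphs -/
def amb (H : SimpleGraph (Fin N)) (W : Finset (Fin N)) (H₀ : SimpleGraph (Fin n))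
    (φ : Fin n ↪ Fin N) : SimpleGraph (Fin N) where
  Adj p q := (p ∈ W ∧ q ∈ W ∧ H.Adj p q) ∨ ∃ x y, H₀.Adj x y ∧ p = φ x ∧ q = φ y
  symm := ⟨fun p q h => by
    rcases h with ⟨h1, h2, h3⟩ | ⟨x, y, h1, h2, h3⟩
    · exact Or.inl ⟨h2, h1, h3.symm⟩
    · exact Or.inr ⟨y, x, h1.symm, h3, h2⟩⟩
  loopless := ⟨fun p h => by
    rcases h with ⟨h1, h2, h3⟩ | ⟨x, y, h1, h2, h3⟩
    · exact h3.ne rfl
    · exact h1.ne (φ.injective (h2.symm.trans h3))⟩

/-- a sphere containing the closed star of the vertex `a` of `S`, with labels of level less than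
`t`, and with the gamma-polynomial `G` -/
def Tow {ι : Type*} (K : ι → Type) [∀ i, Field (K i)] {n : ℕ} (S : Finset (Finset (Fin n)))
    (d M t : ℕ) (a : Fin n) (G : ℤ[X]) : Prop :=
  ∃ (H : SimpleGraph (Fin (n * M))) (W : Finset (Fin (n * M))) (τ : Fin n → Fin M),
    (∀ i, Mf (K i) H W d) ∧ NP H d W ∧ hp d (FP H W) = gp d G ∧ (∀ p ∈ W, p.val % M < t) ∧
    (∀ x ∈ lk (skel S) (vert S) a, em τ x ∈ W) ∧ em τ a ∈ W ∧
    lk H W (em τ a) = (lk (skel S) (vert S) a).map (em τ) ∧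
    ∀ x ∈ lk (skel S) (vert S) a, ∀ y ∈ lk (skel S) (vert S) a,
      (H.Adj (em τ x) (em τ y) ↔ (skel S).Adj x y)

variable {S : Finset (Finset (Fin n))}

theorem Tow.base {ι : Type*} {K : ι → Type} [∀ i, Field (K i)] (i₀ : ι)
    (hK : ∀ i, IsFlagSphere (K i) d S) {M : ℕ} (hM : 0 < M) {a : Fin n} (ha : a ∈ vert S)
    {G : ℤ[X]} (hG : hp d (fp S) = gp d G) : Tow K S d M 1 a G := by
  have h := hK i₀
  set τ : Fin n → Fin M := fun _ => ⟨0, hM⟩ with hτ
  set H := amb (⊥ : SimpleGraph (Fin (n * M))) ∅ (skel S) (em τ) with hH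
  have hadj : ∀ x y, H.Adj (em τ x) (em τ y) ↔ (skel S).Adj x y := by
    intro x y
    constructor
    · rintro (⟨h1, -, -⟩ | ⟨x', y', h1, h2, h3⟩)
      · exact absurd h1 (Finset.notMem_empty _)
      · rw [(em τ).injective h2, (em τ).injective h3]; exact h1
    · exact fun h1 => Or.inr ⟨x, y, h1, rfl, rfl⟩
  refine ⟨H, (vert S).map (em τ), τ, fun i => Mf.map (em_strictMono τ) (fun x _ y _ => hadj x y)
    (mf_self (hK i)), NP_map d (fun x _ y _ => hadj x y) h.np, ?_, ?_, ?_, ?_, ?_, ?_⟩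
  · rw [FP_map (fun x _ y _ => hadj x y), ← hG, FP, h.cl_eq, fp]
  · intro p hp
    obtain ⟨x, hx, rfl⟩ := Finset.mem_map.1 hp
    rw [em_mod]
    exact Nat.lt_succ_self 0
  · intro x hx
    exact Finset.mem_map_of_mem _ (lk_subset hx)
  · exact Finset.mem_map_of_mem _ ha
  · exact lk_map' (fun x _ y _ => hadj x y) ha
  · exact fun x _ y _ => hadj x y

theorem skel_mem (h : IsFlagSphere k d S) {x y : Fin n} (hxy : (skel S).Adj x y) :
    x ∈ vert S ∧ y ∈ vert S := by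
  obtain ⟨r, hr⟩ := h
  rw [mem_vert, mem_vert]
  exact ⟨hr.1 _ hxy.2 _ (by simp), hr.1 _ hxy.2 _ (by simp)⟩

theorem hp_y {d : ℕ} {P : ℤ[X]} (hP : ∀ j, d < j → P.coeff j = 0) :
    hp (d + 1) (y * P) = hp d P * (1 + X) := by
  have e1 : y * P = P + C (2 : ℤ) * (X * P) := by
    rw [y, show (C (2 : ℤ) : ℤ[X]) = 2 from rfl]; ring
  have h1 : hp (d + 1) P = hp d P * (1 - X) := by
    rw [hp, Finset.sum_range_succ, hP (d + 1) (by omega)]
    simp only [map_zero, zero_mul, add_zero]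
    rw [hp, Finset.sum_mul]
    refine Finset.sum_congr rfl (fun j hj => ?_)
    rw [Finset.mem_range] at hj
    rw [show d + 1 - j = d - j + 1 by omega, pow_succ]
    ring
  have h2 : hp (d + 1) (X * P) = hp d P * X := by
    rw [hp, Finset.sum_range_succ']
    simp only [coeff_X_mul, map_zero, zero_mul, add_zero, mul_coeff_zero, coeff_X_zero]
    rw [hp, Finset.sum_mul]
    refine Finset.sum_congr rfl (fun j hj => ?_)
    rw [Finset.mem_range] at hj
    rw [show d + 1 - (j + 1) = d - j by omega, pow_succ]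
    ring
  rw [e1, hp_add, hp_C, h1, h2, show (C (2 : ℤ) : ℤ[X]) = 2 from rfl]
  ring

theorem gp_one {d : ℕ} {G : ℤ[X]} (hG : ∀ i, d / 2 < i → G.coeff i = 0) :
    gp (d + 1) G = gp d G * (1 + X) := by
  have key : gp (d + 1) G = ∑ i ∈ Finset.range (d / 2 + 1),
      C (G.coeff i) * X ^ i * (1 + X) ^ (d + 1 - 2 * i) := by
    rw [gp]
    rcases Nat.even_or_odd d with ⟨e, he⟩ | ⟨e, he⟩
    · rw [show (d + 1) / 2 = d / 2 by omega]
    · rw [show (d + 1) / 2 = d / 2 + 1 by omega, Finset.sum_range_succ, hG (d / 2 + 1) (by omega)]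
      simp
  rw [key, gp, Finset.sum_mul]
  refine Finset.sum_congr rfl (fun j hj => ?_)
  rw [Finset.mem_range] at hj
  rw [show d + 1 - 2 * j = d - 2 * j + 1 by omega, pow_succ]
  ring

theorem fp_coeff_zero (h : IsFlagSphere k d S) : ∀ j, d < j → (fp S).coeff j = 0 := by
  intro j hj
  rw [fp_coeff]
  have : S.filter (fun G => G.card = j) = ∅ := by
    rw [Finset.filter_eq_empty_iff]
    intro F hF hFc
    have := h.card_le F hF
    omega
  rw [this]; simp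

/-- gluing one more copy -/
theorem Tow.step {ι : Type*} {K : ι → Type} [∀ i, Field (K i)] (i₀ : ι)
    (hK : ∀ i, IsFlagSphere (K i) (d + 1) S) {M t : ℕ} (ht : t < M) {a b : Fin n}
    (ha : a ∈ vert S) (hb : b ∈ vert S) (hab : a ≠ b) (hnadj : ¬ (skel S).Adj a b)
    {G GS GA : ℤ[X]} (hT : Tow K S (d + 1) M t a G) (hGS : hp (d + 1) (fp S) = gp (d + 1) GS)
    (hGA : IsG d (cl (skel S) (lk (skel S) (vert S) a)) GA) :
    Tow K S (d + 1) M (t + 1) b (G + GS - GA) := by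
  classical
  have h := hK i₀
  obtain ⟨H, W, τ, hMf, hNP, hG, hlab, hAW, haW, hlk, hadjA⟩ := hT
  set A := lk (skel S) (vert S) a with hA
  set τ' : Fin n → Fin M := fun x => if x ∈ A then τ x else ⟨t, ht⟩ with hτ'
  set φ := em τ' with hφ
  set H' := amb H W (skel S) φ with hH'
  set X₂ := (vert S).map φ with hX₂
  have haA : a ∉ A := not_mem_lk_self
  have hbA : b ∉ A := fun h' => hnadj (mem_lk.1 h').2
  have hφA : ∀ x ∈ A, φ x = em τ x := fun x hx => em_congr (by simp [hτ', hx])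
  have hφW : ∀ x, φ x ∈ W ↔ x ∈ A := by
    intro x
    constructor
    · intro hx
      by_contra hxA
      have h1 := hlab _ hx
      rw [hφ, em_mod] at h1
      simp [hτ', hxA] at h1
    · intro hx
      rw [hφA x hx]
      exact hAW x hx
  have hc1 : ∀ x, φ x ≠ em τ a := by
    intro x hx
    have h1 := em_eq hx
    subst h1
    exact haA ((hφW x).1 (by rw [hx]; exact haW))
  have f4 : ∀ p ∈ W, ∀ q ∈ W, (H.Adj p q ↔ H'.Adj p q) := by
    intro p hp q hq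
    constructor
    · exact fun h1 => Or.inl ⟨hp, hq, h1⟩
    · rintro (⟨-, -, h1⟩ | ⟨x, y, h1, rfl, rfl⟩)
      · exact h1
      · have hx := (hφW x).1 hp
        have hy := (hφW y).1 hq
        rw [hφA x hx, hφA y hy]
        exact (hadjA x hx y hy).2 h1
  have f5 : ∀ x y, (H'.Adj (φ x) (φ y) ↔ (skel S).Adj x y) := by
    intro x y
    constructor
    · rintro (⟨h1, h2, h3⟩ | ⟨x', y', h1, h2, h3⟩)
      · have hx := (hφW x).1 h1
        have hy := (hφW y).1 h2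
        rw [hφA x hx, hφA y hy] at h3
        exact (hadjA x hx y hy).1 h3
      · rw [φ.injective h2, φ.injective h3]; exact h1
    · exact fun h1 => Or.inr ⟨x, y, h1, rfl, rfl⟩
  have hAmap : A.map φ = A.map (em τ) := by
    ext z
    rw [Finset.mem_map, Finset.mem_map]
    constructor
    · rintro ⟨x, hx, rfl⟩; exact ⟨x, hx, (hφA x hx).symm⟩
    · rintro ⟨x, hx, rfl⟩; exact ⟨x, hx, hφA x hx⟩
  have hint : W.erase (em τ a) ∩ X₂.erase (φ a) = A.map φ := by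
    ext z
    simp only [Finset.mem_inter, Finset.mem_erase, hX₂, Finset.mem_map]
    constructor
    · rintro ⟨⟨h1, h2⟩, h3, ⟨x, hx, rfl⟩⟩
      exact ⟨x, (hφW x).1 h2, rfl⟩
    · rintro ⟨x, hx, rfl⟩
      exact ⟨⟨hc1 x, (hφW x).2 hx⟩, fun h1 => haA (by rw [← φ.injective h1]; exact hx),
        ⟨x, lk_subset hx, rfl⟩⟩
  have hlk1 : lk H' W (em τ a) = A.map φ := by
    rw [hAmap, ← hlk]
    ext z
    rw [mem_lk, mem_lk]
    constructor
    · rintro ⟨h1, h2⟩; exact ⟨h1, (f4 _ haW _ h1).2 h2⟩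
    · rintro ⟨h1, h2⟩; exact ⟨h1, (f4 _ haW _ h1).1 h2⟩
  have hlk2 : ∀ v ∈ vert S, lk H' X₂ (φ v) = (lk (skel S) (vert S) v).map φ :=
    fun v hv => lk_map' (fun x _ y _ => f5 x y) hv
  have hglue : GlueData H' W X₂ (em τ a) (φ a) :=
    ⟨haW, Finset.mem_map_of_mem _ ha, by rw [hlk1, hint], by rw [hlk2 a ha, hint]⟩
  have hMf1 : ∀ i, Mf (K i) H' W (d + 1) := fun i => Mf_congr f4 (hMf i)
  have hMf2 : ∀ i, Mf (K i) H' X₂ (d + 1) := fun i =>
    Mf.map (em_strictMono τ') (fun x _ y _ => f5 x y) (mf_self (hK i))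
  have hNP1 : NP H' (d + 1) W := NP_congr f4 hNP
  have hNP2 : NP H' (d + 1) X₂ := NP_map _ (fun x _ y _ => f5 x y) h.np
  have hK2 : ∀ x ∈ vert S, x ≠ a → φ x ∈ X₂.erase (φ a) := fun x hx hxa =>
    Finset.mem_erase.2 ⟨fun h1 => hxa (φ.injective h1), Finset.mem_map_of_mem _ hx⟩
  have hlkb : ∀ x ∈ lk (skel S) (vert S) b, x ∈ vert S ∧ x ≠ a := fun x hx =>
    ⟨lk_subset hx, fun h1 => hnadj (by rw [← h1]; exact (mem_lk.1 hx).2.symm)⟩
  refine ⟨glueG H' (W.erase (em τ a)) (X₂.erase (φ a)), W.erase (em τ a) ∪ X₂.erase (φ a), τ',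
    fun i => Mf.glue _ hglue (hMf1 i) (hMf2 i) hNP1 hNP2, glue_np stmDel hglue hNP1 hNP2,
    ?_, ?_, ?_, ?_, ?_, ?_⟩
  · rw [FP_glue hglue, hlk1]
    have e1 : FP H' W = FP H W := (FP_congr' f4).symm
    have e2 : FP H' X₂ = fp S := by
      rw [hX₂, FP_map (H₀ := skel S) (fun x _ y _ => f5 x y), FP, h.cl_eq, fp]
    have e3 : FP H' (A.map φ) = fp (cl (skel S) A) := FP_map (fun x _ y _ => f5 x y)
    have hAS : IsFlagSphere (K i₀) d (cl (skel S) A) := isFlagSphere_of_mf ((mf_self h).lk ha)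
    have e4 : FP H W + fp S - y * fp (cl (skel S) A) =
        FP H W + fp S + C (-1 : ℤ) * (y * fp (cl (skel S) A)) := by
      rw [show (C (-1 : ℤ) : ℤ[X]) = -1 by simp]; ring
    have e5 : G + GS - GA = G + GS + C (-1 : ℤ) * GA := by
      rw [show (C (-1 : ℤ) : ℤ[X]) = -1 by simp]; ring
    rw [e1, e2, e3, e4, e5, hp_add, hp_add, hp_C, hp_y (fp_coeff_zero hAS), gp_add, gp_add, gp_C,
      gp_one hGA.2, hG, hGS, hGA.1]
  · intro p hp
    rcases Finset.mem_union.1 hp with hp | hp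
    · exact (hlab p (Finset.mem_of_mem_erase hp)).trans (Nat.lt_succ_self t)
    · obtain ⟨x, hx, rfl⟩ := Finset.mem_map.1 (Finset.mem_of_mem_erase hp)
      by_cases hxA : x ∈ A
      · exact (hlab _ ((hφW x).2 hxA)).trans (Nat.lt_succ_self t)
      · rw [hφ, em_mod]
        simp [hτ', hxA]
  · intro x hx
    obtain ⟨h1, h2⟩ := hlkb x hx
    exact Finset.mem_union_right _ (hK2 x h1 h2)
  · exact Finset.mem_union_right _ (hK2 b hb hab.symm)
  · have hb1 : φ b ∉ W.erase (em τ a) := fun h1 =>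
      hbA ((hφW b).1 (Finset.mem_of_mem_erase h1))
    have hb2 := hK2 b hb hab.symm
    rw [glueG_comm, Finset.union_comm, lk_glue_one hb2 hb1, hglue.symm.lk_one hb2 hb1, hlk2 b hb]
  · intro x hx z hz
    obtain ⟨h1, h2⟩ := hlkb x hx
    obtain ⟨h3, h4⟩ := hlkb z hz
    rw [glueG_adj, f5]
    constructor
    · exact fun h5 => h5.1
    · exact fun h5 => ⟨h5, Or.inr ⟨hK2 x h1 h2, hK2 z h3 h4⟩⟩

end Pool.Agent.TH208.GJ
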